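import Pool.Agent.H771.Outer2

/-!
# The cycle of exit directions does not close up: there is a hole
-/

namespace Pool.Agent.H771

open Complex

variable {ι : Type*}

/-- two constraints have independent normals -/
theorem PD.cross_ne (P : PD ι) {j : ι} {k κ : Fin 4} (hk : k ∈ P.C j) (hκ : κ ∈ P.C j)
    (hne : κ ≠ k) : ip (P.n j κ) (I * P.n j k) ≠ 0 := by
  intro h0
  have h1 := P.norm_n j k hk
  have h2 := P.norm_n j κ hκ
  have h3 := P.nn j k hk κ hκ (fun e => hne e.symm)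
  have h6 : ((6 - P.β j k) / 600) * ((6 - P.β j κ) / 600) ≤ 121 / 10000 := by
    have a1 := P.βlo j k hk
    have a2 := P.βhi j k hk
    have a3 := P.βlo j κ hκ
    have a4 := P.βhi j κ hκ
    have b1 : (6 - P.β j k) / 600 ≤ 11 / 100 := by linarith
    have b2 : (6 - P.β j κ) / 600 ≤ 11 / 100 := by linarith
    have b3 : 0 ≤ (6 - P.β j k) / 600 := by linarith
    have b4 : 0 ≤ (6 - P.β j κ) / 600 := by linarith
    nlinarith
  have h7 := abs_le.1 (h3.trans h6)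
  have h8 : ip (P.n j κ) (I * P.n j k) ^ 2 + ip (P.n j k) (P.n j κ) ^ 2 =
      ‖P.n j k‖ ^ 2 * ‖P.n j κ‖ ^ 2 := by
    rw [norm_sq_ip, norm_sq_ip]
    simp only [ip, mul_re, mul_im, I_re, I_im]; ring
  rw [h0] at h8
  have h9 : ip (P.n j k) (P.n j κ) ^ 2 ≤ (346 / 1000) ^ 2 := by
    apply sq_le_sq.2
    rw [abs_of_pos (by norm_num : (0 : ℝ) < 346 / 1000), abs_le]
    constructor <;> linarith
  nlinarith

theorem PD.exists_exit (P : PD ι) {j : ι} (h2 : (P.C j).card = 2) : ∃ d, Exit P j d := by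
  obtain ⟨k, κ, hkκ, hC⟩ := Finset.card_eq_two.1 h2
  have hk : k ∈ P.C j := by rw [hC]; simp
  have hκ : κ ∈ P.C j := by rw [hC]; simp
  have h1 := P.norm_n j k hk
  have h1' := P.norm_n j κ hκ
  have hcr := P.cross_ne hk hκ hkκ.symm
  have gen : ∀ k κ : Fin 4, k ∈ P.C j → (∀ l ∈ P.C j, l ≠ k → l = κ) →
      9879 / 10000 ≤ ‖P.n j k‖ ^ 2 → 0 < ip (P.n j κ) (I * P.n j k) → ∃ d, Exit P j d := by
    intro k κ hk hall hn hc
    have hN0 : 0 < ‖P.n j k‖ := by
      by_contra hcon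
      push Not at hcon
      have : ‖P.n j k‖ = 0 := le_antisymm hcon (norm_nonneg _)
      rw [this] at hn
      norm_num at hn
    have hNc : ((‖P.n j k‖ : ℝ) : ℂ) ≠ 0 := by exact_mod_cast hN0.ne'
    refine ⟨((‖P.n j k‖⁻¹ : ℝ) : ℂ) * (-(I * P.n j k)), ?_, k, hk, ?_, ?_⟩
    · rw [norm_mul, norm_real, norm_neg, norm_mul, norm_I, norm_inv, norm_norm, one_mul,
        inv_mul_cancel₀ hN0.ne']
    · push_cast
      have hI : I * (((‖P.n j k‖ : ℝ) : ℂ)⁻¹ * (-(I * P.n j k))) =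
          (((‖P.n j k‖ : ℝ) : ℂ)⁻¹ * P.n j k) := by
        linear_combination (-(((‖P.n j k‖ : ℝ) : ℂ)⁻¹ * P.n j k)) * Complex.I_mul_I
      rw [hI]
      field_simp
    · intro l hl hlk
      rw [hall l hl hlk, ip_smul_right, ip_neg_right]
      have := mul_pos (inv_pos.2 hN0) hc
      linarith
  have hanti : ip (P.n j k) (I * P.n j κ) = -ip (P.n j κ) (I * P.n j k) := by
    simp only [ip, mul_re, mul_im, I_re, I_im]; ring
  rcases lt_or_gt_of_ne hcr with h | h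
  · refine gen κ k hκ ?_ h1' (by rw [hanti]; linarith)
    intro l hl hlk
    rw [hC, Finset.mem_insert, Finset.mem_singleton] at hl
    rcases hl with hl | hl
    · exact hl
    · exact absurd hl hlk
  · refine gen k κ hk ?_ h1 h
    intro l hl hlk
    rw [hC, Finset.mem_insert, Finset.mem_singleton] at hl
    rcases hl with hl | hl
    · exact absurd hl hlk
    · exact hl

theorem PD.exit_unique (P : PD ι) {j : ι} {d d' : ℂ} (h : Exit P j d) (h' : Exit P j d') :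
    d = d' := by
  obtain ⟨hd, k, hk, hn, hneg⟩ := h
  obtain ⟨hd', k', hk', hn', hneg'⟩ := h'
  have hpos : ∀ l ∈ P.C j, 0 < ‖P.n j l‖ := by
    intro l hl
    have h1 := P.norm_n j l hl
    by_contra hcon
    push Not at hcon
    have : ‖P.n j l‖ = 0 := le_antisymm hcon (norm_nonneg _)
    rw [this] at h1
    norm_num at h1
  by_cases hkk : k = k'
  · rw [← hkk, hn] at hn'
    have hNc : ((‖P.n j k‖ : ℝ) : ℂ) ≠ 0 := by exact_mod_cast (hpos k hk).ne'
    have hN2 : ‖((‖P.n j k‖ : ℝ) : ℂ) * (I * d)‖ = ‖P.n j k‖ := by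
      rw [norm_mul, norm_mul, norm_I, hd, norm_real, norm_norm]; ring
    rw [hN2] at hn'
    have h1 := mul_left_cancel₀ hNc hn'
    exact mul_left_cancel₀ I_ne_zero h1
  · exfalso
    have h1 := hneg k' hk' (fun e => hkk e.symm)
    have h2 := hneg' k hk hkk
    rw [hn', ip_smul_left] at h1
    rw [hn, ip_smul_left] at h2
    have h3 := hpos k hk
    have h4 := hpos k' hk'
    have h5 : ip (I * d') d < 0 := by
      by_contra hc
      push Not at hc
      have := mul_nonneg h4.le hc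
      linarith
    have h6 : ip (I * d) d' < 0 := by
      by_contra hc
      push Not at hc
      have := mul_nonneg h3.le hc
      linarith
    have h7 : ip (I * d) d' = -ip (I * d') d := by
      simp only [ip, mul_re, mul_im, I_re, I_im]; ring
    linarith

theorem PD.apex_unique (P : PD ι) {j : ι} (h2 : (P.C j).card = 2) {c c' : ℂ}
    (h : ∀ k ∈ P.C j, P.F j k c = 0) (h' : ∀ k ∈ P.C j, P.F j k c' = 0) : c = c' := by
  obtain ⟨k, κ, hkκ, hC⟩ := Finset.card_eq_two.1 h2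
  have hk : k ∈ P.C j := by rw [hC]; simp
  have hκ : κ ∈ P.C j := by rw [hC]; simp
  have hcr := P.cross_ne hk hκ hkκ.symm
  have e1 := h k hk
  have e2 := h κ hκ
  have e3 := h' k hk
  have e4 := h' κ hκ
  unfold PD.F at e1 e2 e3 e4
  simp only [ip, mul_re, mul_im, I_re, I_im] at e1 e2 e3 e4 hcr
  have hre : ((P.n j κ).re * (0 * (P.n j k).re - 1 * (P.n j k).im) +
      (P.n j κ).im * (0 * (P.n j k).im + 1 * (P.n j k).re)) * (c.re - c'.re) = 0 := by
    linear_combination (P.n j κ).im * (e1 - e3) - (P.n j k).im * (e2 - e4)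
  have him : ((P.n j κ).re * (0 * (P.n j k).re - 1 * (P.n j k).im) +
      (P.n j κ).im * (0 * (P.n j k).im + 1 * (P.n j k).re)) * (c.im - c'.im) = 0 := by
    linear_combination -(P.n j κ).re * (e1 - e3) + (P.n j k).re * (e2 - e4)
  have h1 := (mul_eq_zero.1 hre).resolve_left hcr
  have h2 := (mul_eq_zero.1 him).resolve_left hcr
  exact Complex.ext (by linarith) (by linarith)

/-- some annulus has no apex -/
theorem PD.exists_gap (P : PD ι) : ∃ R : ℝ, 0 ≤ R ∧ R ≤ 4 ∧ Gap P R := by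
  by_contra hcon
  push Not at hcon
  have hR : ∀ i : Fin 5, ∃ j, P.InJ j ∧ (P.C j).card = 2 ∧ ∃ c : ℂ,
      (∀ k ∈ P.C j, P.F j k c = 0) ∧ (((i : ℕ) : ℝ) < ‖c‖ ∧ ‖c‖ ≤ ((i : ℕ) : ℝ) + 1) := by
    intro i
    have hi : ((i : ℕ) : ℝ) ≤ 4 := by exact_mod_cast (by omega : (i : ℕ) ≤ 4)
    have := hcon ((i : ℕ) : ℝ) (Nat.cast_nonneg _) hi
    unfold Gap at this
    push Not at this
    obtain ⟨j, h1, h2, c, h3, h4⟩ := this
    exact ⟨j, h1, h2, c, h3, h4⟩
  choose g hg1 hg2 c hc1 hc2 using hR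
  refine P.count (Fin.cons P.o g) ?_ ?_
  · intro i
    refine Fin.cases ?_ (fun i => ?_) i
    · simpa using P.inJ_o
    · simpa using hg1 i
  · rw [Fin.cons_injective_iff]
    constructor
    · rintro ⟨i, hi⟩
      have h0 : ∀ k ∈ P.C (g i), P.F (g i) k 0 = 0 := by
        intro k hk
        rw [hi] at hk ⊢
        unfold PD.F
        rw [ip_zero_right, P.oβ k hk]; ring
      have h1 := P.apex_unique (hg2 i) (hc1 i) h0
      have h2 := (hc2 i).1
      rw [h1, norm_zero] at h2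
      have : (0 : ℝ) ≤ ((i : ℕ) : ℝ) := Nat.cast_nonneg _
      linarith
    · intro a b hab
      have h1 : ∀ k ∈ P.C (g a), P.F (g a) k (c b) = 0 := by
        have := hc1 b
        rwa [← hab] at this
      have h2 := P.apex_unique (hg2 a) (hc1 a) h1
      have h3 := hc2 a
      have h4 := hc2 b
      rw [h2] at h3
      have h5 : ((a : ℕ) : ℝ) < ((b : ℕ) : ℝ) + 1 := lt_of_lt_of_le h3.1 h4.2
      have h6 : ((b : ℕ) : ℝ) < ((a : ℕ) : ℝ) + 1 := lt_of_lt_of_le h4.1 h3.2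
      have h7 : (a : ℕ) < (b : ℕ) + 1 := by exact_mod_cast h5
      have h8 : (b : ℕ) < (a : ℕ) + 1 := by exact_mod_cast h6
      exact Fin.ext (by omega)

/-- one step between inner members -/
theorem inner_step (P : PD ι) (hcov : ∀ y : ℂ, ‖y‖ ≤ 5 → ∃ j, ∀ k ∈ P.C j, P.F j k y ≤ 1 / 2000)
    {R : ℝ} (hR0 : 0 ≤ R) (hR4 : R ≤ 4) (hgap : Gap P R) {j : ι} {d : ℂ} (hJ : P.InJ j)
    (hin : Inner P R j) (hd : Exit P j d) :
    ∃ j' d' s, P.InJ j' ∧ Inner P R j' ∧ Exit P j' d' ∧ (s = (1 : ℝ) ∨ s = -1) ∧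
      ‖d' - (s : ℂ) * (ω * d)‖ ≤ 218 / 10000 := by
  obtain ⟨k, ν, L⟩ := inner_line P hR0 hR4 hJ hin hd
  obtain ⟨j1, k1, d1, ν1, y1, H1⟩ := flush P hcov R hR0 hR4 j hJ k L.mem d L.dn ν L.νlo L.νhi
    L.hn R (by linarith) L.hβ L.E2
  have hω := ω_norm
  have hdd1 := H1.dd
  by_cases hin1 : Inner P R j1
  · obtain ⟨d'', hE, hcl⟩ := next_inner P hR0 hR4 H1 hin1
    refine ⟨j1, d'', 1, H1.inJ, hin1, hE, Or.inl rfl, ?_⟩
    have e : d'' - ((1 : ℝ) : ℂ) * (ω * d) = (d'' - ω * d1) + ω * (d1 - d) := by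
      push_cast; ring
    rw [e]
    refine (norm_add_le _ _).trans ?_
    rw [norm_mul, hω]
    linarith
  · have O1 := next_outer P hR0 hR4 hgap L.dn H1 hin1
    obtain ⟨j2, k2, d2, ν2, y2, H2⟩ := flush P hcov R hR0 hR4 j1 O1.inJ k1 O1.mem (-d1) O1.en
      ν1 (by linarith [O1.νlo]) O1.νhi O1.hn (R + 11 / 200) (by linarith) O1.hβ
      (fun y h1 _ _ h4 κ hκ hne => O1.clear κ hκ hne y h4 h1)
    have hin2 := no_two_outer P hR0 hR4 hgap O1 (by linarith) H2
    obtain ⟨d'', hE, hcl⟩ := next_inner P hR0 hR4 H2 hin2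
    have hdd2 := H2.dd
    refine ⟨j2, d'', -1, H2.inJ, hin2, hE, Or.inr rfl, ?_⟩
    have e : d'' - ((-1 : ℝ) : ℂ) * (ω * d) =
        (d'' - ω * d2) + ω * (d2 - -d1) + -(ω * (d1 - d)) := by
      push_cast; ring
    rw [e]
    refine (norm_add_le _ _).trans ?_
    refine (add_le_add_left (norm_add_le _ _) _).trans ?_
    rw [norm_neg, norm_mul, norm_mul, hω]
    linarith

theorem ω_re_im : ω.re = 1 / 3 ∧ ω.im = 2 * Real.sqrt 2 / 3 := ⟨rfl, rfl⟩

theorem ω_pow_re (m : ℕ) (h1 : 1 ≤ m) (h5 : m ≤ 5) : |(ω ^ m).re| ≤ 241 / 243 := by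
  have hs : Real.sqrt 2 * Real.sqrt 2 = 2 := Real.mul_self_sqrt (by norm_num)
  obtain ⟨hre, him⟩ := ω_re_im
  have r2 : (ω ^ 2).re = -7 / 9 ∧ (ω ^ 2).im = 4 * Real.sqrt 2 / 9 := by
    rw [pow_two, mul_re, mul_im, hre, him]
    constructor
    · linear_combination (-4 / 9) * hs
    · ring
  have r3 : (ω ^ 3).re = -23 / 27 ∧ (ω ^ 3).im = -10 * Real.sqrt 2 / 27 := by
    rw [pow_succ, mul_re, mul_im, r2.1, r2.2, hre, him]
    constructor
    · linear_combination (-8 / 27) * hs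
    · ring
  have r4 : (ω ^ 4).re = 17 / 81 ∧ (ω ^ 4).im = -56 * Real.sqrt 2 / 81 := by
    rw [pow_succ, mul_re, mul_im, r3.1, r3.2, hre, him]
    constructor
    · linear_combination (20 / 81) * hs
    · ring
  have r5 : (ω ^ 5).re = 241 / 243 := by
    rw [pow_succ, mul_re, r4.1, r4.2, hre, him]
    linear_combination (112 / 243) * hs
  interval_cases m
  · rw [pow_one, hre, abs_le]; constructor <;> norm_num
  · rw [r2.1, abs_le]; constructor <;> norm_num
  · rw [r3.1, abs_le]; constructor <;> norm_num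
  · rw [r4.1, abs_le]; constructor <;> norm_num
  · rw [r5, abs_le]; constructor <;> norm_num

theorem ω_far (m : ℕ) (h1 : 1 ≤ m) (h5 : m ≤ 5) (s : ℝ) (hs : s = 1 ∨ s = -1) (d : ℂ)
    (hd : ‖d‖ = 1) : 109 / 1000 < ‖d - (s : ℂ) * (ω ^ m * d)‖ := by
  have e : d - (s : ℂ) * (ω ^ m * d) = (1 - (s : ℂ) * ω ^ m) * d := by ring
  rw [e, norm_mul, hd, mul_one]
  have hn : ‖ω ^ m‖ = 1 := by rw [norm_pow, ω_norm, one_pow]
  have h2 : ‖1 - (s : ℂ) * ω ^ m‖ ^ 2 = 2 - 2 * s * (ω ^ m).re := by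
    have h3 : (ω ^ m).re * (ω ^ m).re + (ω ^ m).im * (ω ^ m).im = 1 := by
      have := norm_sq_ip (ω ^ m)
      rw [hn] at this
      unfold ip at this
      linarith
    have hs2 : s * s = 1 := by rcases hs with h | h <;> rw [h] <;> norm_num
    rw [norm_sq_ip]
    simp only [ip, sub_re, sub_im, one_re, one_im, re_ofReal_mul, im_ofReal_mul]
    linear_combination s ^ 2 * h3 + hs2
  have h4 := abs_le.1 (ω_pow_re m h1 h5)
  have h5 : s * (ω ^ m).re ≤ 241 / 243 := by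
    rcases hs with h | h <;> rw [h]
    · linarith [h4.2]
    · linarith [h4.1]
  by_contra hcon
  push Not at hcon
  have := norm_nonneg (1 - (s : ℂ) * ω ^ m)
  nlinarith

/-- the planar theorem: the members do not cover the disc of radius `5`, with a margin -/
theorem planar_hole (P : PD ι) :
    ∃ y : ℂ, ‖y‖ ≤ 5 ∧ ∀ j, ∃ k ∈ P.C j, 1 / 2000 < P.F j k y := by
  by_contra hcon
  have hcov : ∀ y : ℂ, ‖y‖ ≤ 5 → ∃ j, ∀ k ∈ P.C j, P.F j k y ≤ 1 / 2000 := by
    intro y hy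
    by_contra hc
    push Not at hc
    exact hcon ⟨y, hy, hc⟩
  obtain ⟨R, hR0, hR4, hgap⟩ := P.exists_gap
  let St := {q : ι × ℂ // P.InJ q.1 ∧ Inner P R q.1 ∧ Exit P q.1 q.2}
  have step : ∀ q : St, ∃ q' : St, ∃ s : ℝ, (s = 1 ∨ s = -1) ∧
      ‖q'.1.2 - (s : ℂ) * (ω * q.1.2)‖ ≤ 218 / 10000 := by
    rintro ⟨⟨j, d⟩, hJ, hin, hE⟩
    obtain ⟨j', d', s, h1, h2, h3, h4, h5⟩ := inner_step P hcov hR0 hR4 hgap hJ hin hE
    exact ⟨⟨(j', d'), h1, h2, h3⟩, s, h4, h5⟩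
  choose nx s hs hnx using step
  obtain ⟨d0, hd0⟩ := P.exists_exit P.oc
  let q0 : St := ⟨(P.o, d0), P.inJ_o, P.inner_o hR0, hd0⟩
  let q : ℕ → St := fun n => nx^[n] q0
  have hq : ∀ n, q (n + 1) = nx (q n) := fun n => Function.iterate_succ_apply' nx n q0
  have chain : ∀ p m : ℕ, ∃ t : ℝ, (t = 1 ∨ t = -1) ∧
      ‖(q (p + m)).1.2 - (t : ℂ) * (ω ^ m * (q p).1.2)‖ ≤ m * (218 / 10000) := by
    intro p m
    induction m with
    | zero => exact ⟨1, Or.inl rfl, by simp⟩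
    | succ m ih =>
      obtain ⟨t, ht, hm⟩ := ih
      refine ⟨s (q (p + m)) * t, ?_, ?_⟩
      · rcases hs (q (p + m)) with h | h <;> rcases ht with h' | h' <;> rw [h, h'] <;> norm_num
      · have h1 := hnx (q (p + m))
        rw [← hq (p + m)] at h1
        have e : (q (p + (m + 1))).1.2 - ((s (q (p + m)) * t : ℝ) : ℂ) *
            (ω ^ (m + 1) * (q p).1.2) =
            ((q (p + m + 1)).1.2 - ((s (q (p + m)) : ℝ) : ℂ) * (ω * (q (p + m)).1.2)) +
            ((s (q (p + m)) : ℝ) : ℂ) * (ω *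
              ((q (p + m)).1.2 - (t : ℂ) * (ω ^ m * (q p).1.2))) := by
          rw [← add_assoc]
          push_cast; ring
        rw [e]
        refine (norm_add_le _ _).trans ?_
        rw [norm_mul, norm_mul, ω_norm, norm_real, one_mul]
        have h2 : ‖s (q (p + m))‖ = 1 := by
          rcases hs (q (p + m)) with h | h <;> rw [h] <;> simp
        rw [h2]
        push_cast
        linarith
  have hninj := P.count (fun i : Fin 6 => (q i).1.1) (fun i => (q i).2.1)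
  obtain ⟨a, c, hac, heq⟩ : ∃ a c : Fin 6, a < c ∧ (q a).1.1 = (q c).1.1 := by
    rw [Function.not_injective_iff] at hninj
    obtain ⟨a, c, h1, h2⟩ := hninj
    rcases lt_or_gt_of_ne h2 with h3 | h3
    · exact ⟨a, c, h3, h1⟩
    · exact ⟨c, a, h3, h1.symm⟩
  have hdd : (q a).1.2 = (q c).1.2 := by
    have h1 := (q a).2.2.2
    have h2 := (q c).2.2.2
    rw [← heq] at h2
    exact P.exit_unique h1 h2
  have hac' : (a : ℕ) < (c : ℕ) := hac
  have hc6 := c.2
  obtain ⟨t, ht, hm⟩ := chain a ((c : ℕ) - (a : ℕ))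
  have e : (a : ℕ) + ((c : ℕ) - (a : ℕ)) = (c : ℕ) := by omega
  rw [e, ← hdd] at hm
  have hfar := ω_far ((c : ℕ) - (a : ℕ)) (by omega) (by omega) t ht (q a).1.2 (q a).2.2.2.1
  have hle : (((c : ℕ) - (a : ℕ) : ℕ) : ℝ) ≤ 5 := by
    exact_mod_cast (by omega : (c : ℕ) - (a : ℕ) ≤ 5)
  have := lt_of_lt_of_le hfar hm
  nlinarith

end Pool.Agent.H771
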