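import Pool.Agent.H771.Flush

/-!
# The next boundary line: inner and outer members
-/

namespace Pool.Agent.H771

open Complex

variable {ι : Type*}

/-- two constraints with a common zero in the disc of radius `R` -/
def Inner (P : PD ι) (R : ℝ) (j : ι) : Prop :=
  (P.C j).card = 2 ∧ ∃ c : ℂ, ‖c‖ ≤ R ∧ ∀ k ∈ P.C j, P.F j k c = 0

/-- `d` is the direction of the left boundary ray of the wedge `j` -/
def Exit (P : PD ι) (j : ι) (d : ℂ) : Prop :=
  ‖d‖ = 1 ∧ ∃ k ∈ P.C j, P.n j k = ((‖P.n j k‖ : ℝ) : ℂ) * (I * d) ∧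
    ∀ κ ∈ P.C j, κ ≠ k → ip (P.n j κ) d < 0

/-- no apex in the annulus between the radii `R` and `R + 1` -/
def Gap (P : PD ι) (R : ℝ) : Prop :=
  ∀ j, P.InJ j → (P.C j).card = 2 → ∀ c : ℂ, (∀ k ∈ P.C j, P.F j k c = 0) →
    ¬ (R < ‖c‖ ∧ ‖c‖ ≤ R + 1)

theorem PD.two (P : PD ι) {j : ι} (h2 : (P.C j).card = 2) {k : Fin 4} (hk : k ∈ P.C j) :
    ∃ κ ∈ P.C j, κ ≠ k ∧ ∀ l ∈ P.C j, l = k ∨ l = κ := by
  obtain ⟨a, b, hab, hC⟩ := Finset.card_eq_two.1 h2
  rw [hC] at hk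
  rw [hC]
  simp only [Finset.mem_insert, Finset.mem_singleton] at hk ⊢
  rcases hk with hk | hk
  · exact ⟨b, Or.inr rfl, by rw [hk]; exact hab.symm, by rw [hk]; exact fun l hl => hl⟩
  · exact ⟨a, Or.inl rfl, by rw [hk]; exact hab, by rw [hk]; exact fun l hl => hl.symm⟩

theorem PD.card_two (P : PD ι) {j : ι} {k κ : Fin 4} (hk : k ∈ P.C j) (hκ : κ ∈ P.C j)
    (h : κ ≠ k) : (P.C j).card = 2 := by
  have h1 := P.C2 j
  have h2 : ({k, κ} : Finset (Fin 4)) ⊆ P.C j := by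
    intro l hl
    simp only [Finset.mem_insert, Finset.mem_singleton] at hl
    rcases hl with hl | hl <;> rw [hl] <;> assumption
  have h3 := Finset.card_le_card h2
  rw [Finset.card_pair h.symm] at h3
  omega

/-- beyond the apex -/
theorem inner_side {R Xy Yy Xc Yc Ny Nc : ℝ} (hR0 : 0 ≤ R) (hR4 : R ≤ 4)
    (hy : Ny ^ 2 = Xy ^ 2 + Yy ^ 2) (hc : Nc ^ 2 = Xc ^ 2 + Yc ^ 2) (hNy0 : 0 ≤ Ny)
    (hNc0 : 0 ≤ Nc) (h1 : R + 9 / 100 ≤ Ny) (h2 : Ny ≤ R + 91 / 100) (h3 : Nc ≤ R)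
    (hX : 0 < Xy) (hY : |Yy - Yc| ≤ 1 / 400) : 1 / 200 ≤ Xy - Xc := by
  have a1 : |Yy| ≤ R + 91 / 100 := by
    rw [← abs_of_nonneg (by linarith : (0 : ℝ) ≤ R + 91 / 100)]
    apply sq_le_sq.1
    nlinarith [sq_nonneg Xy]
  have a2 : |Yc| ≤ R := by
    rw [← abs_of_nonneg hR0]
    apply sq_le_sq.1
    nlinarith [sq_nonneg Xc]
  have a3 : |Xy| ≤ R + 91 / 100 := by
    rw [← abs_of_nonneg (by linarith : (0 : ℝ) ≤ R + 91 / 100)]
    apply sq_le_sq.1
    nlinarith [sq_nonneg Yy]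
  have a4 : |Xc| ≤ R := by
    rw [← abs_of_nonneg hR0]
    apply sq_le_sq.1
    nlinarith [sq_nonneg Yc]
  have b1 : |(Yy - Yc) * (Yy + Yc)| ≤ 1 / 400 * (2 * R + 91 / 100) := by
    rw [abs_mul]
    have := abs_add_le Yy Yc
    exact mul_le_mul hY (by linarith) (abs_nonneg _) (by norm_num)
  have b2 : 81 / 10000 + 18 / 100 * R ≤ Ny ^ 2 - Nc ^ 2 := by nlinarith
  have b3 : Ny ^ 2 - Nc ^ 2 = (Xy - Xc) * (Xy + Xc) + (Yy - Yc) * (Yy + Yc) := by
    rw [hy, hc]; ring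
  have b4 := (abs_le.1 b1).2
  have b5 : 81 / 10000 + 18 / 100 * R - 1 / 400 * (2 * R + 91 / 100) ≤
      (Xy - Xc) * (Xy + Xc) := by linarith
  have a5 := (abs_le.1 a3).2
  have a6 := (abs_le.1 a4).2
  have a7 := (abs_le.1 a4).1
  by_contra hcon
  push Not at hcon
  rcases le_total (Xy + Xc) 0 with h | h
  · have : 0 ≤ Xy - Xc := by linarith
    have := mul_nonneg this (by linarith : 0 ≤ -(Xy + Xc))
    nlinarith
  · have h5 : (Xy - Xc) * (Xy + Xc) ≤ 1 / 200 * (Xy + Xc) :=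
      mul_le_mul_of_nonneg_right hcon.le h
    nlinarith

/-- the offset of a constraint with a zero in a disc -/
theorem PD.beta_of_zero (P : PD ι) {j : ι} {k : Fin 4} (hk : k ∈ P.C j) {c : ℂ} {r : ℝ}
    (hc : ‖c‖ ≤ r) (h : P.F j k c = 0) : -r ≤ P.β j k := by
  unfold PD.F at h
  have h1 := ip_le (P.n j k) c
  have h2 := P.n1 j k hk
  have h3 := norm_nonneg c
  nlinarith

theorem PD.norm_of_beta (P : PD ι) {j : ι} {k : Fin 4} (hk : k ∈ P.C j)
    (h : -5 ≤ P.β j k) : 9998 / 10000 ≤ ‖P.n j k‖ := by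
  have h1 := P.n2 j k hk
  have h2 := P.βhi j k hk
  have h3 := norm_nonneg (P.n j k)
  have h4 : ((6 - P.β j k) / 600) ^ 2 ≤ (11 / 600) ^ 2 :=
    pow_le_pow_left₀ (by linarith) (by linarith) 2
  by_contra hc
  push Not at hc
  nlinarith

/-- components of the other normal, for a wedge with near apex -/
theorem other_components {a b ε N : ℝ} (hN : N ^ 2 = a ^ 2 + b ^ 2) (hN2 : 99 / 100 - 3 / 1000 ≤ N ^ 2)
    (hb : |b| ≤ 1 / 3 + ε) (hε : ε ≤ 3 / 1000) (hε0 : 0 ≤ ε) : 93 / 100 ≤ |a| := by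
  have h1 : b ^ 2 ≤ (1 / 3 + ε) ^ 2 := by
    rw [← sq_abs b]; exact pow_le_pow_left₀ (abs_nonneg b) hb 2
  have h2 : (93 / 100) ^ 2 ≤ |a| ^ 2 := by
    rw [sq_abs]; nlinarith
  exact (pow_le_pow_iff_left₀ (by norm_num) (abs_nonneg _) two_ne_zero).1 h2

/-- a boundary line of a wedge in the left position -/
structure LineSt (P : PD ι) (R : ℝ) (j : ι) (k : Fin 4) (d : ℂ) (ν b : ℝ) : Prop where
  inJ : P.InJ j
  mem : k ∈ P.C j
  dn : ‖d‖ = 1
  νlo : 999 / 1000 ≤ ν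
  νhi : ν ≤ 1
  hn : P.n j k = (ν : ℂ) * (I * d)
  hβ : |P.β j k| ≤ b * ν
  E2 : ∀ y, |P.F j k y| ≤ 1 / 500 → 0 < ip y d → R + 9 / 100 ≤ ‖y‖ → ‖y‖ ≤ R + 91 / 100 →
      ∀ k' ∈ P.C j, k' ≠ k → P.F j k' y < 0

theorem inner_line (P : PD ι) {R : ℝ} (hR0 : 0 ≤ R) (hR4 : R ≤ 4) {j : ι} (hj : P.InJ j)
    (hin : Inner P R j) {d : ℂ} (hd : Exit P j d) :
    ∃ k ν, LineSt P R j k d ν R := by
  obtain ⟨hcard, c, hc, hF⟩ := hin
  obtain ⟨hdn, k, hk, hn, hneg⟩ := hd
  have hβk := P.beta_of_zero hk (hc.trans hR4) (hF k hk)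
  have hνk := P.norm_of_beta hk (by linarith)
  have hν1 := P.n1 j k hk
  refine ⟨k, ‖P.n j k‖, ⟨hj, hk, hdn, by linarith, hν1, hn, ?_, ?_⟩⟩
  · have h1 : P.β j k = -(‖P.n j k‖ * ip (I * d) c) := by
      have := hF k hk
      unfold PD.F at this
      rw [hn, ip_smul_left] at this
      linarith
    rw [h1, abs_neg, abs_mul, abs_of_nonneg (norm_nonneg _)]
    have h2 := abs_ip_le (I * d) c
    rw [norm_mul, norm_I, hdn, one_mul, one_mul] at h2
    have h3 := norm_nonneg (P.n j k)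
    have h4 := mul_le_mul_of_nonneg_left (h2.trans hc) h3
    linarith
  · intro y hy1 hy2 hy3 hy4 κ hκ hne
    have hβκ := P.beta_of_zero hκ (hc.trans hR4) (hF κ hκ)
    have hνκ := P.norm_of_beta hκ (by linarith)
    have hνκ1 := P.n1 j κ hκ
    set ν := ‖P.n j k‖ with hν
    have hν0 : 0 < ν := by linarith
    -- coordinates of `y - c`
    have hL : ν * ip (y - c) (I * d) = P.F j k y := by
      have h1 := hF k hk
      unfold PD.F at h1 ⊢
      rw [hn, ip_smul_left] at h1 ⊢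
      rw [ip_sub_left, ip_comm y, ip_comm c]
      linarith
    have hL2 : |ip (y - c) (I * d)| ≤ 1 / 400 := by
      have h1 : |ν * ip (y - c) (I * d)| ≤ 1 / 500 := by rw [hL]; exact hy1
      rw [abs_mul, abs_of_pos hν0] at h1
      have := abs_nonneg (ip (y - c) (I * d))
      nlinarith
    have hα := inner_side (Xy := ip y d) (Yy := ip y (I * d)) (Xc := ip c d)
      (Yc := ip c (I * d)) hR0 hR4 (norm_sq_expand y d hdn) (norm_sq_expand c d hdn)
      (norm_nonneg _) (norm_nonneg _) hy3 hy4 hc hy2 (by rw [← ip_sub_left]; exact hL2)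
    rw [← ip_sub_left] at hα
    -- components of the other normal
    have hab := norm_sq_expand (P.n j κ) d hdn
    have hbval : ν * ip (P.n j κ) (I * d) = ip (P.n j k) (P.n j κ) := by
      rw [hn, ip_smul_left, ip_comm (I * d)]
    have hnn := P.nn j k hk κ hκ (fun e => hne e.symm)
    have hεε : ((6 - P.β j k) / 600) * ((6 - P.β j κ) / 600) ≤ 1 / 3600 := by
      have h1 : (6 - P.β j k) / 600 ≤ 1 / 60 := by linarith
      have h2 : (6 - P.β j κ) / 600 ≤ 1 / 60 := by linarith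
      have h3 : 0 ≤ (6 - P.β j k) / 600 := by linarith [P.βhi j k hk]
      have h4 : 0 ≤ (6 - P.β j κ) / 600 := by linarith [P.βhi j κ hκ]
      nlinarith
    have hnn2 := abs_le.1 (hnn.trans hεε)
    rw [← hbval] at hnn2
    have hb : |ip (P.n j κ) (I * d)| ≤ 1 / 3 + 1 / 1000 := by
      rw [abs_le]
      constructor
      · by_contra hcon
        push Not at hcon
        nlinarith [hnn2.1]
      · by_contra hcon
        push Not at hcon
        nlinarith [hnn2.2]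
    have hbneg : ip (P.n j κ) (I * d) < 0 := by
      by_contra hcon
      push Not at hcon
      nlinarith [hnn2.2]
    have ha := other_components hab (by nlinarith) hb (by norm_num) (by norm_num)
    have hneg' := hneg κ hκ hne
    rw [abs_of_neg hneg'] at ha
    have hval : P.F j κ y = ip (P.n j κ) d * ip (y - c) d +
        ip (P.n j κ) (I * d) * ip (y - c) (I * d) := by
      rw [← ip_expand (P.n j κ) (y - c) d hdn]
      have h1 := hF κ hκ
      unfold PD.F at h1 ⊢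
      rw [ip_sub_right]
      linarith
    rw [hval]
    have e1 : ip (P.n j κ) d * ip (y - c) d ≤ -(93 / 100) * (1 / 200) := by
      nlinarith
    have e2 : |ip (P.n j κ) (I * d) * ip (y - c) (I * d)| ≤ (1 / 3 + 1 / 1000) * (1 / 400) := by
      rw [abs_mul]
      exact mul_le_mul hb hL2 (abs_nonneg _) (by norm_num)
    have e3 := (abs_le.1 e2).2
    nlinarith

/-- the rotation by the dihedral angle -/
noncomputable def ω : ℂ := ⟨1 / 3, 2 * Real.sqrt 2 / 3⟩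

theorem ω_norm : ‖ω‖ = 1 := by
  have h1 : ‖ω‖ ^ 2 = 1 := by
    rw [norm_sq_ip]
    have : Real.sqrt 2 ^ 2 = 2 := Real.sq_sqrt (by norm_num)
    simp only [ip, ω]
    nlinarith
  have h2 := norm_nonneg ω
  nlinarith

theorem ip_ω_self (d : ℂ) (hd : ‖d‖ = 1) : ip (ω * d) d = 1 / 3 := by
  have h := ip_self_unit d hd
  simp only [ip, ω, mul_re, mul_im] at h ⊢
  linear_combination (1 / 3) * h

theorem ip_ω_I (d : ℂ) (hd : ‖d‖ = 1) : ip (ω * d) (I * d) = 2 * Real.sqrt 2 / 3 := by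
  have h := ip_self_unit d hd
  simp only [ip, ω, mul_re, mul_im, I_re, I_im] at h ⊢
  linear_combination (2 * Real.sqrt 2 / 3) * h

theorem near_ω {x y : ℝ} (h : x ^ 2 + y ^ 2 = 1) (hy : 0 < y) (hx : |x - 1 / 3| ≤ 5 / 10000) :
    (x - 1 / 3) ^ 2 + (y - 2 * Real.sqrt 2 / 3) ^ 2 ≤ (6 / 10000) ^ 2 := by
  have hs : Real.sqrt 2 ^ 2 = 2 := Real.sq_sqrt (by norm_num)
  have hs0 : 0 ≤ Real.sqrt 2 := Real.sqrt_nonneg 2
  have hs1 : 141 / 100 ≤ Real.sqrt 2 := by
    rw [show (141 / 100 : ℝ) = Real.sqrt ((141 / 100) ^ 2) from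
      (Real.sqrt_sq (by norm_num)).symm]
    exact Real.sqrt_le_sqrt (by norm_num)
  obtain ⟨h1, h2⟩ := abs_le.1 hx
  have hy1 : 93 / 100 ≤ y := by
    by_contra hc
    push Not at hc
    nlinarith
  have hprod : (y - 2 * Real.sqrt 2 / 3) * (y + 2 * Real.sqrt 2 / 3) =
      -(x - 1 / 3) * (x + 1 / 3) := by nlinarith
  have hsum : 18 / 10 ≤ y + 2 * Real.sqrt 2 / 3 := by linarith
  have h3 : |y - 2 * Real.sqrt 2 / 3| * (18 / 10) ≤ 5 / 10000 * (67 / 100) := by
    have e1 : |(y - 2 * Real.sqrt 2 / 3) * (y + 2 * Real.sqrt 2 / 3)| =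
        |x - 1 / 3| * |x + 1 / 3| := by
      rw [hprod, neg_mul, abs_neg, abs_mul]
    rw [abs_mul, abs_of_pos (by linarith : 0 < y + 2 * Real.sqrt 2 / 3)] at e1
    have e2 : |x + 1 / 3| ≤ 67 / 100 := by rw [abs_le]; constructor <;> linarith
    have e3 : |x - 1 / 3| * |x + 1 / 3| ≤ 5 / 10000 * (67 / 100) :=
      mul_le_mul hx e2 (abs_nonneg _) (by norm_num)
    have e4 := abs_nonneg (y - 2 * Real.sqrt 2 / 3)
    nlinarith
  have h4 : |y - 2 * Real.sqrt 2 / 3| ≤ 2 / 10000 := by linarith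
  have h5 : (y - 2 * Real.sqrt 2 / 3) ^ 2 ≤ (2 / 10000) ^ 2 := by
    rw [← sq_abs]; exact pow_le_pow_left₀ (abs_nonneg _) h4 2
  have h6 : (x - 1 / 3) ^ 2 ≤ (5 / 10000) ^ 2 := by
    rw [← sq_abs]; exact pow_le_pow_left₀ (abs_nonneg _) hx 2
  nlinarith

theorem next_inner (P : PD ι) {R : ℝ} (hR0 : 0 ≤ R) (hR4 : R ≤ 4) {j j' : ι} {k k' : Fin 4}
    {d d' y : ℂ} {b ν' : ℝ} (H : FlushTo P R j k d b j' k' d' ν' y) (hin : Inner P R j') :
    ∃ d'', Exit P j' d'' ∧ ‖d'' - ω * d'‖ ≤ 6 / 10000 := by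
  obtain ⟨hcard, c, hc, hF⟩ := hin
  obtain ⟨κ, hκ, hne, hall⟩ := P.two hcard H.mem
  have hdn := H.dn
  have hνlo := H.νlo
  have hνhi := H.νhi
  have hν0 : 0 < ν' := by linarith
  have hβκ := P.beta_of_zero hκ (hc.trans hR4) (hF κ hκ)
  have hβk := P.beta_of_zero H.mem (hc.trans hR4) (hF k' H.mem)
  have hνκ := P.norm_of_beta hκ (by linarith)
  have hνκ1 := P.n1 j' κ hκ
  have hL : -ν' * ip (y - c) (I * d') = P.F j' k' y := by
    have h1 := hF k' H.mem
    unfold PD.F at h1 ⊢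
    rw [H.hn, ip_neg_left, ip_smul_left] at h1 ⊢
    rw [ip_sub_left, ip_comm y, ip_comm c]
    linarith
  have hL2 : |ip (y - c) (I * d')| ≤ 1 / 400 := by
    have h1 : |-ν' * ip (y - c) (I * d')| ≤ 33 / 20000 := by rw [hL]; exact H.F'
    rw [abs_mul, abs_neg, abs_of_pos hν0] at h1
    have := abs_nonneg (ip (y - c) (I * d'))
    nlinarith
  have hα := inner_side (Xy := ip y d') (Yy := ip y (I * d')) (Xc := ip c d')
    (Yc := ip c (I * d')) hR0 hR4 (norm_sq_expand y d' hdn) (norm_sq_expand c d' hdn)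
    (norm_nonneg _) (norm_nonneg _) (by linarith [H.ylo]) (by linarith [H.yhi]) hc H.yd
    (by rw [← ip_sub_left]; exact hL2)
  rw [← ip_sub_left] at hα
  set n := P.n j' κ with hn
  set N := ‖n‖ with hN
  have hN0 : 0 < N := by linarith
  set a := ip n d' with ha
  set b' := ip n (I * d') with hb'
  have hab : N ^ 2 = a ^ 2 + b' ^ 2 := norm_sq_expand n d' hdn
  have hbval : -(ν' * b') = ip (P.n j' k') n := by
    rw [H.hn, ip_neg_left, ip_smul_left, ip_comm (I * d')]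
  have hnn := P.nn j' k' H.mem κ hκ (fun e => hne e.symm)
  have hεε : ((6 - P.β j' k') / 600) * ((6 - P.β j' κ) / 600) ≤ 1 / 3600 := by
    have h1 : (6 - P.β j' k') / 600 ≤ 1 / 60 := by linarith
    have h2 : (6 - P.β j' κ) / 600 ≤ 1 / 60 := by linarith
    have h3 : 0 ≤ (6 - P.β j' k') / 600 := by linarith [P.βhi j' k' H.mem]
    have h4 : 0 ≤ (6 - P.β j' κ) / 600 := by linarith [P.βhi j' κ hκ]
    nlinarith
  have hnn2 := abs_le.1 (hnn.trans hεε)
  rw [← hn, ← hbval] at hnn2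
  obtain ⟨hnn3, hnn4⟩ := hnn2
  have hblo : 1 / 3 - 1 / 3600 ≤ b' := by
    by_contra hcon
    push Not at hcon
    nlinarith
  have hbhi : b' ≤ 33373 / 100000 := by
    by_contra hcon
    push Not at hcon
    nlinarith
  have hbabs : |b'| ≤ 1 / 3 + 1 / 1000 := by
    rw [abs_le]; constructor <;> linarith
  have hacomp := other_components hab (by nlinarith) hbabs (by norm_num) (by norm_num)
  have hval : P.F j' κ y = a * ip (y - c) d' + b' * ip (y - c) (I * d') := by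
    rw [ha, hb', ← ip_expand n (y - c) d' hdn]
    have h1 := hF κ hκ
    unfold PD.F at h1 ⊢
    rw [ip_sub_right]
    linarith
  have haneg : a < 0 := by
    by_contra hcon
    push Not at hcon
    rw [abs_of_nonneg hcon] at hacomp
    have h1 := H.Fle κ hκ
    rw [hval] at h1
    have e1 : 93 / 100 * (1 / 200) ≤ a * ip (y - c) d' :=
      mul_le_mul hacomp hα (by norm_num) hcon
    have e2 : |b' * ip (y - c) (I * d')| ≤ (1 / 3 + 1 / 1000) * (1 / 400) := by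
      rw [abs_mul]
      exact mul_le_mul hbabs hL2 (abs_nonneg _) (by norm_num)
    have e3 := (abs_le.1 e2).1
    nlinarith
  have hNc : (N : ℂ) ≠ 0 := by exact_mod_cast hN0.ne'
  set d'' : ℂ := ((N⁻¹ : ℝ) : ℂ) * (-(I * n)) with hd''
  have hd''n : ‖d''‖ = 1 := by
    rw [hd'', norm_mul, norm_real, norm_neg, norm_mul, norm_I, norm_inv, Real.norm_eq_abs,
      abs_of_pos hN0, one_mul, ← hN, inv_mul_cancel₀ hN0.ne']
  have hnd'' : n = (N : ℂ) * (I * d'') := by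
    rw [hd'']
    push_cast
    have hI : I * (((N : ℂ))⁻¹ * (-(I * n))) = ((N : ℂ)⁻¹ * n) := by
      linear_combination (-((N : ℂ)⁻¹ * n)) * Complex.I_mul_I
    rw [hI]
    field_simp
  have c1 : ip d'' d' = b' / N := by
    rw [hd'', ip_smul_left, ip_neg_left, ip_I_left, hb']
    field_simp
  have c2 : ip d'' (I * d') = -a / N := by
    rw [hd'', ip_smul_left, ip_neg_left, ip_I_I, ha]
    field_simp
  refine ⟨d'', ⟨hd''n, κ, hκ, hnd'', ?_⟩, ?_⟩
  · intro l hl hlk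
    rcases hall l hl with h | h
    · rw [h, H.hn, ip_neg_left, ip_smul_left]
      have e : ip (I * d') d'' = -a / N := by rw [ip_comm]; exact c2
      rw [e]
      have : 0 < -a / N := div_pos (by linarith) hN0
      nlinarith
    · exact absurd h hlk
  · have hcs : (b' / N) ^ 2 + (-a / N) ^ 2 = 1 := by
      rw [div_pow, div_pow, ← add_div, div_eq_one_iff_eq (by positivity)]
      nlinarith
    have hx : |b' / N - 1 / 3| ≤ 5 / 10000 := by
      rw [abs_le]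
      constructor
      · have : 1 / 3 - 1 / 3600 ≤ b' / N := by
          rw [le_div_iff₀ hN0]
          nlinarith
        linarith
      · have : b' / N ≤ 1 / 3 + 5 / 10000 := by
          rw [div_le_iff₀ hN0]
          nlinarith
        linarith
    have h3 := near_ω hcs (div_pos (by linarith) hN0) hx
    have h4 : ‖d'' - ω * d'‖ ^ 2 =
        (b' / N - 1 / 3) ^ 2 + (-a / N - 2 * Real.sqrt 2 / 3) ^ 2 := by
      rw [norm_sq_expand (d'' - ω * d') d' hdn, ip_sub_left, ip_sub_left, c1, c2,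
        ip_ω_self d' hdn, ip_ω_I d' hdn]
    rw [← h4] at h3
    exact (pow_le_pow_iff_left₀ (norm_nonneg _) (by norm_num) two_ne_zero).1 h3

end Pool.Agent.H771
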