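import Mathlib

/-!
# Packings of three dimensional Euclidean space by congruent copies, and their density
-/

namespace Pool.Agent.H771

open MeasureTheory Filter
open scoped ENNReal

/-- `P` is a packing of three dimensional Euclidean space by congruent copies of `K`: every member
is the image of `K` under an isometry, and different members have disjoint interiors -/
def IsPacking (K : Set (EuclideanSpace ℝ (Fin 3))) (P : Set (Set (EuclideanSpace ℝ (Fin 3)))) :
    Prop :=
  (∀ A ∈ P, ∃ φ : EuclideanSpace ℝ (Fin 3) ≃ᵢ EuclideanSpace ℝ (Fin 3), A = φ '' K) ∧
    P.PairwiseDisjoint interior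

/-- the density of a family of sets: the upper limit, for closed balls of growing radius around
the origin, of the total volume of the members inside the ball over the volume of the ball -/
noncomputable def density (P : Set (Set (EuclideanSpace ℝ (Fin 3)))) : ℝ≥0∞ :=
  limsup (fun r : ℝ =>
    (∑' A : P, volume ((A : Set (EuclideanSpace ℝ (Fin 3))) ∩ Metric.closedBall 0 r)) /
      volume (Metric.closedBall (0 : EuclideanSpace ℝ (Fin 3)) r)) atTop

/-- the packing density: the supremum of the densities of all packings by congruent copies -/
noncomputable def packingDensity (K : Set (EuclideanSpace ℝ (Fin 3))) : ℝ≥0∞ :=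
  ⨆ P ∈ {P : Set (Set (EuclideanSpace ℝ (Fin 3))) | IsPacking K P}, density P

end Pool.Agent.H771
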