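import Pool.Agent.H771.Hull
import Pool.Agent.H771.PackDefs

/-!
# Reduction of the packing density to tetrahedra of inradius one
-/

namespace Pool.Agent.H771

open MeasureTheory Filter
open scoped RealInnerProductSpace ENNReal Pointwise

theorem packingDensity_le {C : ℝ≥0∞}
    (hC : ∀ (ι : Type) [Countable ι] (F : Fam ι), limsup F.ratio atTop ≤ C)
    (v : Fin 4 → E3) {a : ℝ} (ha : 0 < a) (hv : ∀ i j, i ≠ j → dist (v i) (v j) = a) :
    packingDensity (convexHull ℝ (Set.range v)) ≤ C := by
  refine iSup₂_le fun P hP => ?_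
  obtain ⟨hcopy, hdisj⟩ := hP
  set c : ℝ := 2 * Real.sqrt 6 / a with hc
  have h6 : 0 < Real.sqrt 6 := Real.sqrt_pos.2 (by norm_num)
  have hc0 : 0 < c := by positivity
  choose! φ hφ using hcopy
  have hu : ∀ A : P, ∀ i j, i ≠ j →
      dist (c • φ A (v i)) (c • φ A (v j)) = 2 * Real.sqrt 6 := by
    intro A i j hij
    rw [dist_smul₀, (φ A).dist_eq, hv i j hij, Real.norm_eq_abs, abs_of_pos hc0, hc]
    field_simp
  set T : P → Tet := fun A => mkTet (fun i => c • φ A (v i)) (hu A) with hT
  have hS : ∀ A : P, (T A).S = c • (A : Set E3) := by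
    intro A
    rw [hT]
    simp only
    rw [mkTet_S, ← smul_hull c (fun i => φ A (v i)), ← iso_image_hull, ← hφ A A.2]
  have hint : ∀ A : P, interior (T A).S = c • interior (A : Set E3) := by
    intro A
    rw [hS, interior_smul₀ hc0.ne']
  let F : Fam P :=
    { T := T
      dis := by
        intro A B hAB y h1 h2
        have g1 := (T A).interior_sub h1
        have g2 := (T B).interior_sub h2
        rw [hint] at g1 g2
        obtain ⟨x1, hx1, hx1'⟩ := g1
        obtain ⟨x2, hx2, hx2'⟩ := g2
        have e : x1 = x2 := by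
          have : c • x1 = c • x2 := hx1'.trans hx2'.symm
          exact smul_right_injective E3 hc0.ne' this
        have hd := hdisj A.2 B.2 (fun e => hAB (Subtype.ext e))
        exact Set.disjoint_left.1 hd hx1 (e ▸ hx2) }
  have : Countable P := by
    have h1 : (Set.univ : Set P).PairwiseDisjoint fun A => interior (T A).S :=
      fun A _ B _ hAB => F.int_disj hAB
    have h2 := h1.countable_of_isOpen (fun A _ => isOpen_interior) (fun A _ =>
      ⟨(T A).g, (T A).ball_sub_interior (Metric.mem_ball_self one_pos)⟩)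
    exact Set.countable_univ_iff.1 h2
  have hF := hC P F
  have hvolc : ∀ s : Set E3, volume (c • s) = ENNReal.ofReal (c ^ 3) * volume s := by
    intro s
    rw [Measure.addHaar_smul, finrank_euclideanSpace_fin, abs_of_nonneg (by positivity)]
  have hball : ∀ r : ℝ, 0 < r → Metric.closedBall (0 : E3) (c * r) =
      c • Metric.closedBall (0 : E3) r := by
    intro r hr
    rw [smul_closedBall c 0 hr.le, smul_zero, Real.norm_eq_abs, abs_of_pos hc0]
  have hratio : ∀ r : ℝ, 0 < r → (∑' A : P, volume ((A : Set E3) ∩ Metric.closedBall 0 r)) /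
      volume (Metric.closedBall (0 : E3) r) = F.ratio (c * r) := by
    intro r hr
    unfold Fam.ratio
    have h1 : ∀ A : P, volume ((F.T A).S ∩ Metric.closedBall 0 (c * r)) =
        ENNReal.ofReal (c ^ 3) * volume ((A : Set E3) ∩ Metric.closedBall 0 r) := by
      intro A
      rw [← hvolc, Set.smul_set_inter₀ hc0.ne', ← hball r hr]
      congr 2
      exact hS A
    rw [tsum_congr h1, ENNReal.tsum_mul_left, hball r hr, hvolc]
    rw [ENNReal.mul_div_mul_left _ _ (by
      rw [Ne, ENNReal.ofReal_eq_zero, not_le]; positivity) ENNReal.ofReal_ne_top]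
  refine le_trans ?_ hF
  unfold density
  have hcongr : limsup (fun r : ℝ => (∑' A : P, volume ((A : Set E3) ∩ Metric.closedBall 0 r)) /
      volume (Metric.closedBall (0 : E3) r)) atTop = limsup (F.ratio ∘ fun r => c * r) atTop := by
    refine limsup_congr ?_
    filter_upwards [eventually_gt_atTop 0] with r hr
    exact hratio r hr
  rw [hcongr]
  exact limsup_le_limsup_of_le (f := map (fun r : ℝ => c * r) atTop)
    (tendsto_id.const_mul_atTop hc0)

end Pool.Agent.H771
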