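import Pool.Agent.H771.Mult
import Pool.Agent.H771.Trans

/-!
# The density bound
-/

namespace Pool.Agent.H771

open MeasureTheory Filter
open scoped RealInnerProductSpace ENNReal

/-- the six pairs of faces -/
def pairs : Finset (Fin 4 × Fin 4) := Finset.univ.filter fun p => p.1 < p.2

theorem pairs_card : pairs.card = 6 := by decide

theorem Tet.ZZ_eq (T : Tet) (w : ℝ) : T.ZZ w = ⋃ p ∈ pairs, T.Z w p.1 p.2 := by
  ext y
  simp only [Tet.ZZ, pairs, Set.mem_ofPred_eq, Set.mem_iUnion, Finset.mem_filter,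
    Finset.mem_univ, true_and, Prod.exists]
  constructor
  · rintro ⟨a, b, h1, h2⟩
    exact ⟨a, b, h1, h2⟩
  · rintro ⟨a, b, h1, h2⟩
    exact ⟨a, b, h1, h2⟩

theorem Tet.ZZ_meas (T : Tet) (w : ℝ) : MeasurableSet (T.ZZ w) := by
  rw [T.ZZ_eq]
  exact Finset.measurableSet_biUnion _ fun p _ => (T.isClosed_Z w p.1 p.2).measurableSet

theorem Tet.Z_disj (T : Tet) {w : ℝ} (hw : 0 < w) {p q : Fin 4 × Fin 4} (hp : p ∈ pairs)
    (hq : q ∈ pairs) (hpq : p ≠ q) : Disjoint (T.Z w p.1 p.2) (T.Z w q.1 q.2) := by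
  rw [Set.disjoint_left]
  rintro y ⟨h1, h2, h3⟩ ⟨h4, h5, h6⟩
  have hp' : p.1 < p.2 := (Finset.mem_filter.1 hp).2
  have hq' : q.1 < q.2 := (Finset.mem_filter.1 hq).2
  -- one of the faces of `p` is not a face of `q`
  have key : (p.1 ≠ q.1 ∧ p.1 ≠ q.2) ∨ (p.2 ≠ q.1 ∧ p.2 ≠ q.2) := by
    by_contra hc
    rw [not_or, not_and_or, not_and_or, not_not, not_not, not_not, not_not] at hc
    obtain ⟨ha, hb⟩ := hc
    apply hpq
    rcases ha with ha | ha <;> rcases hb with hb | hb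
    · rw [ha, hb] at hp'; exact absurd hp' (lt_irrefl _)
    · exact Prod.ext ha hb
    · rw [ha, hb] at hp'; exact absurd (hp'.trans hq') (lt_irrefl _)
    · rw [ha, hb] at hp'; exact absurd hp' (lt_irrefl _)
  rcases key with ⟨ha, hb⟩ | ⟨ha, hb⟩
  · have := h6 p.1 ha hb
    have := (abs_le.1 h1).1
    linarith
  · have := h6 p.2 ha hb
    have := (abs_le.1 h2).1
    linarith

theorem Tet.ZZ_ball (T : Tet) {w : ℝ} (hw : 0 < w) (hw1 : w ≤ 1 / 10000) :
    T.ZZ w ⊆ Metric.closedBall T.g 4 := by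
  rintro y ⟨a, b, -, h1, h2, h3⟩
  have hf : ∀ k, T.f k y ≤ 6 * w := by
    intro k
    by_cases ha : k = a
    · rw [ha]; exact (abs_le.1 h1).2
    · by_cases hb : k = b
      · rw [hb]; exact (abs_le.1 h2).2
      · have := h3 k ha hb
        linarith
  have hmem : T.g + (1 + 6 * w)⁻¹ • (y - T.g) ∈ T.S := by
    intro k
    have hk := hf k
    unfold Tet.f at hk ⊢
    rw [add_sub_cancel_left, inner_smul_right]
    have h4 : (1 + 6 * w)⁻¹ * ⟪T.ν k, y - T.g⟫ ≤ (1 + 6 * w)⁻¹ * (1 + 6 * w) :=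
      mul_le_mul_of_nonneg_left (by linarith) (by positivity)
    rw [inv_mul_cancel₀ (by positivity)] at h4
    linarith
  have h4 := T.norm_sub_g hmem
  rw [add_sub_cancel_left, norm_smul, norm_inv, Real.norm_eq_abs,
    abs_of_pos (by positivity), inv_mul_le_iff₀ (by positivity)] at h4
  rw [Metric.mem_closedBall, dist_eq_norm]
  linarith

theorem A0_eq : A0 = ENNReal.ofReal (Real.pi / 4000000) := by
  have hpi' : (NNReal.pi : ℝ≥0∞) = ENNReal.ofReal Real.pi := by
    rw [← NNReal.coe_real_pi, ENNReal.ofReal_coe_nnreal]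
  unfold A0
  rw [Complex.volume_ball, hpi', ← ENNReal.ofReal_pow (by norm_num),
    ← ENNReal.ofReal_mul (by norm_num)]
  congr 1
  ring

/-- the uncovered volume near the edges of a member -/
theorem Fam.volume_ZZ {ι : Type*} [Countable ι] (F : Fam ι) (o : ι) :
    ENNReal.ofReal (14826 / 10 ^ 18) ≤
      volume (F.U ∩ (F.T o).ZZ (439 / 10 ^ 7)) := by
  have hw : (0 : ℝ) < 439 / 10 ^ 7 := by norm_num
  have hw1 : (439 / 10 ^ 7 : ℝ) ≤ 1 / 10000 := by norm_num
  set w : ℝ := 439 / 10 ^ 7 with hwdef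
  have h6 : 489897 / 100000 ≤ 2 * Real.sqrt 6 := by
    have : 489897 / 200000 ≤ Real.sqrt 6 := by
      rw [Real.le_sqrt' (by norm_num)]
      norm_num
    linarith
  have hpi := Real.pi_gt_d6
  have hedge : ∀ p ∈ pairs, ENNReal.ofReal (24710 / 10 ^ 19) ≤
      volume (F.U ∩ (F.T o).Z w p.1 p.2) := by
    intro p hp
    obtain ⟨c, d, hd⟩ := exists_compl p.1 p.2 (Finset.mem_filter.1 hp).2
    have h1 := F.edge_volume o hd hw (by norm_num [hwdef]) 61
      (fun s hs => F.count_edge o hd hw.le hw1 s hs)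
    refine le_trans ?_ h1
    rw [A0_eq, ← ENNReal.ofReal_mul (by positivity), ← ENNReal.ofReal_mul (by
      rw [hwdef]; push_cast; linarith)]
    apply ENNReal.ofReal_le_ofReal
    have h2 : (16327 / 10000 : ℝ) ≤ 2 * Real.sqrt 6 - 2 * (600 * w) - (61 : ℕ) * (2 * (600 * w)) := by
      rw [hwdef]; push_cast; linarith
    have h3 : (19271 / 10 ^ 13 : ℝ) * (31415 / 10000 / 4000000) ≤ w ^ 2 * (Real.pi / 4000000) := by
      rw [hwdef]
      nlinarith
    calc (24710 / 10 ^ 19 : ℝ) ≤ 16327 / 10000 * ((19271 / 10 ^ 13) * (31415 / 10000 / 4000000)) := by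
          norm_num
      _ ≤ _ := mul_le_mul h2 h3 (by norm_num) (le_trans (by norm_num) h2)
  have hsum : ∑ p ∈ pairs, volume (F.U ∩ (F.T o).Z w p.1 p.2) =
      volume (F.U ∩ (F.T o).ZZ w) := by
    rw [Tet.ZZ_eq, Set.inter_iUnion₂, measure_biUnion_finset]
    · intro p hp q hq hpq
      exact ((F.T o).Z_disj hw hp hq hpq).mono Set.inter_subset_right Set.inter_subset_right
    · intro p _
      exact F.U_meas.inter ((F.T o).isClosed_Z w p.1 p.2).measurableSet
  rw [← hsum]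
  refine le_trans ?_ (Finset.sum_le_sum hedge)
  rw [Finset.sum_const, pairs_card, nsmul_eq_mul]
  have e : ((6 : ℕ) : ℝ≥0∞) = ENNReal.ofReal 6 := by norm_num
  rw [e, ← ENNReal.ofReal_mul (by norm_num)]
  apply ENNReal.ofReal_le_ofReal
  norm_num

theorem Fam.limsup_bound {ι : Type*} [Countable ι] (F : Fam ι) :
    limsup F.ratio atTop ≤ ENNReal.ofReal (1 - 213 / 10 ^ 18) := by
  have h := F.limsup_le (v0 := 14826 / 10 ^ 18) (by norm_num)
    (fun i => (F.T i).ZZ (439 / 10 ^ 7)) (fun i => (F.T i).ZZ_meas _)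
    (fun i => F.volume_ZZ i) (fun i => (F.T i).ZZ_ball (by norm_num) (by norm_num)) 5
    (fun P s hs => F.count_ZZ (by norm_num) P s hs)
  refine h.trans (ENNReal.ofReal_le_ofReal ?_)
  have h3 : Real.sqrt 3 ≤ 173206 / 100000 := by
    rw [Real.sqrt_le_left (by norm_num)]
    norm_num
  have h30 : 0 ≤ Real.sqrt 3 := Real.sqrt_nonneg 3
  rw [div_le_iff₀ (by positivity)]
  push_cast
  nlinarith

end Pool.Agent.H771
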