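import Pool.Agent.H771.Glob

/-!
# At most sixty-one other members come near an edge
-/

namespace Pool.Agent.H771

open MeasureTheory
open scoped RealInnerProductSpace ENNReal

/-- the diameter of the tetrahedron -/
theorem Tet.norm_sub_le (T : Tet) {x y : E3} (hx : x ∈ T.S) (hy : y ∈ T.S) :
    ‖x - y‖ ^ 2 ≤ 24 := by
  have h := T.sq_frame (x - y)
  have hx' : ∀ i, ⟪T.ν i, x - T.g⟫ ≤ 1 := fun i => by
    have := hx i
    unfold Tet.f at this
    linarith
  have hy' : ∀ i, ⟪T.ν i, y - T.g⟫ ≤ 1 := fun i => by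
    have := hy i
    unfold Tet.f at this
    linarith
  have hx2 : ∑ i, ⟪T.ν i, x - T.g⟫ = 0 := by rw [← sum_inner, T.sum_ν, inner_zero_left]
  have hy2 : ∑ i, ⟪T.ν i, y - T.g⟫ = 0 := by rw [← sum_inner, T.sum_ν, inner_zero_left]
  have e : ∀ i, ⟪T.ν i, x - y⟫ = ⟪T.ν i, x - T.g⟫ - ⟪T.ν i, y - T.g⟫ := by
    intro i
    rw [← inner_sub_right]
    congr 1
    abel
  simp only [e] at h
  have x0 := hx' 0
  have x1 := hx' 1
  have x2 := hx' 2
  have x3 := hx' 3
  have y0 := hy' 0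
  have y1 := hy' 1
  have y2 := hy' 2
  have y3 := hy' 3
  rw [Fin.sum_univ_four] at h hx2 hy2
  set a0 := ⟪T.ν 0, x - T.g⟫
  set a1 := ⟪T.ν 1, x - T.g⟫
  set a2 := ⟪T.ν 2, x - T.g⟫
  set a3 := ⟪T.ν 3, x - T.g⟫
  set b0 := ⟪T.ν 0, y - T.g⟫
  set b1 := ⟪T.ν 1, y - T.g⟫
  set b2 := ⟪T.ν 2, y - T.g⟫
  set b3 := ⟪T.ν 3, y - T.g⟫
  -- barycentric coordinates
  have hA : (1 - a0) ^ 2 + (1 - a1) ^ 2 + (1 - a2) ^ 2 + (1 - a3) ^ 2 ≤ 16 := by
    have p01 := mul_nonneg (sub_nonneg.2 x0) (sub_nonneg.2 x1)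
    have p02 := mul_nonneg (sub_nonneg.2 x0) (sub_nonneg.2 x2)
    have p03 := mul_nonneg (sub_nonneg.2 x0) (sub_nonneg.2 x3)
    have p12 := mul_nonneg (sub_nonneg.2 x1) (sub_nonneg.2 x2)
    have p13 := mul_nonneg (sub_nonneg.2 x1) (sub_nonneg.2 x3)
    have p23 := mul_nonneg (sub_nonneg.2 x2) (sub_nonneg.2 x3)
    have e : ((1 - a0) + (1 - a1) + (1 - a2) + (1 - a3)) ^ 2 = 16 := by
      rw [show (1 - a0) + (1 - a1) + (1 - a2) + (1 - a3) = 4 by linarith]; norm_num
    nlinarith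
  have hB : (1 - b0) ^ 2 + (1 - b1) ^ 2 + (1 - b2) ^ 2 + (1 - b3) ^ 2 ≤ 16 := by
    have p01 := mul_nonneg (sub_nonneg.2 y0) (sub_nonneg.2 y1)
    have p02 := mul_nonneg (sub_nonneg.2 y0) (sub_nonneg.2 y2)
    have p03 := mul_nonneg (sub_nonneg.2 y0) (sub_nonneg.2 y3)
    have p12 := mul_nonneg (sub_nonneg.2 y1) (sub_nonneg.2 y2)
    have p13 := mul_nonneg (sub_nonneg.2 y1) (sub_nonneg.2 y3)
    have p23 := mul_nonneg (sub_nonneg.2 y2) (sub_nonneg.2 y3)
    have e : ((1 - b0) + (1 - b1) + (1 - b2) + (1 - b3)) ^ 2 = 16 := by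
      rw [show (1 - b0) + (1 - b1) + (1 - b2) + (1 - b3) = 4 by linarith]; norm_num
    nlinarith
  have q0 := mul_nonneg (sub_nonneg.2 x0) (sub_nonneg.2 y0)
  have q1 := mul_nonneg (sub_nonneg.2 x1) (sub_nonneg.2 y1)
  have q2 := mul_nonneg (sub_nonneg.2 x2) (sub_nonneg.2 y2)
  have q3 := mul_nonneg (sub_nonneg.2 x3) (sub_nonneg.2 y3)
  nlinarith

theorem inner_hat_b0 (b : OrthonormalBasis (Fin 3) ℝ E3) (y : ℂ) : ⟪hat b y, b 0⟫ = (0 : ℝ) := by
  unfold hat
  have h1 : ⟪b 1, b 0⟫ = (0 : ℝ) := b.orthonormal.2 (by decide)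
  have h2 : ⟪b 2, b 0⟫ = (0 : ℝ) := b.orthonormal.2 (by decide)
  rw [inner_add_left, inner_smul_left, inner_smul_left, h1, h2]
  simp

theorem pr_hat (b : OrthonormalBasis (Fin 3) ℝ E3) (y : ℂ) : pr b (hat b y) = y := by
  unfold pr hat
  have h11 : ⟪b 1, b 1⟫ = (1 : ℝ) := by
    rw [real_inner_self_eq_norm_sq, b.orthonormal.1 1]; norm_num
  have h22 : ⟪b 2, b 2⟫ = (1 : ℝ) := by
    rw [real_inner_self_eq_norm_sq, b.orthonormal.1 2]; norm_num
  have h12 : ⟪b 1, b 2⟫ = (0 : ℝ) := b.orthonormal.2 (by decide)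
  have h21 : ⟪b 2, b 1⟫ = (0 : ℝ) := b.orthonormal.2 (by decide)
  rw [inner_add_left, inner_add_left, inner_smul_left, inner_smul_left, inner_smul_left,
    inner_smul_left, h11, h12, h21, h22]
  apply Complex.ext <;> simp

theorem pr_add (b : OrthonormalBasis (Fin 3) ℝ E3) (u v : E3) :
    pr b (u + v) = pr b u + pr b v := by
  unfold pr
  rw [inner_add_left, inner_add_left]
  apply Complex.ext <;> simp

theorem pr_b0 (b : OrthonormalBasis (Fin 3) ℝ E3) (s : ℝ) : pr b (s • b 0) = 0 := by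
  unfold pr
  have h1 : ⟪b 0, b 1⟫ = (0 : ℝ) := b.orthonormal.2 (by decide)
  have h2 : ⟪b 0, b 2⟫ = (0 : ℝ) := b.orthonormal.2 (by decide)
  rw [inner_smul_left, inner_smul_left, h1, h2]
  apply Complex.ext <;> simp

theorem pr_cont (b : OrthonormalBasis (Fin 3) ℝ E3) : Continuous (pr b) := by
  have h : pr b = fun v : E3 => ((⟪v, b 1⟫ : ℝ) : ℂ) + ((⟪v, b 2⟫ : ℝ) : ℂ) * Complex.I := by
    funext v
    apply Complex.ext <;> simp [pr]
  rw [h]
  have h1 : Continuous fun v : E3 => (⟪v, b 1⟫ : ℝ) := continuous_id.inner continuous_const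
  have h2 : Continuous fun v : E3 => (⟪v, b 2⟫ : ℝ) := continuous_id.inner continuous_const
  exact (Complex.continuous_ofReal.comp h1).add
    ((Complex.continuous_ofReal.comp h2).mul continuous_const)

/-- the cylinder -/
def Cyl (b : OrthonormalBasis (Fin 3) ℝ E3) (c : E3) (l r : ℝ) : Set E3 :=
  {p | |⟪p - c, b 0⟫| ≤ l ∧ ‖pr b (p - c)‖ ≤ r}

theorem Cyl_meas (b : OrthonormalBasis (Fin 3) ℝ E3) (c : E3) (l r : ℝ) :
    MeasurableSet (Cyl b c l r) := by
  have h1 : Continuous fun p : E3 => |(⟪p - c, b 0⟫ : ℝ)| :=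
    ((continuous_id.sub continuous_const).inner continuous_const).abs
  have h2 : Continuous fun p : E3 => ‖pr b (p - c)‖ :=
    ((pr_cont b).comp (continuous_id.sub continuous_const)).norm
  exact ((isClosed_le h1 continuous_const).inter (isClosed_le h2 continuous_const)).measurableSet

theorem X_sub (b : OrthonormalBasis (Fin 3) ℝ E3) (c : E3) (s : ℝ) (y : ℂ) :
    X b c (s, y) - c = s • b 0 + hat b y := by
  unfold X; abel

theorem X_height (b : OrthonormalBasis (Fin 3) ℝ E3) (c : E3) (s : ℝ) (y : ℂ) :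
    ⟪X b c (s, y) - c, b 0⟫ = s := by
  rw [X_sub, inner_add_left, inner_hat_b0, inner_smul_left, real_inner_self_eq_norm_sq,
    b.orthonormal.1 0]
  simp

theorem X_pr (b : OrthonormalBasis (Fin 3) ℝ E3) (c : E3) (s : ℝ) (y : ℂ) :
    pr b (X b c (s, y) - c) = y := by
  rw [X_sub, pr_add, pr_b0, pr_hat, zero_add]

theorem volume_Cyl (b : OrthonormalBasis (Fin 3) ℝ E3) (c : E3) {l r : ℝ} (hl : 0 ≤ l)
    (hr : 0 ≤ r) : volume (Cyl b c l r) = ENNReal.ofReal (2 * l * (Real.pi * r ^ 2)) := by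
  rw [volume_slices b c (Cyl_meas b c l r)]
  have h : ∀ s : ℝ, volume {y : ℂ | X b c (s, y) ∈ Cyl b c l r} =
      (Set.Icc (-l) l).indicator (fun _ => ENNReal.ofReal (Real.pi * r ^ 2)) s := by
    intro s
    have e : {y : ℂ | X b c (s, y) ∈ Cyl b c l r} = {y : ℂ | |s| ≤ l ∧ ‖y‖ ≤ r} := by
      ext y
      change (|⟪X b c (s, y) - c, b 0⟫| ≤ l ∧ ‖pr b (X b c (s, y) - c)‖ ≤ r) ↔ _
      rw [X_height, X_pr]
      rfl
    rw [e]
    by_cases hs : |s| ≤ l
    · have e2 : {y : ℂ | |s| ≤ l ∧ ‖y‖ ≤ r} = Metric.closedBall 0 r := by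
        ext y; simp [hs]
      have hmem : s ∈ Set.Icc (-l) l := abs_le.1 hs
      rw [e2, Set.indicator_of_mem hmem, Complex.volume_closedBall,
        mul_comm Real.pi, ENNReal.ofReal_mul (by positivity), ENNReal.ofReal_pow hr]
      congr 1
      rw [← NNReal.coe_real_pi, ENNReal.ofReal_coe_nnreal]
    · have e2 : {y : ℂ | |s| ≤ l ∧ ‖y‖ ≤ r} = ∅ := by
        ext y; simp [hs]
      have hmem : s ∉ Set.Icc (-l) l := fun h => hs (abs_le.2 h)
      rw [e2, Set.indicator_of_notMem hmem, measure_empty]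
  simp_rw [h]
  rw [lintegral_indicator measurableSet_Icc, setLIntegral_const, Real.volume_Icc,
    ← ENNReal.ofReal_mul (by positivity)]
  congr 1
  ring

/-- an open half ball -/
def Half (q v : E3) (r : ℝ) : Set E3 := {p | 0 < ⟪p - q, v⟫ ∧ ‖p - q‖ ≤ r}

theorem Half_meas (q v : E3) (r : ℝ) : MeasurableSet (Half q v r) := by
  have h1 : Continuous fun p : E3 => (⟪p - q, v⟫ : ℝ) :=
    (continuous_id.sub continuous_const).inner continuous_const
  have h2 : Continuous fun p : E3 => ‖p - q‖ := (continuous_id.sub continuous_const).norm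
  exact (isOpen_lt continuous_const h1).measurableSet.inter
    (isClosed_le h2 continuous_const).measurableSet

theorem volume_Half (q v : E3) (r : ℝ) :
    2 * volume (Half q v r) ≤ volume (Metric.closedBall q r) := by
  have h1 : volume (Half q (-v) r) = volume (Half q v r) := by
    have hmp : MeasurePreserving (fun p : E3 => (2 : ℝ) • q - p) volume volume :=
      Measure.measurePreserving_sub_left volume _
    rw [← hmp.measure_preimage (Half_meas q v r).nullMeasurableSet]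
    congr 1
    ext p
    have e : (2 : ℝ) • q - p - q = -(p - q) := by rw [two_smul]; abel
    change (0 < ⟪p - q, -v⟫ ∧ ‖p - q‖ ≤ r) ↔
      (0 < ⟪(2 : ℝ) • q - p - q, v⟫ ∧ ‖(2 : ℝ) • q - p - q‖ ≤ r)
    rw [e, inner_neg_left, inner_neg_right, norm_neg]
  have h2 : Disjoint (Half q v r) (Half q (-v) r) := by
    rw [Set.disjoint_left]
    rintro p ⟨h3, -⟩ ⟨h4, -⟩
    rw [inner_neg_right] at h4
    linarith
  calc 2 * volume (Half q v r) = volume (Half q v r) + volume (Half q (-v) r) := by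
        rw [h1, two_mul]
    _ = volume (Half q v r ∪ Half q (-v) r) := (measure_union h2 (Half_meas q (-v) r)).symm
    _ ≤ volume (Metric.closedBall q r) := by
        refine measure_mono (Set.union_subset ?_ ?_)
        · rintro p ⟨-, h⟩
          rw [Metric.mem_closedBall, dist_eq_norm]; exact h
        · rintro p ⟨-, h⟩
          rw [Metric.mem_closedBall, dist_eq_norm]; exact h

/-- the capsule around a segment -/
def Cap (b : OrthonormalBasis (Fin 3) ℝ E3) (c : E3) (l r : ℝ) : Set E3 :=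
  Cyl b c l r ∪ (Half (c + l • b 0) (b 0) r ∪ Half (c - l • b 0) (-b 0) r)

theorem Cap_meas (b : OrthonormalBasis (Fin 3) ℝ E3) (c : E3) (l r : ℝ) :
    MeasurableSet (Cap b c l r) :=
  (Cyl_meas b c l r).union ((Half_meas _ _ r).union (Half_meas _ _ r))

theorem volume_Cap (b : OrthonormalBasis (Fin 3) ℝ E3) (c : E3) {l r : ℝ} (hl : 0 ≤ l)
    (hr : 0 ≤ r) : volume (Cap b c l r) ≤
      ENNReal.ofReal (2 * l * (Real.pi * r ^ 2) + 4 / 3 * Real.pi * r ^ 3) := by
  have h1 := volume_Half (c + l • b 0) (b 0) r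
  have h2 := volume_Half (c - l • b 0) (-b 0) r
  have h3 : volume (Metric.closedBall (c - l • b 0) r) =
      volume (Metric.closedBall (c + l • b 0) r) := by
    rw [EuclideanSpace.volume_closedBall_fin_three, EuclideanSpace.volume_closedBall_fin_three]
  have h4 : volume (Metric.closedBall (c + l • b 0) r) =
      ENNReal.ofReal (4 / 3 * Real.pi * r ^ 3) := by
    rw [EuclideanSpace.volume_closedBall_fin_three, ← ENNReal.ofReal_pow hr,
      ← ENNReal.ofReal_mul (by positivity)]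
    congr 1
    ring
  rw [h3] at h2
  rw [h4] at h1 h2
  have h5 : 2 * (volume (Half (c + l • b 0) (b 0) r) + volume (Half (c - l • b 0) (-b 0) r)) ≤
      2 * ENNReal.ofReal (4 / 3 * Real.pi * r ^ 3) := by
    rw [mul_add, two_mul (ENNReal.ofReal (4 / 3 * Real.pi * r ^ 3))]
    exact add_le_add h1 h2
  have h6 : volume (Half (c + l • b 0) (b 0) r) + volume (Half (c - l • b 0) (-b 0) r) ≤
      ENNReal.ofReal (4 / 3 * Real.pi * r ^ 3) :=
    (ENNReal.mul_le_mul_iff_right (by norm_num) (by norm_num)).1 h5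
  calc volume (Cap b c l r) ≤ volume (Cyl b c l r) +
        (volume (Half (c + l • b 0) (b 0) r) + volume (Half (c - l • b 0) (-b 0) r)) :=
        (measure_union_le _ _).trans (add_le_add_right (measure_union_le _ _) _)
    _ ≤ ENNReal.ofReal (2 * l * (Real.pi * r ^ 2)) + ENNReal.ofReal (4 / 3 * Real.pi * r ^ 3) := by
        rw [volume_Cyl b c hl hr]
        gcongr
    _ = _ := by rw [← ENNReal.ofReal_add (by positivity) (by positivity)]

theorem near_mem_Cap (b : OrthonormalBasis (Fin 3) ℝ E3) (c : E3) {l r t : ℝ}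
    (ht : |t| ≤ l) (hr : 0 ≤ r) {p : E3} (hp : ‖p - (c + t • b 0)‖ ≤ r) : p ∈ Cap b c l r := by
  obtain ⟨ht1, ht2⟩ := abs_le.1 ht
  set s : ℝ := ⟪p - c, b 0⟫ with hs
  have hb : ⟪b 0, b 0⟫ = (1 : ℝ) := by
    rw [real_inner_self_eq_norm_sq, b.orthonormal.1 0]; norm_num
  have key : ∀ u : ℝ, ‖p - (c + u • b 0)‖ ^ 2 = (s - u) ^ 2 + ‖pr b (p - c)‖ ^ 2 := by
    intro u
    have e1 : p - (c + u • b 0) = (p - c) + (-u) • b 0 := by rw [neg_smul]; abel
    have e2 : pr b (p - (c + u • b 0)) = pr b (p - c) := by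
      rw [e1, pr_add, pr_b0, add_zero]
    have e3 := norm_pr_sq b (p - (c + u • b 0))
    rw [e2] at e3
    have e4 : ⟪p - (c + u • b 0), b 0⟫ = s - u := by
      rw [e1, inner_add_left, inner_smul_left, hb, ← hs]
      simp
      ring
    rw [e4] at e3
    linarith
  have hk := key t
  have hp2 : ‖p - (c + t • b 0)‖ ^ 2 ≤ r ^ 2 := pow_le_pow_left₀ (norm_nonneg _) hp 2
  have hinner : ∀ u : ℝ, ⟪p - (c + u • b 0), b 0⟫ = s - u := by
    intro u
    have e1 : p - (c + u • b 0) = (p - c) + (-u) • b 0 := by rw [neg_smul]; abel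
    rw [e1, inner_add_left, inner_smul_left, hb, ← hs]
    simp
    ring
  by_cases h1 : |s| ≤ l
  · left
    refine ⟨h1, ?_⟩
    apply abs_le_of_sq_le_sq' _ hr |>.2
    nlinarith [sq_nonneg (s - t)]
  · right
    rw [abs_le, not_and_or, not_le, not_le] at h1
    rcases h1 with h1 | h1
    · right
      have e : c - l • b 0 = c + (-l) • b 0 := by rw [neg_smul]; abel
      rw [e]
      refine ⟨?_, ?_⟩
      · rw [inner_neg_right, hinner]; linarith
      · apply abs_le_of_sq_le_sq' _ hr |>.2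
        rw [key]
        nlinarith
    · left
      refine ⟨?_, ?_⟩
      · rw [hinner]; linarith
      · apply abs_le_of_sq_le_sq' _ hr |>.2
        rw [key]
        nlinarith

theorem num_cap {w : ℝ} (hw : 0 ≤ w) (hw1 : w ≤ 1 / 10000) :
    2 * Real.sqrt 6 * (Real.pi * (4899 / 1000 + 6 * w) ^ 2) +
      4 / 3 * Real.pi * (4899 / 1000 + 6 * w) ^ 3 < 63 * (8 * Real.sqrt 3) := by
  have h6 : Real.sqrt 6 ≤ 24495 / 10000 := by
    rw [Real.sqrt_le_left (by norm_num)]
    norm_num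
  have h60 : 0 ≤ Real.sqrt 6 := Real.sqrt_nonneg 6
  have h3 : 17320 / 10000 ≤ Real.sqrt 3 := by
    rw [Real.le_sqrt' (by norm_num)]
    norm_num
  have hpi : Real.pi ≤ 31416 / 10000 := by
    have := Real.pi_lt_d4
    linarith
  have hpi0 := Real.pi_pos
  have hr1 : 4899 / 1000 + 6 * w ≤ 48996 / 10000 := by linarith
  have hr0 : 0 ≤ 4899 / 1000 + 6 * w := by linarith
  have h1 : (4899 / 1000 + 6 * w) ^ 2 ≤ (48996 / 10000) ^ 2 := pow_le_pow_left₀ hr0 hr1 2
  have h2 : (4899 / 1000 + 6 * w) ^ 3 ≤ (48996 / 10000) ^ 3 := pow_le_pow_left₀ hr0 hr1 3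
  have g1 : Real.pi * (4899 / 1000 + 6 * w) ^ 2 ≤ 31416 / 10000 * (48996 / 10000) ^ 2 :=
    mul_le_mul hpi h1 (by positivity) (by norm_num)
  have g2 : Real.pi * (4899 / 1000 + 6 * w) ^ 3 ≤ 31416 / 10000 * (48996 / 10000) ^ 3 :=
    mul_le_mul hpi h2 (by positivity) (by norm_num)
  have g3 : Real.sqrt 6 * (Real.pi * (4899 / 1000 + 6 * w) ^ 2) ≤
      24495 / 10000 * (31416 / 10000 * (48996 / 10000) ^ 2) :=
    mul_le_mul h6 g1 (by positivity) (by norm_num)
  nlinarith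

/-- at most sixty-one other members come near an edge -/
theorem Fam.count_edge {ι : Type*} (F : Fam ι) (o : ι) {a b c d : Fin 4} (h : Dist4 a b c d)
    {w : ℝ} (hw : 0 ≤ w) (hw1 : w ≤ 1 / 10000) (s : Finset ι)
    (hs : ∀ j ∈ s, j ≠ o ∧ ∃ t, |t| ≤ Real.sqrt 6 ∧ t ∈ F.J o a b c d w j) : s.card ≤ 61 := by
  classical
  obtain ⟨h1, h2, h3, h4, h5, h6⟩ := id h
  have ho : o ∉ s := fun hc => (hs o hc).1 rfl
  obtain ⟨B, hB⟩ := exists_frame ((F.T o).z c d) ((F.T o).norm_z h6)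
  have hr0 : 0 ≤ 4899 / 1000 + 6 * w := by linarith
  have hsub : ∀ j ∈ insert o s, (F.T j).S ⊆
      Cap B ((F.T o).m a b) (Real.sqrt 6) (4899 / 1000 + 6 * w) := by
    intro j hj p hp
    have hdiam : ∀ x ∈ (F.T j).S, ‖p - x‖ ≤ 4899 / 1000 := by
      intro x hx
      have := (F.T j).norm_sub_le hp hx
      nlinarith [norm_nonneg (p - x)]
    obtain ⟨t, ht, z, hz, hzt⟩ : ∃ t, |t| ≤ Real.sqrt 6 ∧ t ∈ F.J o a b c d w j := by
      rcases Finset.mem_insert.1 hj with hj | hj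
      · refine ⟨0, by rw [abs_zero]; exact Real.sqrt_nonneg 6, (F.T o).pt a b c d 0, ?_, ?_⟩
        · rw [hj]
          exact (F.T o).pt_mem h (by rw [abs_zero]; exact Real.sqrt_nonneg 6)
        · rw [sub_self, norm_zero]; positivity
      · exact (hs j hj).2
    refine near_mem_Cap B _ ht hr0 ?_
    have e : (F.T o).m a b + t • B 0 = (F.T o).pt a b c d t := by
      unfold Tet.pt; rw [hB]
    rw [e]
    have h7 := norm_add_le (p - z) (z - (F.T o).pt a b c d t)
    rw [sub_add_sub_cancel] at h7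
    have := hdiam z hz
    linarith
  have hcard := F.card_le (insert o s) (Cap_meas B _ _ _) hsub
  have hvol := volume_Cap B ((F.T o).m a b) (Real.sqrt_nonneg 6) hr0
  have h8 := hcard.trans hvol
  rw [← ENNReal.ofReal_natCast, ← ENNReal.ofReal_mul (Nat.cast_nonneg _),
    ENNReal.ofReal_le_ofReal_iff (by positivity)] at h8
  have h9 := num_cap hw hw1
  have h10 : ((insert o s).card : ℝ) < 63 := by
    have h3 : 0 < 8 * Real.sqrt 3 := by positivity
    by_contra hc
    push Not at hc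
    have := mul_le_mul_of_nonneg_right hc h3.le
    linarith
  have h11 : (insert o s).card < 63 := by exact_mod_cast h10
  rw [Finset.card_insert_of_notMem ho] at h11
  omega

end Pool.Agent.H771
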