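import Pool.Agent.H771.Section

/-!
# Cylindrical coordinates: lines and planes
-/

namespace Pool.Agent.H771

open Complex MeasureTheory
open scoped RealInnerProductSpace ENNReal Pointwise

/-- the point with height `t.1` and planar coordinate `t.2` -/
noncomputable def X (b : OrthonormalBasis (Fin 3) ℝ E3) (c : E3) (t : ℝ × ℂ) : E3 :=
  (c + t.1 • b 0) + hat b t.2

theorem X_mp (b : OrthonormalBasis (Fin 3) ℝ E3) (c : E3) :
    MeasurePreserving (X b c) volume volume := by
  have h1 : MeasurePreserving (Prod.map id Complex.measurableEquivPi)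
      (volume : Measure (ℝ × ℂ)) (volume : Measure (ℝ × (Fin 2 → ℝ))) :=
    (MeasurePreserving.id _).prod Complex.volume_preserving_equiv_pi
  have h2 := (volume_preserving_piFinSuccAbove (fun _ : Fin 3 => ℝ) 0).symm
  have h3 := PiLp.volume_preserving_toLp (Fin 3)
  have h4 := b.measurePreserving_repr_symm
  have h5 : MeasurePreserving (fun x : E3 => c + x) volume volume :=
    measurePreserving_add_left volume c
  have h := h5.comp (h4.comp (h3.comp (h2.comp h1)))
  have e : ((fun x : E3 => c + x) ∘ b.repr.symm ∘ (@WithLp.toLp 2 (Fin 3 → ℝ)) ∘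
      (MeasurableEquiv.piFinSuccAbove (fun _ : Fin 3 => ℝ) 0).symm ∘
      Prod.map id Complex.measurableEquivPi) = X b c := by
    funext t
    simp only [Function.comp_apply, X, hat]
    rw [← b.sum_repr_symm, Fin.sum_univ_three]
    rw [add_assoc c]
    congr 1
    rw [add_assoc]
    rfl
  rw [← e]
  exact h

theorem X_cont (b : OrthonormalBasis (Fin 3) ℝ E3) (c : E3) : Continuous (X b c) := by
  unfold X hat
  fun_prop

/-- the volume of a set by planar slices -/
theorem volume_slices (b : OrthonormalBasis (Fin 3) ℝ E3) (c : E3) {S : Set E3}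
    (hS : MeasurableSet S) :
    volume S = ∫⁻ s : ℝ, volume {y : ℂ | X b c (s, y) ∈ S} := by
  rw [← (X_mp b c).measure_preimage hS.nullMeasurableSet, Measure.volume_eq_prod,
    Measure.prod_apply ((X_cont b c).measurable hS)]
  rfl

/-- a lower bound for the volume from planar slices over a set of heights -/
theorem le_volume_slices (b : OrthonormalBasis (Fin 3) ℝ E3) (c : E3) {S : Set E3}
    (hS : MeasurableSet S) (G : Set ℝ) (A : ℝ≥0∞)
    (h : ∀ s ∈ G, A ≤ volume {y : ℂ | X b c (s, y) ∈ S}) :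
    volume G * A ≤ volume S := by
  rw [volume_slices b c hS]
  have hm : Measurable fun s : ℝ => volume {y : ℂ | X b c (s, y) ∈ S} :=
    measurable_measure_prodMk_left ((X_cont b c).measurable hS)
  calc volume G * A ≤ volume {s : ℝ | A ≤ volume {y : ℂ | X b c (s, y) ∈ S}} * A :=
        mul_le_mul_left (measure_mono h) _
    _ = A * volume {s : ℝ | A ≤ volume {y : ℂ | X b c (s, y) ∈ S}} := mul_comm _ _
    _ ≤ ∫⁻ s : ℝ, volume {y : ℂ | X b c (s, y) ∈ S} := mul_meas_ge_le_lintegral hm A

theorem volume_smul_C (w : ℝ) (hw : 0 < w) (D : Set ℂ) :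
    volume {y : ℂ | ((w⁻¹ : ℝ) : ℂ) * y ∈ D} = ENNReal.ofReal (w ^ 2) * volume D := by
  have h1 : {y : ℂ | ((w⁻¹ : ℝ) : ℂ) * y ∈ D} = w • D := by
    ext y
    rw [Set.mem_smul_set_iff_inv_smul_mem₀ hw.ne', Set.mem_ofPred_eq, Complex.real_smul]
  rw [h1, Measure.addHaar_smul, Complex.finrank_real_complex, abs_of_nonneg (by positivity)]

theorem hat_smul (b : OrthonormalBasis (Fin 3) ℝ E3) (w : ℝ) (y : ℂ) :
    hat b ((w : ℂ) * y) = w • hat b y := by
  unfold hat
  rw [re_ofReal_mul, im_ofReal_mul, smul_add, smul_smul, smul_smul]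

end Pool.Agent.H771
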