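import Pool.Agent.H771.Ip

/-!
# Planar packing data near a point of an edge; at most five members come near the origin
-/

namespace Pool.Agent.H771

open Complex

/-- planar packing data near a point of an edge: every member `j` is, in the disc of radius `60`,
the intersection of one or two half planes `ip (n j k) y + β j k ≤ 0`, `k ∈ C j`, that form a
wedge with an angle near `arccos (1/3)`; the member `o` is a wedge with apex `0` -/
structure PD (ι : Type*) where
  /-- outward normals -/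
  n : ι → Fin 4 → ℂ
  /-- offsets -/
  β : ι → Fin 4 → ℝ
  /-- active constraints -/
  C : ι → Finset (Fin 4)
  /-- the distinguished member -/
  o : ι
  C1 : ∀ j, (C j).Nonempty
  C2 : ∀ j, (C j).card ≤ 2
  βlo : ∀ j, ∀ k ∈ C j, -60 < β j k
  βhi : ∀ j, ∀ k ∈ C j, β j k ≤ 6
  n1 : ∀ j, ∀ k ∈ C j, ‖n j k‖ ≤ 1
  n2 : ∀ j, ∀ k ∈ C j, 1 - ((6 - β j k) / 600) ^ 2 ≤ ‖n j k‖ ^ 2
  nn : ∀ j, ∀ k ∈ C j, ∀ k' ∈ C j, k ≠ k' →
    |ip (n j k) (n j k') + 1 / 3| ≤ ((6 - β j k) / 600) * ((6 - β j k') / 600)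
  dis : ∀ i j, i ≠ j → ∀ y : ℂ, ‖y‖ < 60 → (∀ k ∈ C i, ip (n i k) y + β i k < 0) →
    (∀ k ∈ C j, ip (n j k) y + β j k < 0) → False
  oc : (C o).card = 2
  oβ : ∀ k ∈ C o, β o k = 0

variable {ι : Type*}

/-- the constraint function -/
def PD.F (P : PD ι) (j : ι) (k : Fin 4) (y : ℂ) : ℝ := ip (P.n j k) y + P.β j k

/-- the member `j` comes near the disc of radius `5` -/
def PD.InJ (P : PD ι) (j : ι) : Prop := ∃ y, ‖y‖ ≤ 5 ∧ ∀ k ∈ P.C j, P.F j k y ≤ 1 / 2000

theorem PD.F_add (P : PD ι) (j : ι) (k : Fin 4) (y v : ℂ) :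
    P.F j k (y + v) = P.F j k y + ip (P.n j k) v := by
  unfold PD.F
  rw [ip_add_right]; ring

theorem PD.F_lip (P : PD ι) (j : ι) (k : Fin 4) (hk : k ∈ P.C j) (y z : ℂ) :
    P.F j k z ≤ P.F j k y + ‖z - y‖ := by
  have h : z = y + (z - y) := by ring
  rw [h, P.F_add]
  have h1 := ip_le (P.n j k) (z - y)
  have h2 := P.n1 j k hk
  have h3 := norm_nonneg (z - y)
  have h4 : y + (z - y) - y = z - y := by ring
  rw [h4]
  nlinarith

theorem PD.card_cases (P : PD ι) (j : ι) :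
    (∃ k, P.C j = {k}) ∨ ∃ k k', k ≠ k' ∧ P.C j = {k, k'} := by
  have h1 := P.C2 j
  have h2 := Finset.card_pos.2 (P.C1 j)
  obtain h | h : (P.C j).card = 1 ∨ (P.C j).card = 2 := by omega
  · exact Or.inl (Finset.card_eq_one.1 h)
  · exact Or.inr (Finset.card_eq_two.1 h)

theorem PD.norm_n (P : PD ι) (j : ι) (k : Fin 4) (hk : k ∈ P.C j) :
    9879 / 10000 ≤ ‖P.n j k‖ ^ 2 := by
  have h1 := P.n2 j k hk
  have h2 := P.βlo j k hk
  have h3 := P.βhi j k hk
  nlinarith

theorem PD.exists_dir (P : PD ι) (j : ι) :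
    ∃ u : ℂ, ‖u‖ = 1 ∧ ∀ k ∈ P.C j, ip (P.n j k) u ≤ -(11 / 20) := by
  -- it is enough to find `m ≠ 0` with `ip n m ≥ (11/20) ‖m‖`
  have key : ∀ m : ℂ, 0 < ‖m‖ → (∀ k ∈ P.C j, 11 / 20 * ‖m‖ ≤ ip (P.n j k) m) →
      ∃ u : ℂ, ‖u‖ = 1 ∧ ∀ k ∈ P.C j, ip (P.n j k) u ≤ -(11 / 20) := by
    intro m hm h
    refine ⟨((-(‖m‖⁻¹) : ℝ) : ℂ) * m, ?_, fun k hk => ?_⟩
    · rw [norm_mul, Complex.norm_real, norm_neg, norm_inv, norm_norm, inv_mul_cancel₀ hm.ne']
    · rw [ip_smul_right]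
      have h1 := h k hk
      have h2 : 11 / 20 ≤ ‖m‖⁻¹ * ip (P.n j k) m := by
        rw [inv_mul_eq_div, le_div_iff₀ hm]
        exact h1
      linarith
  rcases P.card_cases j with ⟨k, hk⟩ | ⟨k, k', hkk, hk⟩
  · have hmem : k ∈ P.C j := by rw [hk]; simp
    have h1 := P.norm_n j k hmem
    have h0 : 11 / 20 ≤ ‖P.n j k‖ := by
      by_contra h
      push Not at h
      nlinarith [norm_nonneg (P.n j k)]
    refine key (P.n j k) (by linarith) ?_
    intro l hl
    rw [hk, Finset.mem_singleton] at hl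
    rw [hl, ← norm_sq_ip]
    nlinarith
  · have hm1 : k ∈ P.C j := by rw [hk]; simp
    have hm2 : k' ∈ P.C j := by rw [hk]; simp
    have h1 := P.norm_n j k hm1
    have h2 := P.norm_n j k' hm2
    have h3 := P.nn j k hm1 k' hm2 hkk
    have h4 := P.n1 j k hm1
    have h5 := P.n1 j k' hm2
    have h6 : ((6 - P.β j k) / 600) * ((6 - P.β j k') / 600) ≤ 121 / 10000 := by
      have a1 := P.βlo j k hm1
      have a2 := P.βhi j k hm1
      have a3 := P.βlo j k' hm2
      have a4 := P.βhi j k' hm2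
      have b1 : (6 - P.β j k) / 600 ≤ 11 / 100 := by linarith
      have b2 : (6 - P.β j k') / 600 ≤ 11 / 100 := by linarith
      have b3 : 0 ≤ (6 - P.β j k) / 600 := by linarith
      have b4 : 0 ≤ (6 - P.β j k') / 600 := by linarith
      nlinarith
    have h7 := abs_le.1 (h3.trans h6)
    have n0 := norm_nonneg (P.n j k)
    have n0' := norm_nonneg (P.n j k')
    have h8 : ‖P.n j k + P.n j k'‖ ^ 2 =
        ‖P.n j k‖ ^ 2 + ‖P.n j k'‖ ^ 2 + 2 * ip (P.n j k) (P.n j k') := by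
      rw [norm_sq_ip, norm_sq_ip, norm_sq_ip, ip_add_left, ip_add_right, ip_add_right,
        ip_comm (P.n j k') (P.n j k)]
      ring
    have h9 : ‖P.n j k + P.n j k'‖ ^ 2 ≤ 13576 / 10000 := by nlinarith
    have h10 : ‖P.n j k + P.n j k'‖ ≤ 11652 / 10000 := by
      by_contra h
      push Not at h
      nlinarith
    have h11 : 0 < ‖P.n j k + P.n j k'‖ := by
      by_contra h
      push Not at h
      have : ‖P.n j k + P.n j k'‖ = 0 := le_antisymm h (norm_nonneg _)
      rw [this] at h8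
      nlinarith
    refine key (P.n j k + P.n j k') h11 ?_
    intro l hl
    rw [hk, Finset.mem_insert, Finset.mem_singleton] at hl
    rcases hl with hl | hl
    · rw [hl, ip_add_right, ← norm_sq_ip]
      nlinarith
    · rw [hl, ip_add_right, ← norm_sq_ip, ip_comm]
      nlinarith

/-- at most five members come near the disc of radius `5` -/
theorem PD.count (P : PD ι) (f : Fin 6 → ι) (hf : ∀ i, P.InJ (f i)) :
    ¬ Function.Injective f := by
  intro hinj
  choose y hy1 hy2 using hf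
  choose u hu1 hu2 using P.exists_dir
  set Y : Fin 6 → ℂ := fun i => y i + ((549 / 10 : ℝ) : ℂ) * u (f i) with hY
  have hv : ∀ i, ‖((549 / 10 : ℝ) : ℂ) * u (f i)‖ = 549 / 10 := by
    intro i
    rw [norm_mul, Complex.norm_real, hu1, mul_one, Real.norm_eq_abs,
      abs_of_nonneg (by norm_num)]
  have hYn : ∀ i, ‖Y i‖ ≤ 599 / 10 := by
    intro i
    have := norm_add_le (y i) (((549 / 10 : ℝ) : ℂ) * u (f i))
    rw [hv i] at this
    have h2 := hy1 i
    simp only [hY]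
    linarith
  have hY0 : ∀ i, Y i ≠ 0 := by
    intro i h
    have h1 : ((549 / 10 : ℝ) : ℂ) * u (f i) = -y i := by
      simp only [hY] at h
      linear_combination h
    have h2 := hv i
    rw [h1, norm_neg] at h2
    have h3 := hy1 i
    linarith
  have hF : ∀ i, ∀ k ∈ P.C (f i), P.F (f i) k (Y i) ≤ -30 - 1 / 100 := by
    intro i k hk
    simp only [hY]
    rw [P.F_add, ip_smul_right]
    have h1 := hy2 i k hk
    have h2 := hu2 (f i) k hk
    linarith
  obtain ⟨i, j, hij, hd⟩ := six_vectors Y hY0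
  have hd2 : ‖Y i - Y j‖ ≤ 60 := by
    refine hd.trans (max_le ?_ ?_)
    · linarith [hYn i]
    · linarith [hYn j]
  set M : ℂ := (Y i + Y j) / 2 with hM
  have hMn : ‖M‖ < 60 := by
    rw [hM, norm_div]
    have h1 := norm_add_le (Y i) (Y j)
    have h2 := hYn i
    have h3 := hYn j
    have h4 : ‖(2 : ℂ)‖ = 2 := by simp
    rw [h4, div_lt_iff₀ (by norm_num)]
    linarith
  have e1 : ‖M - Y i‖ ≤ 30 := by
    have : M - Y i = -((Y i - Y j) / 2) := by rw [hM]; ring
    rw [this, norm_neg, norm_div]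
    have h4 : ‖(2 : ℂ)‖ = 2 := by simp
    rw [h4]; linarith
  have e2 : ‖M - Y j‖ ≤ 30 := by
    have : M - Y j = (Y i - Y j) / 2 := by rw [hM]; ring
    rw [this, norm_div]
    have h4 : ‖(2 : ℂ)‖ = 2 := by simp
    rw [h4]; linarith
  refine P.dis (f i) (f j) (fun h => hij (hinj h)) M hMn ?_ ?_
  · intro k hk
    have h1 := P.F_lip (f i) k hk (Y i) M
    have h2 := hF i k hk
    have h3 : P.F (f i) k M < 0 := by linarith
    exact h3
  · intro k hk
    have h1 := P.F_lip (f j) k hk (Y j) M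
    have h2 := hF j k hk
    have h3 : P.F (f j) k M < 0 := by linarith
    exact h3

end Pool.Agent.H771
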