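import Mathlib

/-!
# Good points on a line
-/

namespace Pool.Agent.H771

open MeasureTheory
open scoped ENNReal

theorem vol_up {J : Set ℝ} (hJ : J.OrdConnected) {κ : ℝ} (hκ : 0 < κ) :
    volume {s | s ∈ J ∧ s + κ ∉ J} ≤ ENNReal.ofReal κ := by
  refine (Real.volume_le_diam _).trans ?_
  refine Metric.ediam_le fun x hx y hy => ?_
  rw [edist_dist, Real.dist_eq]
  apply ENNReal.ofReal_le_ofReal
  rw [abs_le]
  constructor
  · by_contra hc
    push Not at hc
    exact hx.2 (hJ.out hx.1 hy.1 ⟨by linarith, by linarith⟩)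
  · by_contra hc
    push Not at hc
    exact hy.2 (hJ.out hy.1 hx.1 ⟨by linarith, by linarith⟩)

theorem vol_down {J : Set ℝ} (hJ : J.OrdConnected) {κ : ℝ} (hκ : 0 < κ) :
    volume {s | s ∈ J ∧ s - κ ∉ J} ≤ ENNReal.ofReal κ := by
  refine (Real.volume_le_diam _).trans ?_
  refine Metric.ediam_le fun x hx y hy => ?_
  rw [edist_dist, Real.dist_eq]
  apply ENNReal.ofReal_le_ofReal
  rw [abs_le]
  constructor
  · by_contra hc
    push Not at hc
    exact hy.2 (hJ.out hx.1 hy.1 ⟨by linarith, by linarith⟩)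
  · by_contra hc
    push Not at hc
    exact hx.2 (hJ.out hy.1 hx.1 ⟨by linarith, by linarith⟩)

/-- the good points have large measure -/
theorem good_measure {ι : Type*} (J : ι → Set ℝ) (hJ : ∀ j, (J j).OrdConnected) {κ l : ℝ}
    (hκ : 0 < κ) (F : Finset ι)
    (hF : ∀ j, j ∉ F → ∀ s, |s| ≤ l - κ → s ∈ J j → s + κ ∈ J j ∧ s - κ ∈ J j) :
    ENNReal.ofReal (2 * l - 2 * κ - F.card * (2 * κ)) ≤
      volume {s : ℝ | |s| ≤ l - κ ∧ ∀ j, s ∈ J j → s + κ ∈ J j ∧ s - κ ∈ J j} := by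
  classical
  set G := {s : ℝ | |s| ≤ l - κ ∧ ∀ j, s ∈ J j → s + κ ∈ J j ∧ s - κ ∈ J j} with hG
  have hsub : Set.Icc (-(l - κ)) (l - κ) ⊆ G ∪ ⋃ j ∈ F,
      ({s | s ∈ J j ∧ s + κ ∉ J j} ∪ {s | s ∈ J j ∧ s - κ ∉ J j}) := by
    intro s hs
    by_cases h : s ∈ G
    · exact Or.inl h
    · right
      have hs' : |s| ≤ l - κ := abs_le.2 hs
      have h2 : ∃ j, s ∈ J j ∧ (s + κ ∉ J j ∨ s - κ ∉ J j) := by
        by_contra hc
        push Not at hc
        exact h ⟨hs', fun j hj => hc j hj⟩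
      obtain ⟨j, h3, h4⟩ := h2
      have hjF : j ∈ F := by
        by_contra hc
        obtain ⟨h5, h6⟩ := hF j hc s hs' h3
        rcases h4 with h4 | h4
        · exact h4 h5
        · exact h4 h6
      simp only [Set.mem_iUnion]
      refine ⟨j, hjF, ?_⟩
      rcases h4 with h4 | h4
      · exact Or.inl ⟨h3, h4⟩
      · exact Or.inr ⟨h3, h4⟩
  have h1 : volume (Set.Icc (-(l - κ)) (l - κ)) ≤ volume G + F.card * ENNReal.ofReal (2 * κ) := by
    refine (measure_mono hsub).trans ((measure_union_le _ _).trans ?_)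
    gcongr
    refine (measure_biUnion_finset_le _ _).trans ?_
    calc ∑ j ∈ F, volume ({s | s ∈ J j ∧ s + κ ∉ J j} ∪ {s | s ∈ J j ∧ s - κ ∉ J j})
        ≤ ∑ j ∈ F, ENNReal.ofReal (2 * κ) := by
          refine Finset.sum_le_sum fun j _ => ?_
          refine (measure_union_le _ _).trans ?_
          rw [two_mul, ENNReal.ofReal_add hκ.le hκ.le]
          exact add_le_add (vol_up (hJ j) hκ) (vol_down (hJ j) hκ)
      _ = F.card * ENNReal.ofReal (2 * κ) := by rw [Finset.sum_const, nsmul_eq_mul]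
  rw [Real.volume_Icc] at h1
  have h2 : (F.card : ℝ≥0∞) * ENNReal.ofReal (2 * κ) = ENNReal.ofReal (F.card * (2 * κ)) := by
    rw [ENNReal.ofReal_mul (Nat.cast_nonneg _), ENNReal.ofReal_natCast]
  rw [h2] at h1
  rw [ENNReal.ofReal_sub _ (by positivity)]
  refine tsub_le_iff_right.2 ?_
  convert h1 using 2
  ring

end Pool.Agent.H771
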