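import Pool.Agent.H771.Coord
import Pool.Agent.H771.Line

/-!
# The uncovered volume near an edge
-/

namespace Pool.Agent.H771

open Complex MeasureTheory
open scoped RealInnerProductSpace ENNReal

/-- four distinct indices -/
def Dist4 (a b c d : Fin 4) : Prop := a ≠ b ∧ a ≠ c ∧ a ≠ d ∧ b ≠ c ∧ b ≠ d ∧ c ≠ d

theorem Dist4.cases {a b c d : Fin 4} (h : Dist4 a b c d) (k : Fin 4) :
    k = a ∨ k = b ∨ k = c ∨ k = d := by
  have key : ∀ a b c d : Fin 4, a ≠ b ∧ a ≠ c ∧ a ≠ d ∧ b ≠ c ∧ b ≠ d ∧ c ≠ d →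
      ∀ k, k = a ∨ k = b ∨ k = c ∨ k = d := by decide
  exact key a b c d h k

/-- the cosine of the angle between an edge and the normal of a face at its end -/
noncomputable def μ : ℝ := 4 / 3 * Real.sqrt (3 / 8)

theorem sq38 : Real.sqrt (3 / 8) * Real.sqrt (3 / 8) = 3 / 8 :=
  Real.mul_self_sqrt (by norm_num)

theorem μ_sqrt6 : μ * Real.sqrt 6 = 2 := by
  unfold μ
  have h : Real.sqrt (3 / 8) * Real.sqrt 6 = 3 / 2 := by
    rw [← Real.sqrt_mul (by norm_num), show (3 / 8 * 6 : ℝ) = (3 / 2) ^ 2 by norm_num,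
      Real.sqrt_sq (by norm_num)]
  linear_combination (4 / 3) * h

theorem μ_lo : 8 / 10 ≤ μ := by
  unfold μ
  have h : (6 / 10 : ℝ) ≤ Real.sqrt (3 / 8) := by
    rw [show (6 / 10 : ℝ) = Real.sqrt ((6 / 10) ^ 2) from (Real.sqrt_sq (by norm_num)).symm]
    exact Real.sqrt_le_sqrt (by norm_num)
  linarith

namespace Tet

variable (T : Tet)

/-- the direction of the edge common to the faces other than `c`, `d` -/
noncomputable def z (c d : Fin 4) : E3 := Real.sqrt (3 / 8) • (T.ν c - T.ν d)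

/-- the midpoint of the edge common to the faces `a`, `b` -/
noncomputable def m (a b : Fin 4) : E3 := T.g + (3 / 2 : ℝ) • (T.ν a + T.ν b)

theorem norm_z {c d : Fin 4} (h : c ≠ d) : ‖T.z c d‖ = 1 := by
  have h1 : ‖T.z c d‖ ^ 2 = 1 := by
    rw [← real_inner_self_eq_norm_sq]
    unfold z
    rw [inner_smul_left, inner_smul_right, inner_sub_left, inner_sub_right, inner_sub_right,
      T.nn, T.nn, T.n3 c d h, T.n3 d c h.symm]
    simp only [conj_trivial]
    linear_combination (8 / 3) * sq38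
  nlinarith [norm_nonneg (T.z c d)]

theorem inner_z {c d k : Fin 4} (h1 : k ≠ c) (h2 : k ≠ d) : ⟪T.ν k, T.z c d⟫ = 0 := by
  unfold z
  rw [inner_smul_right, inner_sub_right, T.n3 k c h1, T.n3 k d h2]
  ring

theorem inner_z_left {c d : Fin 4} (h : c ≠ d) : ⟪T.ν c, T.z c d⟫ = μ := by
  unfold z μ
  rw [inner_smul_right, inner_sub_right, T.nn, T.n3 c d h]
  ring

theorem inner_z_right {c d : Fin 4} (h : c ≠ d) : ⟪T.ν d, T.z c d⟫ = -μ := by
  unfold z μ
  rw [inner_smul_right, inner_sub_right, T.nn, T.n3 d c h.symm]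
  ring

theorem f_m {a b k : Fin 4} (h1 : k ≠ a) (h2 : k ≠ b) : T.f k (T.m a b) = -2 := by
  unfold f m
  rw [add_sub_cancel_left, inner_smul_right, inner_add_right, T.n3 k a h1, T.n3 k b h2]
  norm_num

theorem f_m_left {a b : Fin 4} (h : a ≠ b) : T.f a (T.m a b) = 0 := by
  unfold f m
  rw [add_sub_cancel_left, inner_smul_right, inner_add_right, T.nn, T.n3 a b h]
  norm_num

theorem f_m_right {a b : Fin 4} (h : a ≠ b) : T.f b (T.m a b) = 0 := by
  unfold f m
  rw [add_sub_cancel_left, inner_smul_right, inner_add_right, T.nn, T.n3 b a h.symm]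
  norm_num

/-- the point of the edge at the parameter `s` -/
noncomputable def pt (a b c d : Fin 4) (s : ℝ) : E3 := T.m a b + s • T.z c d

theorem f_pt (k a b c d : Fin 4) (s : ℝ) :
    T.f k (T.pt a b c d s) = T.f k (T.m a b) + s * ⟪T.ν k, T.z c d⟫ := by
  unfold pt
  rw [T.f_add, inner_smul_right]

theorem pt_mem {a b c d : Fin 4} (h : Dist4 a b c d) {s : ℝ} (hs : |s| ≤ Real.sqrt 6) :
    T.pt a b c d s ∈ T.S := by
  obtain ⟨h1, h2, h3, h4, h5, h6⟩ := id h
  have hμ := μ_sqrt6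
  have hμ0 := μ_lo
  obtain ⟨hs1, hs2⟩ := abs_le.1 hs
  intro k
  rw [T.f_pt]
  rcases h.cases k with hk | hk | hk | hk <;> rw [hk]
  · rw [T.f_m_left h1, T.inner_z h2 h3]; simp
  · rw [T.f_m_right h1, T.inner_z h4 h5]; simp
  · rw [T.f_m h2.symm h4.symm, T.inner_z_left h6]
    nlinarith
  · rw [T.f_m h3.symm h5.symm, T.inner_z_right h6]
    nlinarith

theorem f_pt_far {a b c d : Fin 4} (h : Dist4 a b c d) {κ s : ℝ} (hs : |s| ≤ Real.sqrt 6 - κ)
    {k : Fin 4} (h1 : k ≠ a) (h2 : k ≠ b) : T.f k (T.pt a b c d s) ≤ -(μ * κ) := by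
  obtain ⟨-, h2', h3, h4, h5, h6⟩ := id h
  have hμ := μ_sqrt6
  have hμ0 := μ_lo
  obtain ⟨hs1, hs2⟩ := abs_le.1 hs
  rw [T.f_pt]
  rcases h.cases k with hk | hk | hk | hk
  · exact absurd hk h1
  · exact absurd hk h2
  · rw [hk, T.f_m h2'.symm h4.symm, T.inner_z_left h6]
    nlinarith
  · rw [hk, T.f_m h3.symm h5.symm, T.inner_z_right h6]
    nlinarith

theorem f_pt_a {a b c d : Fin 4} (h : Dist4 a b c d) (s : ℝ) : T.f a (T.pt a b c d s) = 0 := by
  obtain ⟨h1, h2, h3, h4, h5, h6⟩ := id h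
  rw [T.f_pt, T.f_m_left h1, T.inner_z h2 h3]; simp

theorem f_pt_b {a b c d : Fin 4} (h : Dist4 a b c d) (s : ℝ) : T.f b (T.pt a b c d s) = 0 := by
  obtain ⟨h1, h2, h3, h4, h5, h6⟩ := id h
  rw [T.f_pt, T.f_m_right h1, T.inner_z h4 h5]; simp

/-- the region near the edge common to the faces `a`, `b` -/
def Z (w : ℝ) (a b : Fin 4) : Set E3 :=
  {y | |T.f a y| ≤ 6 * w ∧ |T.f b y| ≤ 6 * w ∧ ∀ k, k ≠ a → k ≠ b → T.f k y ≤ -(470 * w)}

theorem isClosed_Z (w : ℝ) (a b : Fin 4) : IsClosed (T.Z w a b) := by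
  have h : T.Z w a b = {y | |T.f a y| ≤ 6 * w} ∩ ({y | |T.f b y| ≤ 6 * w} ∩
      ⋂ k, {y | k ≠ a → k ≠ b → T.f k y ≤ -(470 * w)}) := by
    ext y; simp [Z]
  rw [h]
  refine (isClosed_le (T.f_cont a).abs continuous_const).inter
    ((isClosed_le (T.f_cont b).abs continuous_const).inter (isClosed_iInter fun k => ?_))
  by_cases h1 : k ≠ a ∧ k ≠ b
  · have : {y | k ≠ a → k ≠ b → T.f k y ≤ -(470 * w)} = {y | T.f k y ≤ -(470 * w)} := by
      ext y; simp [h1.1, h1.2]
    rw [this]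
    exact isClosed_le (T.f_cont k) continuous_const
  · have : {y | k ≠ a → k ≠ b → T.f k y ≤ -(470 * w)} = Set.univ := by
      ext y
      simp only [Set.mem_ofPred_eq, Set.mem_univ, iff_true]
      intro h2 h3
      exact absurd ⟨h2, h3⟩ h1
    rw [this]
    exact isClosed_univ

end Tet

theorem exists_frame (z : E3) (hz : ‖z‖ = 1) : ∃ b : OrthonormalBasis (Fin 3) ℝ E3, b 0 = z := by
  have h : Orthonormal ℝ (({0} : Set (Fin 3)).domRestrict fun _ => z) := by
    rw [orthonormal_iff_ite]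
    rintro ⟨i, hi⟩ ⟨j, hj⟩
    have : (⟨i, hi⟩ : ({0} : Set (Fin 3))) = ⟨j, hj⟩ := by
      apply Subtype.ext
      rw [Set.mem_singleton_iff] at hi hj
      simp only
      rw [hi, hj]
    rw [if_pos this]
    change ⟪z, z⟫ = (1 : ℝ)
    rw [real_inner_self_eq_norm_sq, hz]; norm_num
  obtain ⟨b, hb⟩ := h.exists_orthonormalBasis_extension_of_card_eq (by simp)
  exact ⟨b, hb 0 (by simp)⟩

/-- a packing -/
structure Fam (ι : Type*) where
  /-- the tetrahedra -/
  T : ι → Tet
  dis : ∀ i j, i ≠ j → ∀ y, (∀ k, (T i).f k y < 0) → (∀ k, (T j).f k y < 0) → False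

/-- the uncovered set -/
def Fam.U {ι : Type*} (F : Fam ι) : Set E3 := {y | ∀ j, y ∉ (F.T j).S}

theorem Fam.U_meas {ι : Type*} [Countable ι] (F : Fam ι) : MeasurableSet F.U := by
  have h : F.U = ⋂ j, ((F.T j).S)ᶜ := by ext y; simp [Fam.U]
  rw [h]
  exact MeasurableSet.iInter fun j => (F.T j).isClosed_S.measurableSet.compl

/-- the least area of a planar hole -/
noncomputable def A0 : ℝ≥0∞ := volume (Metric.ball (0 : ℂ) (1 / 2000))

theorem planar_area {ι : Type*} (P : PD ι) :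
    A0 ≤ volume {y : ℂ | ‖y‖ ≤ 6 ∧ ∀ j, ∃ k ∈ P.C j, 0 < P.F j k y} := by
  obtain ⟨y0, hy0, h⟩ := planar_hole P
  have h1 : A0 = volume (Metric.ball y0 (1 / 2000)) := by
    unfold A0
    rw [Complex.volume_ball, Complex.volume_ball]
  rw [h1]
  refine measure_mono fun y hy => ?_
  rw [Metric.mem_ball, dist_eq_norm] at hy
  constructor
  · have := norm_add_le y0 (y - y0)
    rw [add_sub_cancel] at this
    linarith
  · intro j
    obtain ⟨k, hk, hF⟩ := h j
    refine ⟨k, hk, ?_⟩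
    have := P.F_lip j k hk y y0
    rw [norm_sub_rev] at this
    linarith

/-- the parameters at which the member `j` is near the edge -/
def Fam.J {ι : Type*} (F : Fam ι) (o : ι) (a b c d : Fin 4) (w : ℝ) (j : ι) : Set ℝ :=
  {s | ∃ z ∈ (F.T j).S, ‖z - (F.T o).pt a b c d s‖ ≤ 6 * w}

theorem Fam.J_ord {ι : Type*} (F : Fam ι) (o : ι) (a b c d : Fin 4) (w : ℝ) (j : ι) :
    (F.J o a b c d w j).OrdConnected := by
  apply Convex.ordConnected
  rintro s ⟨x, hx, hxs⟩ t ⟨y, hy, hyt⟩ α β hα hβ hαβ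
  refine ⟨α • x + β • y, (F.T j).convex_S hx hy hα hβ hαβ, ?_⟩
  have e : α • x + β • y - (F.T o).pt a b c d (α • s + β • t) =
      α • (x - (F.T o).pt a b c d s) + β • (y - (F.T o).pt a b c d t) := by
    unfold Tet.pt
    have h1 : (F.T o).m a b = α • (F.T o).m a b + β • (F.T o).m a b := by
      rw [← add_smul, hαβ, one_smul]
    rw [smul_sub, smul_sub, smul_add, smul_add, smul_eq_mul, smul_eq_mul, add_smul, mul_smul,
      mul_smul]
    nth_rewrite 1 [h1]
    abel
  rw [e]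
  refine (norm_add_le _ _).trans ?_
  rw [norm_smul, norm_smul, Real.norm_eq_abs, Real.norm_eq_abs, abs_of_nonneg hα,
    abs_of_nonneg hβ]
  have h1 := mul_le_mul_of_nonneg_left hxs hα
  have h2 := mul_le_mul_of_nonneg_left hyt hβ
  have h3 : α * (6 * w) + β * (6 * w) = 6 * w := by rw [← add_mul, hαβ, one_mul]
  linarith

/-- the uncovered volume near an edge -/
theorem Fam.edge_volume {ι : Type*} [Countable ι] (F : Fam ι) (o : ι) {a b c d : Fin 4}
    (h : Dist4 a b c d) {w : ℝ} (hw : 0 < w) (hw1 : w ≤ 1) (N : ℕ)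
    (hN : ∀ s : Finset ι, (∀ j ∈ s, j ≠ o ∧ ∃ t, |t| ≤ Real.sqrt 6 ∧ t ∈ F.J o a b c d w j) →
      s.card ≤ N) :
    ENNReal.ofReal (2 * Real.sqrt 6 - 2 * (600 * w) - N * (2 * (600 * w))) *
      (ENNReal.ofReal (w ^ 2) * A0) ≤ volume (F.U ∩ (F.T o).Z w a b) := by
  classical
  obtain ⟨h1, h2, h3, h4, h5, h6⟩ := id h
  have hμ := μ_lo
  set T := F.T o with hT
  set J := F.J o a b c d w with hJ
  -- the finite set of members near the edge
  obtain ⟨s, hs1, hs2⟩ : ∃ s : Finset ι, s.card ≤ N ∧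
      ∀ j, j ∉ s → j ≠ o → ∀ t, |t| ≤ Real.sqrt 6 → t ∉ J j := by
    have hfin : {j | j ≠ o ∧ ∃ t, |t| ≤ Real.sqrt 6 ∧ t ∈ J j}.Finite := by
      by_contra hinf
      obtain ⟨s, hs, hcard⟩ := Set.Infinite.exists_subset_card_eq hinf (N + 1)
      have := hN s (fun j hj => hs hj)
      omega
    refine ⟨hfin.toFinset, hN _ (fun j hj => by simpa using hj), ?_⟩
    intro j hj hjo t ht htJ
    apply hj
    rw [Set.Finite.mem_toFinset]
    exact ⟨hjo, t, ht, htJ⟩
  set κ : ℝ := 600 * w with hκ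
  have hκ0 : 0 < κ := by positivity
  set G := {t : ℝ | |t| ≤ Real.sqrt 6 - κ ∧ ∀ j, t ∈ J j → t + κ ∈ J j ∧ t - κ ∈ J j} with hG
  have hGm : ENNReal.ofReal (2 * Real.sqrt 6 - 2 * κ - N * (2 * κ)) ≤ volume G := by
    have hgm := good_measure J (F.J_ord o a b c d w) hκ0 (l := Real.sqrt 6) s (by
      intro j hj t ht htJ
      by_cases hjo : j = o
      · have hmem : ∀ r, |r| ≤ Real.sqrt 6 → r ∈ J j := by
          intro r hr
          refine ⟨T.pt a b c d r, ?_, ?_⟩
          · rw [hjo]; exact T.pt_mem h hr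
          · rw [sub_self, norm_zero]; positivity
        obtain ⟨ht1, ht2⟩ := abs_le.1 ht
        exact ⟨hmem _ (abs_le.2 ⟨by linarith, by linarith⟩),
          hmem _ (abs_le.2 ⟨by linarith, by linarith⟩)⟩
      · exact absurd htJ (hs2 j hj hjo t (by linarith)))
    refine le_trans (ENNReal.ofReal_le_ofReal ?_) hgm
    have : (s.card : ℝ) ≤ N := by exact_mod_cast hs1
    have := mul_le_mul_of_nonneg_right this (by positivity : 0 ≤ 2 * κ)
    linarith
  obtain ⟨B, hB⟩ := exists_frame (T.z c d) (T.norm_z h6)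
  have hX : ∀ t y, X B (T.m a b) (t, y) = T.pt a b c d t + hat B y := by
    intro t y
    unfold X Tet.pt
    rw [hB]
  refine (mul_le_mul_left hGm _).trans ?_
  refine le_volume_slices B (T.m a b) (F.U_meas.inter (T.isClosed_Z w a b).measurableSet) G _ ?_
  rintro t ⟨ht, htJ⟩
  have hx : ∀ k, T.f k (T.pt a b c d t) ≤ 0 := T.pt_mem h (by linarith)
  let L : Loc ι :=
    { T := F.T
      dis := F.dis
      o := o
      x := T.pt a b c d t
      w := w
      w0 := hw
      w1 := hw1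
      b := B
      p := a
      q := b
      pq := h1
      fp := T.f_pt_a h t
      fq := T.f_pt_b h t
      fr := by
        intro r hr1 hr2
        have h1 := T.f_pt_far h ht hr1 hr2
        have : 8 / 10 * κ ≤ μ * κ := mul_le_mul_of_nonneg_right hμ hκ0.le
        change T.f r (T.pt a b c d t) ≤ _
        linarith
      good := by
        intro j hj k
        obtain ⟨⟨z1, hz1, hz1'⟩, z2, hz2, hz2'⟩ := htJ j hj
        rw [hB]
        have e1 : T.pt a b c d (t + κ) = T.pt a b c d t + κ • T.z c d := by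
          unfold Tet.pt; rw [add_smul]; abel
        have e2 : T.pt a b c d (t - κ) = T.pt a b c d t + (-κ) • T.z c d := by
          unfold Tet.pt; rw [sub_smul, neg_smul]; abel
        have g1 : (F.T j).f k (T.pt a b c d t) + κ * ⟪(F.T j).ν k, T.z c d⟫ ≤ 6 * w := by
          rw [← inner_smul_right, ← (F.T j).f_add, ← e1]
          have := (F.T j).f_le k (T.pt a b c d (t + κ)) z1
          rw [norm_sub_rev] at this
          have := hz1 k
          linarith
        have g2 : (F.T j).f k (T.pt a b c d t) - κ * ⟪(F.T j).ν k, T.z c d⟫ ≤ 6 * w := by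
          have e3 : (F.T j).f k (T.pt a b c d t) - κ * ⟪(F.T j).ν k, T.z c d⟫ =
              (F.T j).f k (T.pt a b c d t) + ⟪(F.T j).ν k, (-κ) • T.z c d⟫ := by
            rw [inner_smul_right]; ring
          rw [e3, ← (F.T j).f_add, ← e2]
          have := (F.T j).f_le k (T.pt a b c d (t - κ)) z2
          rw [norm_sub_rev] at this
          have := hz2 k
          linarith
        rcases abs_cases ⟪(F.T j).ν k, T.z c d⟫ with h | h
        · rw [h.1]; linarith
        · rw [h.1]; linarith }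
  have hPA := planar_area L.toPD
  calc ENNReal.ofReal (w ^ 2) * A0
      ≤ ENNReal.ofReal (w ^ 2) *
        volume {y : ℂ | ‖y‖ ≤ 6 ∧ ∀ j, ∃ k ∈ L.toPD.C j, 0 < L.toPD.F j k y} := by
        gcongr
    _ = volume {y : ℂ | ((w⁻¹ : ℝ) : ℂ) * y ∈
        {y : ℂ | ‖y‖ ≤ 6 ∧ ∀ j, ∃ k ∈ L.toPD.C j, 0 < L.toPD.F j k y}} :=
        (volume_smul_C w hw _).symm
    _ ≤ _ := by
        refine measure_mono fun y hy => ?_
        obtain ⟨hy1, hy2⟩ := hy
        have hyw : ‖y‖ ≤ 6 * w := by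
          rw [norm_mul, norm_real, Real.norm_eq_abs, abs_of_pos (inv_pos.2 hw),
            inv_mul_le_iff₀ hw] at hy1
          linarith
        have e : L.x + L.w • hat L.b (((w⁻¹ : ℝ) : ℂ) * y) = T.pt a b c d t + hat B y := by
          change T.pt a b c d t + w • hat B _ = _
          rw [← hat_smul, ← mul_assoc, ← ofReal_mul, mul_inv_cancel₀ hw.ne', ofReal_one, one_mul]
        change X B (T.m a b) (t, y) ∈ F.U ∩ T.Z w a b
        rw [hX]
        refine ⟨fun j => ?_, ?_, ?_, ?_⟩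
        · rw [← e]
          exact L.uncovered hy1 hy2 j
        · have := T.f_lip a (T.pt a b c d t + hat B y) (T.pt a b c d t)
          rw [T.f_pt_a h, sub_zero, add_sub_cancel_left, norm_hat] at this
          linarith
        · have := T.f_lip b (T.pt a b c d t + hat B y) (T.pt a b c d t)
          rw [T.f_pt_b h, sub_zero, add_sub_cancel_left, norm_hat] at this
          linarith
        · intro k hk1 hk2
          have g1 := T.f_pt_far h ht hk1 hk2
          have g2 := T.f_le k (T.pt a b c d t + hat B y) (T.pt a b c d t)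
          rw [add_sub_cancel_left, norm_hat] at g2
          have : 8 / 10 * κ ≤ μ * κ := mul_le_mul_of_nonneg_right hμ hκ0.le
          linarith

end Pool.Agent.H771
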