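import Pool.Agent.H771.Count

/-!
# The flush step: beyond a boundary line of a member lies another member with nearly the same line
-/

namespace Pool.Agent.H771

open Complex

variable {ι : Type*}

/-- the facts about the member `j'` and its constraint `k'` that follow the line of direction `d` -/
structure FlushTo (P : PD ι) (R : ℝ) (j : ι) (k : Fin 4) (d : ℂ) (b : ℝ) (j' : ι) (k' : Fin 4)
    (d' : ℂ) (ν' : ℝ) (y : ℂ) : Prop where
  inJ : P.InJ j'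
  ne : j' ≠ j
  mem : k' ∈ P.C j'
  dn : ‖d'‖ = 1
  νlo : 9997 / 10000 ≤ ν'
  νhi : ν' ≤ 1
  hn : P.n j' k' = -((ν' : ℂ) * (I * d'))
  dd : ‖d' - d‖ ≤ 106 / 10000
  ylo : R + 1 / 10 ≤ ‖y‖
  yhi : ‖y‖ ≤ R + 9 / 10
  yd : 0 < ip y d'
  F' : |P.F j' k' y| ≤ 33 / 20000
  Fle : ∀ κ ∈ P.C j', P.F j' κ y ≤ 1 / 2000
  Fj : P.F j k y = 21 / 40000
  off : |ip y (I * d)| ≤ b + 1 / 1000

/-- elementary part: bounds for the slope -/
theorem flush_real {σa σb q p h s β' ν : ℝ} (hσ : 1 / 5 ≤ σb - σa)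
    (hs : s = 11 / 20000 / ν) (hν : 999 / 1000 ≤ ν) (hν1 : ν ≤ 1) (hq : |q| ≤ 1)
    (h1 : p * σa + q * h + β' ≤ 1 / 2000) (h2 : p * σb + q * h + β' ≤ 1 / 2000)
    (h3 : 0 ≤ p * ((σa + σb) / 2) + q * (h - s) + β') :
    |p| ≤ 10506 / 1000000 ∧ q ≤ 91 / 100 ∧ -(1602 / 1000000) ≤ p * σa + q * h + β' ∧
      -(1602 / 1000000) ≤ p * σb + q * h + β' := by
  have hs1 : s ≤ 5506 / 10000000 := by
    rw [hs, div_le_iff₀ (by linarith)]; nlinarith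
  have hs2 : 55 / 100000 ≤ s := by
    rw [hs, le_div_iff₀ (by linarith)]; nlinarith
  obtain ⟨hq1, hq2⟩ := abs_le.1 hq
  -- value at the midpoint
  set m : ℝ := p * ((σa + σb) / 2) + q * h + β' with hm
  have hm1 : q * s ≤ m := by rw [hm]; nlinarith
  have hm2 : m ≤ 1 / 2000 := by rw [hm]; nlinarith
  have hm3 : -s ≤ q * s := by nlinarith
  have e1 : p * σa + q * h + β' = m - p * ((σb - σa) / 2) := by rw [hm]; ring
  have e2 : p * σb + q * h + β' = m + p * ((σb - σa) / 2) := by rw [hm]; ring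
  rw [e1] at h1
  rw [e2] at h2
  rw [e1, e2]
  have hp1 : p * ((σb - σa) / 2) ≤ 1 / 2000 + s := by linarith
  have hp2 : -(p * ((σb - σa) / 2)) ≤ 1 / 2000 + s := by linarith
  refine ⟨?_, ?_, ?_, ?_⟩
  · rw [abs_le]
    constructor <;> nlinarith
  · by_contra hc
    push Not at hc
    nlinarith
  · nlinarith
  · nlinarith

theorem sub_unit_le {c s : ℝ} (h : c ^ 2 + s ^ 2 = 1) (hc : 0 < c) (hs : |s| ≤ 1051 / 100000) :
    (1 - c) ^ 2 + s ^ 2 ≤ (106 / 10000) ^ 2 := by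
  have h2 : s ^ 2 ≤ (1051 / 100000) ^ 2 := by
    rw [← sq_abs s]
    exact pow_le_pow_left₀ (abs_nonneg s) hs 2
  have h3 : 1 - s ^ 2 ≤ c := by nlinarith
  have h4 : c ≤ 1 := by nlinarith
  nlinarith

theorem fl_b0 {b ν β : ℝ} (hν0 : 0 < ν) (h1 : |β| ≤ b * ν) : 0 ≤ b := by
  by_contra h
  push Not at h
  have := abs_nonneg β
  nlinarith

theorem fl_h {b ν β h : ℝ} (hν : 999 / 1000 ≤ ν) (hb0 : 0 ≤ b) (hhν : ν * h = 21 / 40000 - β)
    (hβ : |β| ≤ b * ν) : |h| ≤ b + 1 / 1000 := by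
  obtain ⟨hβ1, hβ2⟩ := abs_le.1 hβ
  rw [abs_le]
  constructor
  · by_contra hc
    push Not at hc
    nlinarith
  · by_contra hc
    push Not at hc
    nlinarith

theorem fl_q1 {R h : ℝ} (hR0 : 0 ≤ R) (hh2 : h ^ 2 ≤ (R + 61 / 1000) ^ 2) :
    0 < (R + 1 / 10) ^ 2 - h ^ 2 := by nlinarith

theorem fl_q2 {R h : ℝ} (hR0 : 0 ≤ R) (hh2 : h ^ 2 ≤ (R + 61 / 1000) ^ 2) :
    0 < (R + 9 / 10) ^ 2 - h ^ 2 := by nlinarith

theorem fl_t {x a h : ℝ} (ha : 0 ≤ a) (hx : 0 < x) (s1 : x ^ 2 = a ^ 2 - h ^ 2) : x ≤ a := by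
  nlinarith [sq_nonneg h]

theorem fl_len {R σ1 σ2 h : ℝ} (hR0 : 0 ≤ R) (s1 : σ1 ^ 2 = (R + 1 / 10) ^ 2 - h ^ 2)
    (s2 : σ2 ^ 2 = (R + 9 / 10) ^ 2 - h ^ 2) (p1 : 0 < σ1) (p2 : 0 < σ2)
    (t1 : σ1 ≤ R + 1 / 10) (t2 : σ2 ≤ R + 9 / 10) : 4 / 5 ≤ σ2 - σ1 := by
  have e : (σ2 - σ1) * (σ2 + σ1) = 4 / 5 * (2 * R + 1) := by nlinarith
  by_contra hc
  push Not at hc
  nlinarith

theorem fl_lo {N a σ σ1 h : ℝ} (hN : 0 ≤ N) (hN2 : N ^ 2 = σ ^ 2 + h ^ 2) (p1 : 0 < σ1)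
    (s1 : σ1 ^ 2 = a ^ 2 - h ^ 2) (hσ : σ1 ≤ σ) : a ≤ N := by
  by_contra hc
  push Not at hc
  nlinarith

theorem fl_hi {N a σ σ2 h : ℝ} (ha : 0 ≤ a) (hN2 : N ^ 2 = σ ^ 2 + h ^ 2)
    (s2 : σ2 ^ 2 = a ^ 2 - h ^ 2) (hσ0 : 0 ≤ σ) (hσ : σ ≤ σ2) : N ≤ a := by
  by_contra hc
  push Not at hc
  nlinarith

theorem fl_sigma {R σ1 h : ℝ} (hR0 : 0 ≤ R) (hR4 : R ≤ 4) (p1 : 0 < σ1)
    (s1 : σ1 ^ 2 = (R + 1 / 10) ^ 2 - h ^ 2) (hh2 : h ^ 2 ≤ (R + 61 / 1000) ^ 2) :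
    (R + 9 / 10) * (106 / 10000) < σ1 := by
  have h1 : 39 / 1000 * (2 * R + 161 / 1000) ≤ σ1 ^ 2 := by nlinarith
  have h2 : ((R + 9 / 10) * (106 / 10000)) ^ 2 < 39 / 1000 * (2 * R + 161 / 1000) := by
    nlinarith
  have h3 : ((R + 9 / 10) * (106 / 10000)) ^ 2 < σ1 ^ 2 := lt_of_lt_of_le h2 h1
  exact lt_of_pow_lt_pow_left₀ 2 p1.le h3

theorem fl_beta {x β N M : ℝ} (h1 : 0 ≤ x + β) (h2 : x ≤ N * M) (hN : N ≤ 1) (h0 : 0 ≤ N)
    (hM : M ≤ 5) (hM0 : 0 ≤ M) : -5 ≤ β := by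
  nlinarith

theorem fl_qneg {N p q : ℝ} (hnsq : 1 - (11 / 600) ^ 2 ≤ N ^ 2) (hnpq : N ^ 2 = p ^ 2 + q ^ 2)
    (hp1 : |p| ≤ 10506 / 1000000) (hq2 : q ≤ 91 / 100) : q < 0 := by
  obtain ⟨hp2, hp3⟩ := abs_le.1 hp1
  by_contra hc
  push Not at hc
  nlinarith

theorem fl_nu {N : ℝ} (hN : 0 ≤ N) (hnsq : 1 - (11 / 600) ^ 2 ≤ N ^ 2) : 9997 / 10000 ≤ N := by
  by_contra hc
  push Not at hc
  nlinarith

theorem flush (P : PD ι) (hcov : ∀ y : ℂ, ‖y‖ ≤ 5 → ∃ j, ∀ k ∈ P.C j, P.F j k y ≤ 1 / 2000)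
    (R : ℝ) (hR0 : 0 ≤ R) (hR4 : R ≤ 4) (j : ι) (hj : P.InJ j) (k : Fin 4) (hk : k ∈ P.C j)
    (d : ℂ) (hd : ‖d‖ = 1) (ν : ℝ) (hν : 999 / 1000 ≤ ν) (hν1 : ν ≤ 1)
    (hn : P.n j k = (ν : ℂ) * (I * d)) (b : ℝ) (hb : b ≤ R + 3 / 50) (hβ : |P.β j k| ≤ b * ν)
    (E2 : ∀ y, |P.F j k y| ≤ 1 / 500 → 0 < ip y d → R + 9 / 100 ≤ ‖y‖ → ‖y‖ ≤ R + 91 / 100 →
      ∀ k' ∈ P.C j, k' ≠ k → P.F j k' y < 0) :
    ∃ j' k' d' ν' y, FlushTo P R j k d b j' k' d' ν' y := by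
  have hν0 : 0 < ν := by linarith
  have hb0 : 0 ≤ b := fl_b0 hν0 hβ
  -- the line
  set h : ℝ := (21 / 40000 - P.β j k) / ν with hh
  have hhν : ν * h = 21 / 40000 - P.β j k := by rw [hh]; field_simp
  have hhb : |h| ≤ b + 1 / 1000 := fl_h hν hb0 hhν hβ
  have hhR : |h| ≤ R + 61 / 1000 := hhb.trans (by linarith)
  have hh2 : h ^ 2 ≤ (R + 61 / 1000) ^ 2 := by
    rw [← sq_abs h]
    exact pow_le_pow_left₀ (abs_nonneg h) hhR 2
  set σ1 : ℝ := Real.sqrt ((R + 1 / 10) ^ 2 - h ^ 2) with hσ1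
  set σ2 : ℝ := Real.sqrt ((R + 9 / 10) ^ 2 - h ^ 2) with hσ2
  have q1 : 0 < (R + 1 / 10) ^ 2 - h ^ 2 := fl_q1 hR0 hh2
  have q2 : 0 < (R + 9 / 10) ^ 2 - h ^ 2 := fl_q2 hR0 hh2
  have s1 : σ1 ^ 2 = (R + 1 / 10) ^ 2 - h ^ 2 := Real.sq_sqrt q1.le
  have s2 : σ2 ^ 2 = (R + 9 / 10) ^ 2 - h ^ 2 := Real.sq_sqrt q2.le
  have p1 : 0 < σ1 := Real.sqrt_pos.2 q1
  have p2 : 0 < σ2 := Real.sqrt_pos.2 q2
  have t1 : σ1 ≤ R + 1 / 10 := fl_t (by linarith) p1 s1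
  have t2 : σ2 ≤ R + 9 / 10 := fl_t (by linarith) p2 s2
  have hlen : 4 / 5 ≤ σ2 - σ1 := fl_len hR0 s1 s2 p1 p2 t1 t2
  -- points on the line
  have hdd := ip_self_unit d hd
  have hee := ip_Id_Id d hd
  have hde := ip_I_self d
  have hed : ip (I * d) d = 0 := by rw [ip_comm]; exact hde
  set pt : ℝ → ℂ := fun σ => (σ : ℂ) * d + (h : ℂ) * (I * d) with hpt
  have ptx : ∀ σ, ip (pt σ) d = σ := by
    intro σ
    simp only [hpt]
    rw [ip_add_left, ip_smul_left, ip_smul_left, hdd, hed]; ring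
  have pty : ∀ σ, ip (pt σ) (I * d) = h := by
    intro σ
    simp only [hpt]
    rw [ip_add_left, ip_smul_left, ip_smul_left, hde, hee]; ring
  have ptn : ∀ σ, ‖pt σ‖ ^ 2 = σ ^ 2 + h ^ 2 := by
    intro σ
    rw [norm_sq_expand _ d hd, ptx, pty]
  have ptlo : ∀ σ, σ1 ≤ σ → R + 1 / 10 ≤ ‖pt σ‖ := by
    intro σ hσ
    exact fl_lo (norm_nonneg _) (ptn σ) p1 s1 hσ
  have pthi : ∀ σ, 0 ≤ σ → σ ≤ σ2 → ‖pt σ‖ ≤ R + 9 / 10 := by
    intro σ hσ0 hσ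
    exact fl_hi (by linarith) (ptn σ) s2 hσ0 hσ
  have ptF : ∀ σ, P.F j k (pt σ) = 21 / 40000 := by
    intro σ
    unfold PD.F
    rw [hn, ip_smul_left, ip_comm, pty]
    linarith
  -- the five test points
  set τ : Fin 5 → ℝ := fun i => σ1 + (σ2 - σ1) * ((i : ℕ) / 4 : ℝ) with hτ
  have τ1 : ∀ i, σ1 ≤ τ i := by
    intro i
    simp only [hτ]
    have : (0 : ℝ) ≤ ((i : ℕ) / 4 : ℝ) := by positivity
    have h2 : 0 ≤ (σ2 - σ1) * ((i : ℕ) / 4 : ℝ) := mul_nonneg (by linarith) this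
    linarith
  have τ2 : ∀ i, τ i ≤ σ2 := by
    intro i
    simp only [hτ]
    have h1 : ((i : ℕ) : ℝ) ≤ 4 := by
      have := i.2
      exact_mod_cast (by omega : (i : ℕ) ≤ 4)
    have : ((i : ℕ) / 4 : ℝ) ≤ 1 := by linarith
    have h2 : (σ2 - σ1) * ((i : ℕ) / 4 : ℝ) ≤ (σ2 - σ1) * 1 :=
      mul_le_mul_of_nonneg_left this (by linarith)
    linarith
  have hg : ∀ i : Fin 5, ∃ j', ∀ κ ∈ P.C j', P.F j' κ (pt (τ i)) ≤ 1 / 2000 := by
    intro i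
    apply hcov
    have := pthi (τ i) (by linarith [τ1 i]) (τ2 i)
    linarith
  choose g hg using hg
  have hgJ : ∀ i, P.InJ (g i) := by
    intro i
    refine ⟨pt (τ i), ?_, hg i⟩
    have := pthi (τ i) (by linarith [τ1 i]) (τ2 i)
    linarith
  have hgj : ∀ i, g i ≠ j := by
    intro i hi
    have h1 := hg i k (by rw [hi]; exact hk)
    rw [hi, ptF] at h1
    norm_num at h1
  have hninj : ¬ Function.Injective g := by
    intro hinj
    refine P.count (Fin.cons j g) ?_ ?_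
    · intro i
      refine Fin.cases ?_ (fun i => ?_) i
      · simpa using hj
      · simpa using hgJ i
    · rw [Fin.cons_injective_iff]
      refine ⟨?_, hinj⟩
      rintro ⟨i, hi⟩
      exact hgj i hi
  obtain ⟨a, c, hab, hac⟩ : ∃ a c : Fin 5, a < c ∧ g a = g c := by
    rw [Function.not_injective_iff] at hninj
    obtain ⟨a, c, h1, h2⟩ := hninj
    rcases lt_or_gt_of_ne h2 with h3 | h3
    · exact ⟨a, c, h3, h1⟩
    · exact ⟨c, a, h3, h1.symm⟩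
  have hτd : 1 / 5 ≤ τ c - τ a := by
    simp only [hτ]
    have h1 : ((a : ℕ) : ℝ) + 1 ≤ ((c : ℕ) : ℝ) := by exact_mod_cast hab
    have h2 : (σ2 - σ1) * (1 / 4) ≤ (σ2 - σ1) * ((c : ℕ) / 4 - (a : ℕ) / 4 : ℝ) :=
      mul_le_mul_of_nonneg_left (by linarith) (by linarith)
    linarith
  -- the point inside `j`
  set s : ℝ := 11 / 20000 / ν with hs
  have hs1 : s ≤ 5506 / 10000000 := by
    rw [hs, div_le_iff₀ (by linarith)]; linarith
  have hs0 : 0 < s := by rw [hs]; positivity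
  set σm : ℝ := (τ a + τ c) / 2 with hσm
  set m' : ℂ := pt σm + ((-s : ℝ) : ℂ) * (I * d) with hm'
  have hσm1 : σ1 ≤ σm := by linarith [τ1 a, τ1 c]
  have hσm2 : σm ≤ σ2 := by linarith [τ2 a, τ2 c]
  have m'x : ip m' d = σm := by
    rw [hm', ip_add_left, ptx, ip_smul_left, hed]; ring
  have m'y : ip m' (I * d) = h - s := by
    rw [hm', ip_add_left, pty, ip_smul_left, hee]; ring
  have hvn : ‖((-s : ℝ) : ℂ) * (I * d)‖ = s := by
    rw [norm_mul, Complex.norm_real, norm_mul, Complex.norm_I, hd, Real.norm_eq_abs, abs_neg,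
      abs_of_pos hs0]
    ring
  have m'hi : ‖m'‖ ≤ R + 91 / 100 := by
    have h1 := norm_add_le (pt σm) (((-s : ℝ) : ℂ) * (I * d))
    rw [hvn] at h1
    have h2 := pthi σm (by linarith) hσm2
    rw [hm']
    linarith
  have m'lo : R + 9 / 100 ≤ ‖m'‖ := by
    have h1 := norm_sub_norm_le (pt σm) (-(((-s : ℝ) : ℂ) * (I * d)))
    rw [norm_neg, hvn, sub_neg_eq_add] at h1
    have h2 := ptlo σm hσm1
    rw [hm']
    linarith
  have hFm : P.F j k m' = -(1 / 40000) := by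
    rw [hm', P.F_add, ptF, hn, ip_smul_right, ip_smul_left, hee, hs]
    field_simp
    norm_num
  have hin : ∀ κ ∈ P.C j, P.F j κ m' < 0 := by
    intro κ hκ
    by_cases e : κ = k
    · rw [e, hFm]; norm_num
    · refine E2 m' ?_ ?_ m'lo m'hi κ hκ e
      · rw [hFm, abs_neg, abs_of_pos (by norm_num)]; norm_num
      · rw [m'x]; linarith
  have hex : ∃ k' ∈ P.C (g a), 0 ≤ P.F (g a) k' m' := by
    by_contra hc
    push Not at hc
    exact P.dis j (g a) (fun e => hgj a e.symm) m' (by linarith) hin hc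
  obtain ⟨k', hk', hF0⟩ := hex
  -- slope
  set n' : ℂ := P.n (g a) k' with hn'
  set p : ℝ := ip n' d with hp
  set q : ℝ := ip n' (I * d) with hq
  have hval : ∀ y, P.F (g a) k' y = p * ip y d + q * ip y (I * d) + P.β (g a) k' := by
    intro y
    unfold PD.F
    rw [ip_expand (P.n (g a) k') y d hd]
  have r1 : p * τ a + q * h + P.β (g a) k' ≤ 1 / 2000 := by
    have := hg a k' hk'
    rwa [hval, ptx, pty] at this
  have r2 : p * τ c + q * h + P.β (g a) k' ≤ 1 / 2000 := by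
    have h1 := hg c
    rw [← hac] at h1
    have := h1 k' hk'
    rwa [hval, ptx, pty] at this
  have r3 : 0 ≤ p * ((τ a + τ c) / 2) + q * (h - s) + P.β (g a) k' := by
    have := hF0
    rwa [hval, m'x, m'y] at this
  have hn1 := P.n1 (g a) k' hk'
  have hq1 : |q| ≤ 1 := by
    have h1 := abs_ip_le n' (I * d)
    rw [norm_mul, Complex.norm_I, hd] at h1
    linarith
  obtain ⟨hp1, hq2, hv1, hv2⟩ := flush_real hτd hs hν hν1 hq1 r1 r2 r3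
  -- the offset of the new constraint
  have hβ' : -5 ≤ P.β (g a) k' := by
    have h1 := hF0
    unfold PD.F at h1
    have h2 := ip_le (P.n (g a) k') m'
    exact fl_beta h1 h2 hn1 (norm_nonneg _) (by linarith) (norm_nonneg _)
  have hβhi := P.βhi (g a) k' hk'
  have hn2 := P.n2 (g a) k' hk'
  have hnsq : 1 - (11 / 600) ^ 2 ≤ ‖n'‖ ^ 2 := by
    have h1 : (6 - P.β (g a) k') / 600 ≤ 11 / 600 := by linarith
    have h2 : 0 ≤ (6 - P.β (g a) k') / 600 := by linarith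
    have h3 : ((6 - P.β (g a) k') / 600) ^ 2 ≤ (11 / 600) ^ 2 := pow_le_pow_left₀ h2 h1 2
    linarith
  have hnpq : ‖n'‖ ^ 2 = p ^ 2 + q ^ 2 := norm_sq_expand n' d hd
  have hqneg : q < 0 := fl_qneg hnsq hnpq hp1 hq2
  set ν' : ℝ := ‖n'‖ with hν'
  have hν'lo : 9997 / 10000 ≤ ν' := fl_nu (norm_nonneg _) hnsq
  have hν'0 : 0 < ν' := by linarith
  have hν'c : (ν' : ℂ) ≠ 0 := by
    exact_mod_cast hν'0.ne'
  set d' : ℂ := ((ν'⁻¹ : ℝ) : ℂ) * (I * n') with hd'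
  have hd'n : ‖d'‖ = 1 := by
    rw [hd', norm_mul, Complex.norm_real, norm_mul, Complex.norm_I, norm_inv, Real.norm_eq_abs,
      abs_of_pos hν'0, one_mul, ← hν', inv_mul_cancel₀ hν'0.ne']
  have hnd' : n' = -((ν' : ℂ) * (I * d')) := by
    rw [hd']
    push_cast
    have hI : I * (((ν' : ℂ))⁻¹ * (I * n')) = -((ν' : ℂ)⁻¹ * n') := by
      linear_combination ((ν' : ℂ)⁻¹ * n') * Complex.I_mul_I
    rw [hI]
    field_simp
  have hd'd : ip d' d = -q / ν' := by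
    rw [hd', ip_smul_left, ip_I_left, hq]
    field_simp
  have hd'e : ip d' (I * d) = p / ν' := by
    rw [hd', ip_smul_left, ip_I_I, hp]
    field_simp
  have hcs : (-q / ν') ^ 2 + (p / ν') ^ 2 = 1 := by
    rw [div_pow, div_pow, ← add_div, div_eq_one_iff_eq (by positivity)]
    linarith [hnpq]
  have hdd' : ‖d' - d‖ ≤ 106 / 10000 := by
    have h1 : ‖d' - d‖ ^ 2 = (1 - -q / ν') ^ 2 + (p / ν') ^ 2 := by
      rw [norm_sq_expand (d' - d) d hd, ip_sub_left, ip_sub_left, hd'd, hd'e, hdd, hde]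
      ring
    have h2 : |p / ν'| ≤ 1051 / 100000 := by
      rw [abs_div, abs_of_pos hν'0, div_le_iff₀ hν'0]
      linarith
    have h3 := sub_unit_le hcs (by rw [neg_div, neg_pos]; exact div_neg_of_neg_of_pos hqneg hν'0) h2
    rw [← h1] at h3
    exact (pow_le_pow_iff_left₀ (norm_nonneg _) (by norm_num) two_ne_zero).1 h3
  have hyd : 0 < ip (pt (τ a)) d' := by
    have e : ip (pt (τ a)) d' = ip (pt (τ a)) d + ip (pt (τ a)) (d' - d) := by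
      rw [ip_sub_right]; ring
    rw [e, ptx]
    have h1 := abs_ip_le (pt (τ a)) (d' - d)
    have h2 := pthi (τ a) (by linarith [τ1 a]) (τ2 a)
    have h3 := (abs_le.1 h1).1
    have h4 := norm_nonneg (pt (τ a))
    have h5 := norm_nonneg (d' - d)
    have h6 : ‖pt (τ a)‖ * ‖d' - d‖ ≤ (R + 9 / 10) * (106 / 10000) :=
      mul_le_mul h2 hdd' h5 (by linarith)
    have h7 : (R + 9 / 10) * (106 / 10000) < σ1 := fl_sigma hR0 hR4 p1 s1 hh2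
    linarith [τ1 a]
  refine ⟨g a, k', d', ν', pt (τ a), ?_⟩
  exact {
    inJ := hgJ a
    ne := hgj a
    mem := hk'
    dn := hd'n
    νlo := hν'lo
    νhi := hn1
    hn := hnd'
    dd := hdd'
    ylo := ptlo (τ a) (τ1 a)
    yhi := pthi (τ a) (by linarith [τ1 a]) (τ2 a)
    yd := hyd
    F' := by
      rw [hval, ptx, pty, abs_le]
      constructor
      · linarith
      · linarith
    Fle := hg a
    Fj := ptF _
    off := by rw [pty]; exact hhb }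

end Pool.Agent.H771
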