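import Pool.Agent.H771.Tet
import Pool.Agent.H349R2.Tet.Vol

/-!
# The volume of the regular tetrahedron of inradius one
-/

namespace Pool.Agent.H771

open MeasureTheory
open scoped RealInnerProductSpace ENNReal

/-- cube coordinates of a tetrahedron -/
noncomputable def Tet.Y (T : Tet) (a : Fin 3 → ℝ) : E3 :=
  T.g + (a 0 • T.e 0 + a 1 • T.e 1 + a 2 • T.e 2)

theorem Tet.Y_mp (T : Tet) : MeasurePreserving T.Y volume volume := by
  have h3 := PiLp.volume_preserving_toLp (Fin 3)
  have h4 := T.eb.measurePreserving_repr_symm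
  have h5 : MeasurePreserving (fun x : E3 => T.g + x) volume volume :=
    measurePreserving_add_left volume T.g
  have h := h5.comp (h4.comp h3)
  have e : ((fun x : E3 => T.g + x) ∘ T.eb.repr.symm ∘ (@WithLp.toLp 2 (Fin 3 → ℝ))) = T.Y := by
    funext a
    simp only [Function.comp_apply, Tet.Y]
    rw [← T.eb.sum_repr_symm, Fin.sum_univ_three, T.eb_apply, T.eb_apply, T.eb_apply]
  rw [← e]
  exact h

theorem Tet.f_Y (T : Tet) (a : Fin 3 → ℝ) (i : Fin 4) :
    T.f i (T.Y a) = Real.sqrt 3 / 3 * (∑ j, H349R2.Tet.nv i j * a j) - 1 := by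
  have hs : Real.sqrt 3 * Real.sqrt 3 = 3 := Real.mul_self_sqrt (by norm_num)
  have hs0 : Real.sqrt 3 ≠ 0 := by
    rw [Real.sqrt_ne_zero']; norm_num
  have hq : 2 / Real.sqrt 3 = 2 * (Real.sqrt 3 / 3) := by
    field_simp
    linarith
  have ho := T.e_orthonormal
  rw [orthonormal_iff_ite] at ho
  have h00 := ho 0 0
  have h01 := ho 0 1
  have h02 := ho 0 2
  have h10 := ho 1 0
  have h11 := ho 1 1
  have h12 := ho 1 2
  have h20 := ho 2 0
  have h21 := ho 2 1
  have h22 := ho 2 2
  rw [if_pos rfl] at h00 h11 h22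
  rw [if_neg (by decide)] at h01 h02 h10 h12 h20 h21
  have h0 := T.ν_zero
  have e1 : T.ν 1 = (2 / Real.sqrt 3) • T.e 0 - T.ν 0 := T.ν_succ 0
  have e2 : T.ν 2 = (2 / Real.sqrt 3) • T.e 1 - T.ν 0 := T.ν_succ 1
  have e3 : T.ν 3 = (2 / Real.sqrt 3) • T.e 2 - T.ν 0 := T.ν_succ 2
  unfold Tet.f Tet.Y
  rw [add_sub_cancel_left]
  congr 1
  fin_cases i
  · change ⟪T.ν 0, _⟫ = _
    rw [h0]
    simp only [inner_smul_left, inner_smul_right, inner_add_left, inner_add_right, conj_trivial,
      h00, h01, h02, h10, h11, h12, h20, h21, h22, Fin.sum_univ_three]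
    simp [H349R2.Tet.nv]
    ring
  · change ⟪T.ν 1, _⟫ = _
    rw [e1, h0, hq]
    simp only [inner_smul_left, inner_smul_right, inner_add_left, inner_add_right, conj_trivial,
      inner_sub_left, h00, h01, h02, h10, h11, h12, h20, h21, h22, Fin.sum_univ_three]
    simp [H349R2.Tet.nv]
    ring
  · change ⟪T.ν 2, _⟫ = _
    rw [e2, h0, hq]
    simp only [inner_smul_left, inner_smul_right, inner_add_left, inner_add_right, conj_trivial,
      inner_sub_left, h00, h01, h02, h10, h11, h12, h20, h21, h22, Fin.sum_univ_three]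
    simp [H349R2.Tet.nv]
    ring
  · change ⟪T.ν 3, _⟫ = _
    rw [e3, h0, hq]
    simp only [inner_smul_left, inner_smul_right, inner_add_left, inner_add_right, conj_trivial,
      inner_sub_left, h00, h01, h02, h10, h11, h12, h20, h21, h22, Fin.sum_univ_three]
    simp [H349R2.Tet.nv]
    ring

/-- the volume of the regular tetrahedron of inradius one -/
theorem Tet.volume_S (T : Tet) : volume T.S = ENNReal.ofReal (8 * Real.sqrt 3) := by
  have hs : Real.sqrt 3 * Real.sqrt 3 = 3 := Real.mul_self_sqrt (by norm_num)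
  have hs0 : 0 < Real.sqrt 3 := Real.sqrt_pos.2 (by norm_num)
  rw [← T.Y_mp.measure_preimage T.isClosed_S.measurableSet.nullMeasurableSet]
  have h1 : T.Y ⁻¹' T.S = (fun x : Fin 3 → ℝ => (-(1 / (2 * Real.sqrt 3))) • x) ⁻¹'
      H349R2.Tet.T := by
    ext a
    simp only [Set.mem_preimage]
    change (∀ i, T.f i (T.Y a) ≤ 0) ↔ ∀ i, 0 ≤ H349R2.Tet.lam i _
    refine forall_congr' fun i => ?_
    rw [T.f_Y]
    unfold H349R2.Tet.lam
    have e : (∑ j, H349R2.Tet.nv i j * ((-(1 / (2 * Real.sqrt 3))) • a) j) =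
        -(1 / (2 * Real.sqrt 3)) * ∑ j, H349R2.Tet.nv i j * a j := by
      rw [Finset.mul_sum]
      refine Finset.sum_congr rfl fun j _ => ?_
      rw [Pi.smul_apply, smul_eq_mul]; ring
    rw [e]
    set s := ∑ j, H349R2.Tet.nv i j * a j with hsdef
    have hq : 1 / (2 * Real.sqrt 3) = Real.sqrt 3 / 6 := by
      field_simp
      linarith
    rw [hq]
    constructor
    · intro h
      linarith
    · intro h
      linarith
  rw [h1, Measure.addHaar_preimage_smul volume (by
    rw [neg_ne_zero]; positivity), H349R2.Tet.vol_T', ← ENNReal.ofReal_mul (by positivity)]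
  congr 1
  rw [Module.finrank_fin_fun, abs_inv, abs_pow, abs_neg, abs_of_pos (by positivity)]
  field_simp
  nlinarith

theorem Tet.volume_S_le (T : Tet) : volume T.S ≤ ENNReal.ofReal (13857 / 1000) := by
  rw [T.volume_S]
  apply ENNReal.ofReal_le_ofReal
  have h : Real.sqrt 3 ≤ 173206 / 100000 := by
    rw [Real.sqrt_le_left (by norm_num)]
    norm_num
  linarith

end Pool.Agent.H771
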