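import Pool.Agent.H771.Edge
import Pool.Agent.H771.VolTet

/-!
# From local uncovered volume to a density bound
-/

namespace Pool.Agent.H771

open MeasureTheory Filter
open scoped RealInnerProductSpace ENNReal Topology

theorem Tet.interior_S (T : Tet) : interior T.S = {y | ∀ k, T.f k y < 0} := by
  ext y
  constructor
  · intro hy k
    have hmem : y ∈ T.S := interior_subset hy
    rcases lt_or_eq_of_le (hmem k) with h | h
    · exact h
    · exfalso
      obtain ⟨ε, hε, hball⟩ := Metric.isOpen_iff.1 isOpen_interior y hy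
      have h1 : y + (ε / 2) • T.ν k ∈ interior T.S := by
        apply hball
        rw [Metric.mem_ball, dist_eq_norm, add_sub_cancel_left, norm_smul, T.n1,
          Real.norm_eq_abs, abs_of_pos (by linarith)]
        linarith
      have h2 := (interior_subset h1 : _ ∈ T.S) k
      rw [T.f_add, h, inner_smul_right, T.nn] at h2
      linarith
  · intro h
    exact T.interior_sub h

theorem Tet.volume_interior_inter (T : Tet) (B : Set E3) :
    volume (T.S ∩ B) ≤ volume (interior T.S ∩ B) := by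
  have h0 : volume (frontier T.S) = 0 := T.convex_S.addHaar_frontier volume
  have h1 : T.S ∩ B ⊆ (interior T.S ∩ B) ∪ frontier T.S := by
    intro y hy
    by_cases h : y ∈ interior T.S
    · exact Or.inl ⟨h, hy.2⟩
    · right
      rw [frontier, T.isClosed_S.closure_eq]
      exact ⟨hy.1, h⟩
  calc volume (T.S ∩ B) ≤ volume ((interior T.S ∩ B) ∪ frontier T.S) := measure_mono h1
    _ ≤ volume (interior T.S ∩ B) + volume (frontier T.S) := measure_union_le _ _
    _ = volume (interior T.S ∩ B) := by rw [h0, add_zero]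

variable {ι : Type*}

theorem Fam.int_disj (F : Fam ι) {i j : ι} (h : i ≠ j) :
    Disjoint (interior (F.T i).S) (interior (F.T j).S) := by
  rw [Set.disjoint_left]
  intro y h1 h2
  rw [Tet.interior_S] at h1 h2
  exact F.dis i j h y h1 h2

/-- the members and the uncovered set inside a region -/
theorem Fam.sum_add_le (F : Fam ι) (s : Finset ι) {B : Set E3}
    (hB : MeasurableSet B) {U : Set E3} (hU : MeasurableSet U) (hUF : U ⊆ F.U) :
    ∑ i ∈ s, volume ((F.T i).S ∩ B) + volume (U ∩ B) ≤ volume B := by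
  have h1 : ∑ i ∈ s, volume ((F.T i).S ∩ B) ≤
      volume (⋃ i ∈ s, (interior (F.T i).S ∩ B)) := by
    rw [measure_biUnion_finset]
    · exact Finset.sum_le_sum fun i _ => (F.T i).volume_interior_inter B
    · intro i _ j _ hij
      exact (F.int_disj hij).mono Set.inter_subset_left Set.inter_subset_left
    · intro i _
      exact isOpen_interior.measurableSet.inter hB
  have h2 : Disjoint (⋃ i ∈ s, (interior (F.T i).S ∩ B)) (U ∩ B) := by
    rw [Set.disjoint_left]
    intro y hy hyU
    simp only [Set.mem_iUnion] at hy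
    obtain ⟨i, -, hy1, -⟩ := hy
    exact hUF hyU.1 i (interior_subset hy1)
  calc ∑ i ∈ s, volume ((F.T i).S ∩ B) + volume (U ∩ B)
      ≤ volume (⋃ i ∈ s, (interior (F.T i).S ∩ B)) + volume (U ∩ B) := by gcongr
    _ = volume ((⋃ i ∈ s, (interior (F.T i).S ∩ B)) ∪ (U ∩ B)) :=
        (measure_union h2 (hU.inter hB)).symm
    _ ≤ volume B := by
        refine measure_mono (Set.union_subset ?_ Set.inter_subset_right)
        exact Set.iUnion₂_subset fun i _ => Set.inter_subset_right

theorem Fam.tsum_add_le [Countable ι] (F : Fam ι) {B : Set E3} (hB : MeasurableSet B) :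
    ∑' i, volume ((F.T i).S ∩ B) + volume (F.U ∩ B) ≤ volume B := by
  rw [ENNReal.tsum_eq_iSup_sum, ENNReal.iSup_add]
  exact iSup_le fun s => F.sum_add_le s hB F.U_meas le_rfl

/-- members inside a region of finite volume -/
theorem Fam.card_le (F : Fam ι) (s : Finset ι) {B : Set E3} (hB : MeasurableSet B)
    (h : ∀ i ∈ s, (F.T i).S ⊆ B) :
    (s.card : ℝ≥0∞) * ENNReal.ofReal (8 * Real.sqrt 3) ≤ volume B := by
  have h1 := F.sum_add_le s hB MeasurableSet.empty (Set.empty_subset _)
  rw [Set.empty_inter, measure_empty, add_zero] at h1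
  refine le_trans (le_of_eq ?_) h1
  have h2 : ∀ i ∈ s, volume ((F.T i).S ∩ B) = ENNReal.ofReal (8 * Real.sqrt 3) := by
    intro i hi
    rw [Set.inter_eq_left.2 (h i hi), Tet.volume_S]
  rw [Finset.sum_congr rfl h2, Finset.sum_const, nsmul_eq_mul]

/-- multiplicity bound -/
theorem tsum_inter_le [Countable ι] (Z : ι → Set E3) (hZ : ∀ i, MeasurableSet (Z i))
    (M : ℕ) (hM : ∀ P, ∀ s : Finset ι, (∀ i ∈ s, P ∈ Z i) → s.card ≤ M) {U B : Set E3}
    (hB : MeasurableSet B) (hZB : ∀ i, Z i ⊆ B) :
    ∑' i, volume (U ∩ Z i) ≤ M * volume (U ∩ B) := by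
  classical
  have h1 : ∀ i, volume (U ∩ Z i) = ∫⁻ y in U ∩ B, (Z i).indicator 1 y := by
    intro i
    rw [lintegral_indicator_one (hZ i), Measure.restrict_apply (hZ i)]
    congr 1
    ext y
    constructor
    · rintro ⟨h1, h2⟩
      exact ⟨h2, h1, hZB i h2⟩
    · rintro ⟨h1, h2, _⟩
      exact ⟨h2, h1⟩
  rw [tsum_congr h1, ← lintegral_tsum (fun i => (measurable_one.indicator (hZ i)).aemeasurable)]
  calc ∫⁻ y in U ∩ B, ∑' i, (Z i).indicator 1 y ≤ ∫⁻ _ in U ∩ B, (M : ℝ≥0∞) := by
        refine lintegral_mono fun y => ?_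
        rw [ENNReal.tsum_eq_iSup_sum]
        refine iSup_le fun s => ?_
        have h2 : ∑ i ∈ s, (Z i).indicator (1 : E3 → ℝ≥0∞) y =
            ((s.filter fun i => y ∈ Z i).card : ℝ≥0∞) := by
          rw [Finset.card_filter, Nat.cast_sum]
          refine Finset.sum_congr rfl fun i _ => ?_
          by_cases h : y ∈ Z i
          · rw [Set.indicator_of_mem h, if_pos h]; simp
          · rw [Set.indicator_of_notMem h, if_neg h]; simp
        rw [h2]
        exact_mod_cast hM y _ fun i hi => (Finset.mem_filter.1 hi).2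
    _ = M * volume (U ∩ B) := by rw [lintegral_const, Measure.restrict_apply_univ]

theorem real_bound {a u b K : ℝ} (hK : 0 ≤ K) (h1 : a ≤ K * u) (h2 : a + u ≤ b) :
    a ≤ K / (1 + K) * b := by
  rw [div_mul_eq_mul_div, le_div_iff₀ (by linarith)]
  nlinarith

/-- the quantity whose upper limit is the density -/
noncomputable def Fam.ratio (F : Fam ι) (r : ℝ) : ℝ≥0∞ :=
  (∑' i, volume ((F.T i).S ∩ Metric.closedBall 0 r)) / volume (Metric.closedBall (0 : E3) r)

theorem Fam.sum_near [Countable ι] (F : Fam ι) {v0 : ℝ} (hv0 : 0 < v0) (Z : ι → Set E3)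
    (hZ : ∀ i, MeasurableSet (Z i)) (hZv : ∀ i, ENNReal.ofReal v0 ≤ volume (F.U ∩ Z i))
    (hZb : ∀ i, Z i ⊆ Metric.closedBall (F.T i).g 4) (M : ℕ)
    (hM : ∀ P, ∀ s : Finset ι, (∀ i ∈ s, P ∈ Z i) → s.card ≤ M) (r : ℝ) :
    ∑' i, volume ((F.T i).S ∩ Metric.closedBall 0 r) ≤
      ENNReal.ofReal (M * (8 * Real.sqrt 3) / v0) *
        volume (F.U ∩ Metric.closedBall (0 : E3) (r + 7)) := by
  classical
  set V : ℝ := 8 * Real.sqrt 3 with hV
  have hV0 : 0 ≤ V := by positivity
  set Z' : ι → Set E3 := fun i =>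
    if ((F.T i).S ∩ Metric.closedBall 0 r).Nonempty then Z i else ∅ with hZ'
  have hZ'm : ∀ i, MeasurableSet (Z' i) := by
    intro i
    by_cases h : ((F.T i).S ∩ Metric.closedBall 0 r).Nonempty
    · simp only [hZ', if_pos h]; exact hZ i
    · simp only [hZ', if_neg h]; exact MeasurableSet.empty
  have hZ'B : ∀ i, Z' i ⊆ Metric.closedBall (0 : E3) (r + 7) := by
    intro i
    by_cases h : ((F.T i).S ∩ Metric.closedBall 0 r).Nonempty
    · simp only [hZ', if_pos h]
      obtain ⟨y, hy1, hy2⟩ := h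
      refine (hZb i).trans ?_
      intro p hp
      rw [Metric.mem_closedBall, dist_eq_norm] at hp
      rw [mem_closedBall_zero_iff] at hy2 ⊢
      have h1 := (F.T i).norm_sub_g hy1
      rw [norm_sub_rev] at h1
      have h2 := norm_add_le (p - (F.T i).g) (((F.T i).g - y) + y)
      have h3 := norm_add_le ((F.T i).g - y) y
      have e : (p - (F.T i).g) + (((F.T i).g - y) + y) = p := by abel
      rw [e] at h2
      linarith
    · simp only [hZ', if_neg h]; exact Set.empty_subset _
  have hZ'M : ∀ P, ∀ s : Finset ι, (∀ i ∈ s, P ∈ Z' i) → s.card ≤ M := by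
    intro P s hs
    refine hM P s fun i hi => ?_
    have h1 := hs i hi
    by_cases h : ((F.T i).S ∩ Metric.closedBall 0 r).Nonempty
    · simpa only [hZ', if_pos h] using h1
    · simp only [hZ', if_neg h] at h1
      exact absurd h1 (Set.notMem_empty _)
  have h1 := tsum_inter_le Z' hZ'm M hZ'M (U := F.U) Metric.isClosed_closedBall.measurableSet hZ'B
  have h2 : ∀ i, volume ((F.T i).S ∩ Metric.closedBall 0 r) ≤
      ENNReal.ofReal (V / v0) * volume (F.U ∩ Z' i) := by
    intro i
    by_cases h : ((F.T i).S ∩ Metric.closedBall 0 r).Nonempty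
    · simp only [hZ', if_pos h]
      calc volume ((F.T i).S ∩ Metric.closedBall 0 r) ≤ volume (F.T i).S :=
            measure_mono Set.inter_subset_left
        _ = ENNReal.ofReal V := (F.T i).volume_S
        _ = ENNReal.ofReal (V / v0) * ENNReal.ofReal v0 := by
            rw [← ENNReal.ofReal_mul (by positivity)]
            congr 1
            field_simp
        _ ≤ _ := by gcongr; exact hZv i
    · rw [Set.not_nonempty_iff_eq_empty.1 h, measure_empty]
      exact zero_le
  calc ∑' i, volume ((F.T i).S ∩ Metric.closedBall 0 r)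
      ≤ ∑' i, ENNReal.ofReal (V / v0) * volume (F.U ∩ Z' i) := ENNReal.tsum_le_tsum h2
    _ = ENNReal.ofReal (V / v0) * ∑' i, volume (F.U ∩ Z' i) := ENNReal.tsum_mul_left
    _ ≤ ENNReal.ofReal (V / v0) * (M * volume (F.U ∩ Metric.closedBall (0 : E3) (r + 7))) := by
        gcongr
    _ = _ := by
        rw [← mul_assoc]
        congr 1
        rw [← ENNReal.ofReal_natCast, ← ENNReal.ofReal_mul (by positivity)]
        congr 1
        ring

/-- the density bound -/
theorem Fam.limsup_le [Countable ι] (F : Fam ι) {v0 : ℝ} (hv0 : 0 < v0) (Z : ι → Set E3)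
    (hZ : ∀ i, MeasurableSet (Z i)) (hZv : ∀ i, ENNReal.ofReal v0 ≤ volume (F.U ∩ Z i))
    (hZb : ∀ i, Z i ⊆ Metric.closedBall (F.T i).g 4) (M : ℕ)
    (hM : ∀ P, ∀ s : Finset ι, (∀ i ∈ s, P ∈ Z i) → s.card ≤ M) :
    limsup F.ratio atTop ≤
      ENNReal.ofReal (M * (8 * Real.sqrt 3) / (M * (8 * Real.sqrt 3) + v0)) := by
  set V : ℝ := 8 * Real.sqrt 3 with hV
  have hV0 : 0 ≤ V := by positivity
  set K : ℝ := M * V / v0 with hK
  have hK0 : 0 ≤ K := by positivity
  have hKq : M * V / (M * V + v0) = K / (1 + K) := by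
    rw [hK]
    have : 0 ≤ (M : ℝ) * V := by positivity
    field_simp
    ring
  have hb1 : volume (Metric.ball (0 : E3) 1) ≠ ∞ := measure_ball_lt_top.ne
  have hb0 : volume (Metric.ball (0 : E3) 1) ≠ 0 :=
    (Metric.measure_ball_pos volume 0 one_pos).ne'
  set β : ℝ := (volume (Metric.ball (0 : E3) 1)).toReal with hβ
  have hβ0 : 0 < β := ENNReal.toReal_pos hb0 hb1
  have hvol : ∀ r : ℝ, 0 ≤ r → volume (Metric.closedBall (0 : E3) r) =
      ENNReal.ofReal (r ^ 3 * β) := by
    intro r hr
    rw [Measure.addHaar_closedBall _ _ hr, finrank_euclideanSpace_fin,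
      ENNReal.ofReal_mul (by positivity), hβ, ENNReal.ofReal_toReal hb1]
  have key : ∀ r : ℝ, 0 < r → F.ratio r ≤ ENNReal.ofReal (K / (1 + K) * ((r + 7) ^ 3 / r ^ 3)) := by
    intro r hr
    set A := ∑' i, volume ((F.T i).S ∩ Metric.closedBall 0 r) with hA
    set B := Metric.closedBall (0 : E3) (r + 7) with hBdef
    have hB : volume B = ENNReal.ofReal ((r + 7) ^ 3 * β) := hvol _ (by linarith)
    have h1 := F.sum_near hv0 Z hZ hZv hZb M hM r
    have h2 := F.tsum_add_le (B := B) Metric.isClosed_closedBall.measurableSet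
    have h3 : A ≤ ∑' i, volume ((F.T i).S ∩ B) := by
      refine ENNReal.tsum_le_tsum fun i => measure_mono ?_
      exact Set.inter_subset_inter_right _ (Metric.closedBall_subset_closedBall (by linarith))
    have h4 : A + volume (F.U ∩ B) ≤ volume B := le_trans (by gcongr) h2
    have hBt : volume B ≠ ∞ := by rw [hB]; exact ENNReal.ofReal_ne_top
    have hAt : A ≠ ∞ := ne_top_of_le_ne_top hBt (le_trans le_self_add h4)
    have hUt : volume (F.U ∩ B) ≠ ∞ := ne_top_of_le_ne_top hBt (le_trans le_add_self h4)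
    have g1 : A.toReal ≤ K * (volume (F.U ∩ B)).toReal := by
      have := ENNReal.toReal_mono (ENNReal.mul_ne_top ENNReal.ofReal_ne_top hUt) h1
      rwa [ENNReal.toReal_mul, ENNReal.toReal_ofReal hK0] at this
    have g2 : A.toReal + (volume (F.U ∩ B)).toReal ≤ (r + 7) ^ 3 * β := by
      have := ENNReal.toReal_mono hBt h4
      rwa [ENNReal.toReal_add hAt hUt, hB, ENNReal.toReal_ofReal (by positivity)] at this
    have g3 := real_bound hK0 g1 g2
    have hr3 : 0 < r ^ 3 * β := by positivity
    unfold Fam.ratio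
    rw [← hA, hvol r hr.le, ← ENNReal.ofReal_toReal hAt, ← ENNReal.ofReal_div_of_pos hr3]
    apply ENNReal.ofReal_le_ofReal
    rw [div_le_iff₀ hr3]
    refine g3.trans (le_of_eq ?_)
    field_simp
  have hlim : Tendsto (fun r : ℝ => ENNReal.ofReal (K / (1 + K) * ((r + 7) ^ 3 / r ^ 3))) atTop
      (𝓝 (ENNReal.ofReal (K / (1 + K)))) := by
    apply ENNReal.tendsto_ofReal
    have h1 : Tendsto (fun r : ℝ => K / (1 + K) * (1 + 7 * r⁻¹) ^ 3) atTop
        (𝓝 (K / (1 + K) * (1 + 7 * 0) ^ 3)) :=
      (((tendsto_inv_atTop_zero.const_mul 7).const_add 1).pow 3).const_mul _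
    have e1 : K / (1 + K) * (1 + 7 * 0) ^ 3 = K / (1 + K) := by ring
    rw [e1] at h1
    refine h1.congr' ?_
    filter_upwards [eventually_gt_atTop 0] with r hr
    congr 1
    rw [← div_pow]
    congr 1
    field_simp
  rw [hKq]
  calc limsup F.ratio atTop ≤
      limsup (fun r : ℝ => ENNReal.ofReal (K / (1 + K) * ((r + 7) ^ 3 / r ^ 3))) atTop := by
        refine limsup_le_limsup ?_
        filter_upwards [eventually_gt_atTop 0] with r hr
        exact key r hr
    _ = ENNReal.ofReal (K / (1 + K)) := hlim.limsup_eq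

end Pool.Agent.H771
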