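import Pool.Agent.H771.Glob

/-!
# Regular tetrahedra as convex hulls, isometric copies and scaling
-/

namespace Pool.Agent.H771

open MeasureTheory Filter
open scoped RealInnerProductSpace ENNReal Pointwise

/-- the vertices -/
noncomputable def Tet.v (T : Tet) (i : Fin 4) : E3 := T.g - (3 : ℝ) • T.ν i

theorem Tet.v_mem (T : Tet) (i : Fin 4) : T.v i ∈ T.S := by
  intro k
  unfold Tet.f Tet.v
  rw [sub_sub_cancel_left, inner_neg_right, inner_smul_right]
  by_cases h : k = i
  · rw [h, T.nn]; norm_num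
  · rw [T.n3 k i h]; norm_num

theorem Tet.S_eq_hull (T : Tet) : T.S = convexHull ℝ (Set.range T.v) := by
  apply Set.Subset.antisymm
  · intro y hy
    have h1 : ∑ i, (-(T.f i y) / 4) • T.v i = y := by
      have e1 : ∀ i, (-(T.f i y) / 4) • T.v i = (-(T.f i y) / 4) • T.g +
          (3 / 4 : ℝ) • (⟪T.ν i, y - T.g⟫ • T.ν i - T.ν i) := by
        intro i
        unfold Tet.v Tet.f
        rw [smul_sub, smul_smul, smul_sub, smul_smul, sub_eq_add_neg, ← neg_smul]
        congr 1
        rw [← sub_smul]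
        congr 1
        ring
      simp only [e1]
      rw [Finset.sum_add_distrib, ← Finset.sum_smul, ← Finset.smul_sum, Finset.sum_sub_distrib,
        T.vec_frame, T.sum_ν, sub_zero, smul_smul]
      have e2 : ∑ i, -(T.f i y) / 4 = 1 := by
        rw [← Finset.sum_div, Finset.sum_neg_distrib, T.sum_f]; norm_num
      rw [e2, one_smul, show (3 / 4 * (4 / 3) : ℝ) = 1 by norm_num, one_smul]
      abel
    rw [← h1]
    refine (convex_convexHull ℝ _).sum_mem (fun i _ => ?_) ?_ (fun i _ => ?_)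
    · have := hy i
      linarith
    · rw [← Finset.sum_div, Finset.sum_neg_distrib, T.sum_f]; norm_num
    · exact subset_convexHull ℝ _ (Set.mem_range_self i)
  · refine convexHull_min ?_ T.convex_S
    rintro _ ⟨i, rfl⟩
    exact T.v_mem i

/-- the inner products at the centroid -/
theorem centroid_inner (v : Fin 4 → E3) {a : ℝ} (hv : ∀ i j, i ≠ j → dist (v i) (v j) = a)
    (i j : Fin 4) : ⟪(∑ k, (v i - v k)), (∑ k, (v j - v k))⟫ =
      if i = j then 6 * a ^ 2 else -(2 * a ^ 2) := by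
  have hd : ∀ i k l : Fin 4, ⟪v i - v k, v i - v l⟫ =
      (‖v i - v k‖ ^ 2 + ‖v i - v l‖ ^ 2 - ‖v k - v l‖ ^ 2) / 2 := by
    intro i k l
    have h := norm_sub_sq_real (v i - v k) (v i - v l)
    have e : v i - v k - (v i - v l) = -(v k - v l) := by abel
    rw [e, norm_neg] at h
    linarith
  have hn : ∀ k l : Fin 4, ‖v k - v l‖ ^ 2 = if k = l then 0 else a ^ 2 := by
    intro k l
    by_cases h : k = l
    · rw [if_pos h, h, sub_self, norm_zero]; norm_num
    · rw [if_neg h, ← dist_eq_norm, hv k l h]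
  -- reduce to a common base point
  have e1 : ∀ j : Fin 4, ∑ k, (v j - v k) = (4 : ℝ) • (v j - v 0) + ∑ k, (v 0 - v k) := by
    intro j
    rw [Finset.sum_sub_distrib, Finset.sum_sub_distrib, Finset.sum_const, Finset.sum_const,
      Finset.card_univ, Fintype.card_fin, ← Nat.cast_smul_eq_nsmul ℝ 4,
      ← Nat.cast_smul_eq_nsmul ℝ 4, smul_sub]
    push_cast
    abel
  have e2 : ∀ j : Fin 4, ∑ k, (v j - v k) =
      -((4 : ℝ) • (v 0 - v j)) + ∑ k, (v 0 - v k) := by
    intro j
    rw [e1 j, ← smul_neg, neg_sub]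
  rw [e2 i, e2 j]
  simp only [inner_add_left, inner_add_right, inner_neg_left, inner_neg_right, inner_smul_left,
    inner_smul_right, conj_trivial, sum_inner, inner_sum, hd, hn, Fin.sum_univ_four]
  fin_cases i <;> fin_cases j <;> simp <;> ring

/-- the tetrahedron with given vertices at mutual distance `2 √6` -/
noncomputable def mkTet (v : Fin 4 → E3) (hv : ∀ i j, i ≠ j → dist (v i) (v j) = 2 * Real.sqrt 6) :
    Tet where
  g := (1 / 4 : ℝ) • ∑ k, v k
  ν i := (-(1 / 12) : ℝ) • ∑ k, (v i - v k)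
  n1 i := by
    have h := centroid_inner v hv i i
    rw [if_pos rfl, real_inner_self_eq_norm_sq, mul_pow, Real.sq_sqrt (by norm_num)] at h
    rw [norm_smul, Real.norm_eq_abs, abs_neg, abs_of_pos (by norm_num)]
    have h2 : ‖∑ k, (v i - v k)‖ = 12 := by
      have h3 := norm_nonneg (∑ k, (v i - v k))
      nlinarith
    rw [h2]; norm_num
  n3 i j hij := by
    have h := centroid_inner v hv i j
    rw [if_neg hij, mul_pow, Real.sq_sqrt (by norm_num)] at h
    rw [inner_smul_left, inner_smul_right, h]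
    simp
    norm_num

theorem mkTet_v (v : Fin 4 → E3) (hv : ∀ i j, i ≠ j → dist (v i) (v j) = 2 * Real.sqrt 6)
    (i : Fin 4) : (mkTet v hv).v i = v i := by
  change (1 / 4 : ℝ) • ∑ k, v k - (3 : ℝ) • ((-(1 / 12) : ℝ) • ∑ k, (v i - v k)) = v i
  rw [Finset.sum_sub_distrib, Finset.sum_const, Finset.card_univ, Fintype.card_fin,
    ← Nat.cast_smul_eq_nsmul ℝ 4, smul_smul, smul_sub, smul_smul]
  push_cast
  have e1 : ((3 : ℝ) * (-(1 / 12)) * 4) = -1 := by norm_num
  have e2 : ((3 : ℝ) * (-(1 / 12))) = -(1 / 4) := by norm_num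
  rw [e1, e2, neg_smul, neg_smul, one_smul]
  abel

theorem mkTet_S (v : Fin 4 → E3) (hv : ∀ i j, i ≠ j → dist (v i) (v j) = 2 * Real.sqrt 6) :
    (mkTet v hv).S = convexHull ℝ (Set.range v) := by
  rw [Tet.S_eq_hull]
  congr 2
  funext i
  exact mkTet_v v hv i

theorem iso_image_hull (φ : E3 ≃ᵢ E3) (v : Fin 4 → E3) :
    φ '' (convexHull ℝ (Set.range v)) = convexHull ℝ (Set.range fun i => φ (v i)) := by
  have h := AffineMap.image_convexHull (φ.toRealAffineIsometryEquiv.toAffineEquiv : E3 →ᵃ[ℝ] E3)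
    (Set.range v)
  have e : ((φ.toRealAffineIsometryEquiv.toAffineEquiv : E3 →ᵃ[ℝ] E3) : E3 → E3) = φ := by
    funext x
    simp
  rw [e] at h
  rw [h, ← Set.range_comp]
  rfl

theorem smul_hull (c : ℝ) (v : Fin 4 → E3) :
    c • (convexHull ℝ (Set.range v)) = convexHull ℝ (Set.range fun i => c • v i) := by
  have h := (convexHull_smul c (Set.range v)).symm
  rw [h]
  congr 1
  ext x
  simp [Set.mem_smul_set]

end Pool.Agent.H771
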