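import Mathlib

/-!
# The real inner product of the complex plane; six vectors in the plane
-/

namespace Pool.Agent.H771

open Complex

/-- the real inner product of the complex plane -/
def ip (a b : ℂ) : ℝ := a.re * b.re + a.im * b.im

theorem ip_comm (a b : ℂ) : ip a b = ip b a := by unfold ip; ring

theorem ip_add_right (a b c : ℂ) : ip a (b + c) = ip a b + ip a c := by
  simp only [ip, add_re, add_im]; ring

theorem ip_sub_right (a b c : ℂ) : ip a (b - c) = ip a b - ip a c := by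
  simp only [ip, sub_re, sub_im]; ring

theorem ip_add_left (a b c : ℂ) : ip (a + b) c = ip a c + ip b c := by
  simp only [ip, add_re, add_im]; ring

theorem ip_sub_left (a b c : ℂ) : ip (a - b) c = ip a c - ip b c := by
  simp only [ip, sub_re, sub_im]; ring

theorem ip_smul_right (a b : ℂ) (t : ℝ) : ip a ((t : ℂ) * b) = t * ip a b := by
  simp [ip]; ring

theorem ip_smul_left (a b : ℂ) (t : ℝ) : ip ((t : ℂ) * a) b = t * ip a b := by
  simp [ip]; ring

theorem ip_neg_right (a b : ℂ) : ip a (-b) = -ip a b := by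
  simp [ip]; ring

theorem ip_neg_left (a b : ℂ) : ip (-a) b = -ip a b := by
  simp [ip]; ring

theorem ip_zero_right (a : ℂ) : ip a 0 = 0 := by simp [ip]

theorem norm_sq_ip (a : ℂ) : ‖a‖ ^ 2 = ip a a := by
  rw [← Complex.normSq_eq_norm_sq, Complex.normSq_apply]
  rfl

theorem ip_I_self (d : ℂ) : ip d (I * d) = 0 := by
  simp only [ip, mul_re, mul_im, I_re, I_im]; ring

theorem ip_I_I (a b : ℂ) : ip (I * a) (I * b) = ip a b := by
  simp only [ip, mul_re, mul_im, I_re, I_im]; ring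

theorem ip_I_left (a b : ℂ) : ip (I * a) b = -ip a (I * b) := by
  simp only [ip, mul_re, mul_im, I_re, I_im]; ring

theorem ip_le (a b : ℂ) : ip a b ≤ ‖a‖ * ‖b‖ := by
  have h1 := norm_sq_ip a
  have h2 := norm_sq_ip b
  have h3 : ip a b ^ 2 ≤ (‖a‖ * ‖b‖) ^ 2 := by
    rw [mul_pow, h1, h2]
    unfold ip
    nlinarith [sq_nonneg (a.re * b.im - a.im * b.re)]
  exact le_of_sq_le_sq_nonneg' h3 (by positivity)
where
  le_of_sq_le_sq_nonneg' {x y : ℝ} (h : x ^ 2 ≤ y ^ 2) (hy : 0 ≤ y) : x ≤ y := by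
    nlinarith [sq_nonneg (x - y), sq_nonneg (x + y)]

theorem abs_ip_le (a b : ℂ) : |ip a b| ≤ ‖a‖ * ‖b‖ := by
  rw [abs_le]
  constructor
  · have := ip_le (-a) b
    rw [ip_neg_left, norm_neg] at this
    linarith
  · exact ip_le a b

/-- expansion in the orthonormal frame `d`, `I * d` -/
theorem ip_expand (a b d : ℂ) (hd : ‖d‖ = 1) :
    ip a b = ip a d * ip b d + ip a (I * d) * ip b (I * d) := by
  have h : ip d d = 1 := by rw [← norm_sq_ip, hd]; norm_num
  have : ip a d * ip b d + ip a (I * d) * ip b (I * d) = ip a b * ip d d := by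
    simp [ip]; ring
  rw [this, h, mul_one]

theorem norm_sq_expand (a d : ℂ) (hd : ‖d‖ = 1) :
    ‖a‖ ^ 2 = ip a d ^ 2 + ip a (I * d) ^ 2 := by
  rw [norm_sq_ip, ip_expand a a d hd]; ring

theorem eq_expand (a d : ℂ) (hd : ‖d‖ = 1) :
    a = ((ip a d : ℝ) : ℂ) * d + ((ip a (I * d) : ℝ) : ℂ) * (I * d) := by
  have h : d.re * d.re + d.im * d.im = 1 := by
    have := norm_sq_ip d
    rw [hd] at this
    unfold ip at this
    linarith
  apply Complex.ext
  · simp [ip]
    linear_combination (-a.re) * h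
  · simp [ip]
    linear_combination (-a.im) * h

theorem ip_self_unit (d : ℂ) (hd : ‖d‖ = 1) : ip d d = 1 := by
  rw [← norm_sq_ip, hd]; norm_num

theorem ip_Id_Id (d : ℂ) (hd : ‖d‖ = 1) : ip (I * d) (I * d) = 1 := by
  rw [ip_I_I, ip_self_unit d hd]

/-- for an angle of at most sixty degrees the distance is at most the larger norm -/
theorem close_of_cos (z z' : ℂ) (h : ‖z‖ * ‖z'‖ ≤ 2 * ip z z') :
    ‖z - z'‖ ≤ max ‖z‖ ‖z'‖ := by
  have h1 : ‖z - z'‖ ^ 2 = ‖z‖ ^ 2 + ‖z'‖ ^ 2 - 2 * ip z z' := by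
    rw [norm_sq_ip, norm_sq_ip, norm_sq_ip]
    simp only [ip, sub_re, sub_im]; ring
  have h2 : ‖z - z'‖ ^ 2 ≤ (max ‖z‖ ‖z'‖) ^ 2 := by
    rw [h1]
    have ha := norm_nonneg z
    have hb := norm_nonneg z'
    rcases le_total ‖z‖ ‖z'‖ with h3 | h3
    · rw [max_eq_right h3]; nlinarith
    · rw [max_eq_left h3]; nlinarith
  have h3 : 0 ≤ max ‖z‖ ‖z'‖ := le_max_of_le_left (norm_nonneg _)
  nlinarith [norm_nonneg (z - z')]

theorem ip_eq_arg (z z' : ℂ) :
    ip z z' = ‖z‖ * ‖z'‖ * Real.cos (arg z - arg z') := by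
  rw [Real.cos_sub]
  have h1 := Complex.norm_mul_cos_arg z
  have h2 := Complex.norm_mul_sin_arg z
  have h3 := Complex.norm_mul_cos_arg z'
  have h4 := Complex.norm_mul_sin_arg z'
  unfold ip
  rw [← h1, ← h2, ← h3, ← h4]
  ring

theorem close_of_arg (z z' : ℂ) (h : |arg z - arg z'| ≤ Real.pi / 3) :
    ‖z - z'‖ ≤ max ‖z‖ ‖z'‖ := by
  apply close_of_cos
  rw [ip_eq_arg]
  have h1 : (1 : ℝ) / 2 ≤ Real.cos (arg z - arg z') := by
    rw [← Real.cos_abs, ← Real.cos_pi_div_three]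
    apply Real.cos_le_cos_of_nonneg_of_le_pi (abs_nonneg _) _ h
    linarith [Real.pi_pos]
  have h2 : 0 ≤ ‖z‖ * ‖z'‖ := by positivity
  nlinarith

/-- among six nonzero vectors in the plane there are two at distance at most the larger norm -/
theorem six_vectors (Y : Fin 6 → ℂ) (hY : ∀ i, Y i ≠ 0) :
    ∃ i j, i ≠ j ∧ ‖Y i - Y j‖ ≤ max ‖Y i‖ ‖Y j‖ := by
  by_contra hcon
  push Not at hcon
  -- divide by `Y 0`
  have hdiv : ∀ i j, ‖Y i / Y 0 - Y j / Y 0‖ ≤ max ‖Y i / Y 0‖ ‖Y j / Y 0‖ →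
      ‖Y i - Y j‖ ≤ max ‖Y i‖ ‖Y j‖ := by
    intro i j h
    have h0 : 0 < ‖Y 0‖ := norm_pos_iff.2 (hY 0)
    rw [← sub_div, norm_div, norm_div, norm_div] at h
    rcases le_max_iff.1 h with h | h
    · exact le_max_of_le_left ((div_le_div_iff_of_pos_right h0).1 h)
    · exact le_max_of_le_right ((div_le_div_iff_of_pos_right h0).1 h)
  set θ : Fin 6 → ℝ := fun i => arg (Y i / Y 0) with hθ
  have hlo : ∀ i, -Real.pi < θ i := fun i => Complex.neg_pi_lt_arg _
  have hhi : ∀ i, θ i ≤ Real.pi := fun i => Complex.arg_le_pi _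
  have h0 : θ 0 = 0 := by simp [hθ]
  have hfar : ∀ i j, i ≠ j → Real.pi / 3 < |θ i - θ j| := by
    intro i j hij
    by_contra h
    push Not at h
    exact absurd (hdiv i j (close_of_arg _ _ h)) (not_le.2 (hcon i j hij))
  have hb : ∀ i : Fin 5, Real.pi / 3 < |θ i.succ| := by
    intro i
    have := hfar i.succ 0 (Fin.succ_ne_zero i)
    rwa [h0, sub_zero] at this
  let b : Fin 5 → Fin 4 := fun i =>
    if 0 < θ i.succ then (if θ i.succ ≤ 2 * Real.pi / 3 then 0 else 1)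
    else (if -(2 * Real.pi / 3) ≤ θ i.succ then 2 else 3)
  obtain ⟨i, j, hij, hbij⟩ := Fintype.exists_ne_map_eq_of_card_lt b (by simp)
  have hij' : (i.succ : Fin 6) ≠ j.succ := fun h => hij (Fin.succ_injective _ h)
  have h1 := hfar _ _ hij'
  have h2 := hb i
  have h3 := hb j
  have h4 := hlo i.succ
  have h5 := hlo j.succ
  have h6 := hhi i.succ
  have h7 := hhi j.succ
  have hpi := Real.pi_pos
  simp only [b] at hbij
  rcases lt_abs.1 h1 with h1 | h1 <;> rcases lt_abs.1 h2 with h2 | h2 <;>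
    rcases lt_abs.1 h3 with h3 | h3 <;> split_ifs at hbij <;> first | linarith | simp at hbij

end Pool.Agent.H771
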