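import Pool.Agent.H771.Sector
import Pool.Agent.H771.Capsule

/-!
# At most five members have an edge through a given small region
-/

namespace Pool.Agent.H771

open MeasureTheory
open scoped RealInnerProductSpace ENNReal

theorem sec_neg {na nb y : ℂ} (ha : ‖na‖ = 1) (hb : ‖nb‖ = 1) (hab : ip na nb = -(1 / 3))
    {r : ℝ} (hy : y ∈ Sec (((-(Real.sqrt 3 / 2) : ℝ) : ℂ) * (na + nb)) r) :
    ip na y ≤ 0 ∧ ip nb y ≤ 0 := by
  obtain ⟨-, h1, h2⟩ := hy
  have hs : Real.sqrt 3 * Real.sqrt 3 = 3 := Real.mul_self_sqrt (by norm_num)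
  have hs0 : 0 < Real.sqrt 3 := Real.sqrt_pos.2 (by norm_num)
  rw [ip_smul_right, ip_add_right, ip_comm y, ip_comm y] at h1 h2
  have ha2 := norm_sq_ip na
  have hb2 := norm_sq_ip nb
  rw [ha] at ha2
  rw [hb] at hb2
  have hid : (ip na na * ip nb nb - ip na nb ^ 2) * ‖y‖ ^ 2 =
      ip na y ^ 2 * ip nb nb + ip nb y ^ 2 * ip na na - 2 * ip na y * ip nb y * ip na nb := by
    rw [norm_sq_ip]
    unfold ip
    ring
  rw [← ha2, ← hb2, hab] at hid
  set p := ip na y
  set q := ip nb y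
  have h3 : p + q ≤ 0 := by
    by_contra hc
    push Not at hc
    nlinarith
  have h4 : (-(Real.sqrt 3 / 2) * (p + q)) ^ 2 = 3 / 4 * (p + q) ^ 2 := by
    have : (-(Real.sqrt 3 / 2) * (p + q)) ^ 2 =
        (Real.sqrt 3 * Real.sqrt 3) / 4 * (p + q) ^ 2 := by ring
    rw [this, hs]
  rw [h4] at h2
  have h5 : 0 ≤ p * q := by nlinarith
  constructor
  · by_contra hc
    push Not at hc
    nlinarith
  · by_contra hc
    push Not at hc
    nlinarith

theorem norm_add_unit {na nb : ℂ} (ha : ‖na‖ = 1) (hb : ‖nb‖ = 1) (hab : ip na nb = -(1 / 3)) :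
    ‖((-(Real.sqrt 3 / 2) : ℝ) : ℂ) * (na + nb)‖ = 1 := by
  have hs : Real.sqrt 3 * Real.sqrt 3 = 3 := Real.mul_self_sqrt (by norm_num)
  have hs0 : 0 < Real.sqrt 3 := Real.sqrt_pos.2 (by norm_num)
  have h1 : ‖na + nb‖ ^ 2 = 4 / 3 := by
    have ha2 := norm_sq_ip na
    have hb2 := norm_sq_ip nb
    rw [ha] at ha2
    rw [hb] at hb2
    rw [norm_sq_ip, ip_add_left, ip_add_right, ip_add_right, ip_comm nb na, hab]
    linarith
  have h2 : ‖((-(Real.sqrt 3 / 2) : ℝ) : ℂ) * (na + nb)‖ ^ 2 = 1 := by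
    rw [norm_mul, mul_pow, h1, Complex.norm_real, Real.norm_eq_abs, sq_abs]
    linear_combination (1 / 3) * hs
  have h3 := norm_nonneg (((-(Real.sqrt 3 / 2) : ℝ) : ℂ) * (na + nb))
  nlinarith

theorem Tet.wedge_volume (T : Tet) {a b c d : Fin 4} (h : Dist4 a b c d) {w : ℝ} (hw : 0 < w)
    {P : E3} (hP : P ∈ T.Z w a b) :
    ENNReal.ofReal (19 / 100) * volume (Metric.closedBall (0 : E3) (459 * w)) ≤
      volume (T.S ∩ Metric.closedBall P (470 * w)) := by
  obtain ⟨h1, h2, h3, h4, h5, h6⟩ := id h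
  obtain ⟨hPa, hPb, hPk⟩ := hP
  obtain ⟨B, hB⟩ := exists_frame (T.z c d) (T.norm_z h6)
  set q : E3 := P - (9 * w) • (T.ν a + T.ν b) with hq
  have hνν : ‖T.ν a + T.ν b‖ ≤ 116 / 100 := by
    have h7 : ‖T.ν a + T.ν b‖ ^ 2 = 4 / 3 := by
      rw [← real_inner_self_eq_norm_sq, inner_add_left, inner_add_right, inner_add_right, T.nn,
        T.nn, T.n3 a b h1, T.n3 b a h1.symm]
      norm_num
    nlinarith [norm_nonneg (T.ν a + T.ν b)]
  have hqP : ‖q - P‖ ≤ 1044 / 100 * w := by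
    rw [hq, sub_sub_cancel_left, norm_neg, norm_smul, Real.norm_eq_abs,
      abs_of_pos (by positivity)]
    nlinarith
  have hfa : T.f a q ≤ 0 := by
    have e : q = P + (-(9 * w)) • (T.ν a + T.ν b) := by rw [hq, neg_smul, ← sub_eq_add_neg]
    rw [e, T.f_add, inner_smul_right, inner_add_right, T.nn, T.n3 a b h1]
    have := (abs_le.1 hPa).2
    linarith
  have hfb : T.f b q ≤ 0 := by
    have e : q = P + (-(9 * w)) • (T.ν a + T.ν b) := by rw [hq, neg_smul, ← sub_eq_add_neg]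
    rw [e, T.f_add, inner_smul_right, inner_add_right, T.nn, T.n3 b a h1.symm]
    have := (abs_le.1 hPb).2
    linarith
  -- planar normals
  set na := pr B (T.ν a) with hna
  set nb := pr B (T.ν b) with hnb
  have hza : ⟪T.ν a, B 0⟫ = (0 : ℝ) := by rw [hB]; exact T.inner_z h2 h3
  have hzb : ⟪T.ν b, B 0⟫ = (0 : ℝ) := by rw [hB]; exact T.inner_z h4 h5
  have hna1 : ‖na‖ = 1 := by
    have h7 := norm_pr_sq B (T.ν a)
    rw [T.n1, hza, ← hna] at h7
    nlinarith [norm_nonneg na]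
  have hnb1 : ‖nb‖ = 1 := by
    have h7 := norm_pr_sq B (T.ν b)
    rw [T.n1, hzb, ← hnb] at h7
    nlinarith [norm_nonneg nb]
  have hnab : ip na nb = -(1 / 3) := by
    rw [hna, hnb, ip_pr, T.n3 a b h1, hza, hzb]; ring
  set u : ℂ := ((-(Real.sqrt 3 / 2) : ℝ) : ℂ) * (na + nb) with hu
  have hu1 : ‖u‖ = 1 := norm_add_unit hna1 hnb1 hnab
  have hXn : ∀ s y, ‖X B q (s, y) - q‖ ^ 2 = s ^ 2 + ‖y‖ ^ 2 := by
    intro s y
    have h7 := norm_pr_sq B (X B q (s, y) - q)
    rw [X_pr, X_height] at h7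
    linarith
  have hvol : volume (Metric.closedBall (0 : E3) (459 * w)) =
      volume (Metric.closedBall q (459 * w)) := by
    rw [EuclideanSpace.volume_closedBall_fin_three, EuclideanSpace.volume_closedBall_fin_three]
  rw [hvol, volume_slices B q Metric.isClosed_closedBall.measurableSet, volume_slices B q
    (T.isClosed_S.measurableSet.inter Metric.isClosed_closedBall.measurableSet),
    ← lintegral_const_mul' _ _ ENNReal.ofReal_ne_top]
  refine lintegral_mono fun s => ?_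
  have hslice : {y : ℂ | X B q (s, y) ∈ Metric.closedBall q (459 * w)} =
      {y : ℂ | s ^ 2 + ‖y‖ ^ 2 ≤ (459 * w) ^ 2} := by
    ext y
    rw [Set.mem_ofPred_eq, Metric.mem_closedBall, dist_eq_norm, Set.mem_ofPred_eq, ← hXn]
    rw [pow_le_pow_iff_left₀ (norm_nonneg _) (by positivity) two_ne_zero]
  rw [hslice]
  by_cases hs : s ^ 2 ≤ (459 * w) ^ 2
  · set r := Real.sqrt ((459 * w) ^ 2 - s ^ 2) with hr
    have hr2 : r ^ 2 = (459 * w) ^ 2 - s ^ 2 := Real.sq_sqrt (by linarith)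
    have hr0 : 0 ≤ r := Real.sqrt_nonneg _
    have e : {y : ℂ | s ^ 2 + ‖y‖ ^ 2 ≤ (459 * w) ^ 2} = Metric.closedBall 0 r := by
      ext y
      rw [Set.mem_ofPred_eq, mem_closedBall_zero_iff,
        ← pow_le_pow_iff_left₀ (norm_nonneg y) hr0 two_ne_zero, hr2]
      constructor <;> intro h <;> linarith
    rw [e]
    refine (Sec_frac hu1 hr0).trans (measure_mono fun y hy => ?_)
    obtain ⟨g1, g2⟩ := sec_neg hna1 hnb1 hnab hy
    have hyr : ‖y‖ ≤ r := hy.1
    have hn : ‖X B q (s, y) - q‖ ≤ 459 * w := by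
      rw [← pow_le_pow_iff_left₀ (norm_nonneg _) (by positivity) two_ne_zero, hXn]
      have := pow_le_pow_left₀ (norm_nonneg y) hyr 2
      linarith
    have hnP : ‖X B q (s, y) - P‖ ≤ 470 * w := by
      have h7 := norm_add_le (X B q (s, y) - q) (q - P)
      rw [sub_add_sub_cancel] at h7
      linarith
    have hf : ∀ k, T.f k (X B q (s, y)) = T.f k q + s * ⟪T.ν k, B 0⟫ + ip (pr B (T.ν k)) y := by
      intro k
      unfold X
      rw [T.f_add, T.f_add, inner_smul_right, inner_hat]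
    refine ⟨fun k => ?_, ?_⟩
    · by_cases hka : k = a
      · rw [hka, hf, hza]
        linarith
      · by_cases hkb : k = b
        · rw [hkb, hf, hzb]
          linarith
        · have := hPk k hka hkb
          have := T.f_le k (X B q (s, y)) P
          linarith
    · rw [Metric.mem_closedBall, dist_eq_norm]; exact hnP
  · have e : {y : ℂ | s ^ 2 + ‖y‖ ^ 2 ≤ (459 * w) ^ 2} = ∅ := by
      ext y
      simp only [Set.mem_ofPred_eq, Set.mem_empty_iff_false, iff_false, not_le]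
      nlinarith [sq_nonneg ‖y‖]
    rw [e, measure_empty, mul_zero]
    exact zero_le

/-- the region near the edges -/
def Tet.ZZ (T : Tet) (w : ℝ) : Set E3 := {P | ∃ a b : Fin 4, a < b ∧ P ∈ T.Z w a b}

theorem exists_compl (a b : Fin 4) (h : a < b) : ∃ c d, Dist4 a b c d := by
  have key : ∀ a b : Fin 4, a < b → ∃ c d : Fin 4, a ≠ b ∧ a ≠ c ∧ a ≠ d ∧ b ≠ c ∧ b ≠ d ∧ c ≠ d := by
    decide
  exact key a b h

theorem Fam.count_ZZ {ι : Type*} (F : Fam ι) {w : ℝ} (hw : 0 < w) (P : E3) (s : Finset ι)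
    (hs : ∀ i ∈ s, P ∈ (F.T i).ZZ w) : s.card ≤ 5 := by
  classical
  have h1 := F.sum_add_le s (B := Metric.closedBall P (470 * w))
    Metric.isClosed_closedBall.measurableSet MeasurableSet.empty (Set.empty_subset _)
  rw [Set.empty_inter, measure_empty, add_zero] at h1
  have h2 : ∀ i ∈ s, ENNReal.ofReal (19 / 100) * volume (Metric.closedBall (0 : E3) (459 * w)) ≤
      volume ((F.T i).S ∩ Metric.closedBall P (470 * w)) := by
    intro i hi
    obtain ⟨a, b, hab, hP⟩ := hs i hi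
    obtain ⟨c, d, hd⟩ := exists_compl a b hab
    exact (F.T i).wedge_volume hd hw hP
  have h3 := (Finset.sum_le_sum h2).trans h1
  rw [Finset.sum_const, nsmul_eq_mul, EuclideanSpace.volume_closedBall_fin_three,
    EuclideanSpace.volume_closedBall_fin_three, ← ENNReal.ofReal_pow (by positivity),
    ← ENNReal.ofReal_pow (by positivity), ← ENNReal.ofReal_mul (by positivity),
    ← ENNReal.ofReal_mul (by positivity), ← ENNReal.ofReal_mul (by positivity),
    ← ENNReal.ofReal_natCast, ← ENNReal.ofReal_mul (Nat.cast_nonneg _),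
    ENNReal.ofReal_le_ofReal_iff (by positivity)] at h3
  have hk : 0 < w ^ 3 * Real.pi := by positivity
  have h4 : (s.card : ℝ) * (19 / 100 * 459 ^ 3) ≤ 470 ^ 3 := by
    by_contra hc
    push Not at hc
    have := mul_lt_mul_of_pos_right hc hk
    nlinarith
  have h5 : (s.card : ℝ) < 6 := by
    by_contra hc
    push Not at hc
    nlinarith
  have h6 : s.card < 6 := by exact_mod_cast h5
  omega

end Pool.Agent.H771
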