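import Pool.Agent.H771.Next

/-!
# Outer members: their boundary line is clear of the other constraint
-/

namespace Pool.Agent.H771

open Complex

variable {ι : Type*}

theorem ou_beta {F x N M β : ℝ} (h : -(1 / 500) ≤ F) (hF : F = x + β) (hx : x ≤ N * M)
    (hN : N ≤ 1) (hM0 : 0 ≤ M) (hM : M ≤ 491 / 100) : -5 ≤ β := by
  have : N * M ≤ 1 * M := mul_le_mul_of_nonneg_right hN hM0
  linarith

theorem ou_eps {x y : ℝ} (hx : -5 ≤ x) (hy : -5 ≤ y) (hx2 : x ≤ 6) (hy2 : y ≤ 6) :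
    ((6 - x) / 600) * ((6 - y) / 600) ≤ 1 / 2900 := by
  have h1 : (6 - x) / 600 ≤ 11 / 600 := by linarith
  have h2 : (6 - y) / 600 ≤ 11 / 600 := by linarith
  have h3 : 0 ≤ (6 - x) / 600 := by linarith
  have h4 : 0 ≤ (6 - y) / 600 := by linarith
  nlinarith

theorem ou_b {ν b p : ℝ} (hν : 9998 / 10000 ≤ ν) (hb : ν * b = p)
    (hp : |p + 1 / 3| ≤ 1 / 2900) : -(1 / 3 + 1 / 1000) ≤ b ∧ b < 0 := by
  obtain ⟨h1, h2⟩ := abs_le.1 hp
  constructor
  · by_contra hc
    push Not at hc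
    nlinarith
  · by_contra hc
    push Not at hc
    nlinarith

theorem ou_a {a b N : ℝ} (hN : N ^ 2 = a ^ 2 + b ^ 2) (hN2 : 9998 / 10000 ≤ N)
    (hb : |b| ≤ 1 / 3 + 1 / 1000) : 93 / 100 ≤ |a| :=
  other_components hN (by nlinarith) hb (by norm_num) (by norm_num)

/-- components of the normals of a wedge with near constraints -/
theorem PD.wedge (P : PD ι) {j : ι} {k κ : Fin 4} (hk : k ∈ P.C j) (hκ : κ ∈ P.C j)
    (hne : κ ≠ k) (hβk : -5 ≤ P.β j k) (hβκ : -5 ≤ P.β j κ) {e : ℂ} (he : ‖e‖ = 1) {ν : ℝ}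
    (hn : P.n j k = (ν : ℂ) * (I * e)) (hν : 0 < ν) :
    93 / 100 ≤ |ip (P.n j κ) e| ∧ -(1 / 3 + 1 / 1000) ≤ ip (P.n j κ) (I * e) ∧
      ip (P.n j κ) (I * e) < 0 := by
  have hνn : ‖P.n j k‖ = ν := by
    rw [hn, norm_mul, norm_real, norm_mul, norm_I, he, Real.norm_eq_abs, abs_of_pos hν]; ring
  have hν2 := P.norm_of_beta hk hβk
  rw [hνn] at hν2
  have hνκ := P.norm_of_beta hκ hβκ
  have hb : ν * ip (P.n j κ) (I * e) = ip (P.n j k) (P.n j κ) := by
    rw [hn, ip_smul_left, ip_comm (I * e)]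
  have h1 := P.nn j k hk κ hκ (fun e => hne e.symm)
  have h2 := ou_eps hβk hβκ (P.βhi j k hk) (P.βhi j κ hκ)
  obtain ⟨h3, h4⟩ := ou_b hν2 hb (h1.trans h2)
  refine ⟨ou_a (norm_sq_expand (P.n j κ) e he) hνκ ?_, h3, h4⟩
  rw [abs_of_neg h4]; linarith

theorem ou_s {a s x t b : ℝ} (ha : 93 / 100 ≤ |a|) (h : a * s = -(x + b * t)) (hx0 : 0 ≤ x)
    (hx : x ≤ 1 / 2000) (hb : |b| ≤ 1 / 3 + 1 / 1000) (ht : |t| ≤ 201 / 100000) :
    |s| ≤ 2 / 1000 := by
  have h1 : |a| * |s| ≤ 1 / 2000 + (1 / 3 + 1 / 1000) * (201 / 100000) := by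
    rw [← abs_mul, h, abs_neg]
    have h2 := abs_add_le x (b * t)
    have h3 : |b * t| ≤ (1 / 3 + 1 / 1000) * (201 / 100000) := by
      rw [abs_mul]; exact mul_le_mul hb ht (abs_nonneg _) (by norm_num)
    rw [abs_of_nonneg hx0] at h2
    linarith
  have := abs_nonneg s
  by_contra hc
  push Not at hc
  nlinarith

/-- the boundary line of an outer member is clear of the other constraint -/
theorem outer_clear (P : PD ι) {R : ℝ} (hR0 : 0 ≤ R) (hR4 : R ≤ 4) {j : ι} (hJ : P.InJ j)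
    (hni : ¬ Inner P R j) (hgap : Gap P R) {k κ : Fin 4} (hk : k ∈ P.C j) (hκ : κ ∈ P.C j)
    (hne : κ ≠ k) {e : ℂ} (he : ‖e‖ = 1) {ν : ℝ} (hn : P.n j k = (ν : ℂ) * (I * e))
    (hν : 999 / 1000 ≤ ν) {y0 : ℂ} (h0 : ‖y0‖ ≤ R + 91 / 100)
    (h0k : |P.F j k y0| ≤ 1 / 500) (h0κ : P.F j κ y0 ≤ 1 / 2000) {y : ℂ}
    (hy : ‖y‖ ≤ R + 91 / 100) (hyk : |P.F j k y| ≤ 1 / 500) : P.F j κ y < 0 := by
  by_contra hcon
  push Not at hcon
  have hν0 : 0 < ν := by linarith
  -- interpolation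
  obtain ⟨z, hz1, hz2, hz3, hz4⟩ : ∃ z, ‖z‖ ≤ R + 91 / 100 ∧ |P.F j k z| ≤ 1 / 500 ∧
      0 ≤ P.F j κ z ∧ P.F j κ z ≤ 1 / 2000 := by
    rcases le_total (P.F j κ y) (1 / 2000) with h | h
    · exact ⟨y, hy, hyk, hcon, h⟩
    · rcases eq_or_lt_of_le (h0κ.trans h) with h' | h'
      · exact ⟨y, hy, hyk, hcon, by linarith⟩
      · set t : ℝ := (1 / 2000 - P.F j κ y0) / (P.F j κ y - P.F j κ y0) with ht
        have hd : 0 < P.F j κ y - P.F j κ y0 := by linarith
        have ht0 : 0 ≤ t := div_nonneg (by linarith) hd.le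
        have ht1 : t ≤ 1 := by rw [ht, div_le_one hd]; linarith
        have haff : ∀ l, P.F j l (y0 + (t : ℂ) * (y - y0)) =
            (1 - t) * P.F j l y0 + t * P.F j l y := by
          intro l
          rw [P.F_add, ip_smul_right, ip_sub_right]
          unfold PD.F
          ring
        have hval : P.F j κ (y0 + (t : ℂ) * (y - y0)) = 1 / 2000 := by
          rw [haff]
          have : t * (P.F j κ y - P.F j κ y0) = 1 / 2000 - P.F j κ y0 := by
            rw [ht]; field_simp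
          linarith
        refine ⟨y0 + (t : ℂ) * (y - y0), ?_, ?_, by rw [hval]; norm_num, hval.le⟩
        · have e1 : y0 + (t : ℂ) * (y - y0) = ((1 - t : ℝ) : ℂ) * y0 + (t : ℂ) * y := by
            push_cast; ring
          rw [e1]
          refine (norm_add_le _ _).trans ?_
          rw [norm_mul, norm_mul, norm_real, norm_real, Real.norm_eq_abs, Real.norm_eq_abs,
            abs_of_nonneg ht0, abs_of_nonneg (by linarith : 0 ≤ 1 - t)]
          have a1 := mul_le_mul_of_nonneg_left h0 (by linarith : 0 ≤ 1 - t)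
          have a2 := mul_le_mul_of_nonneg_left hy ht0
          linarith
        · rw [haff]
          refine (abs_add_le _ _).trans ?_
          rw [abs_mul, abs_mul, abs_of_nonneg ht0, abs_of_nonneg (by linarith : 0 ≤ 1 - t)]
          have a1 := mul_le_mul_of_nonneg_left h0k (by linarith : 0 ≤ 1 - t)
          have a2 := mul_le_mul_of_nonneg_left hyk ht0
          linarith
  have hz5 : ‖z‖ ≤ 491 / 100 := by linarith
  have hβk : -5 ≤ P.β j k := ou_beta (F := P.F j k z) (abs_le.1 hz2).1 rfl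
    (ip_le _ _) (P.n1 j k hk) (norm_nonneg _) hz5
  have hβκ : -5 ≤ P.β j κ := ou_beta (F := P.F j κ z) (by linarith) rfl
    (ip_le _ _) (P.n1 j κ hκ) (norm_nonneg _) hz5
  obtain ⟨ha, hb1, hb2⟩ := P.wedge hk hκ hne hβk hβκ he hn hν0
  set a := ip (P.n j κ) e with ha'
  set b := ip (P.n j κ) (I * e) with hb'
  have ha0 : a ≠ 0 := by
    intro h
    rw [h, abs_zero] at ha
    norm_num at ha
  set t : ℝ := -(P.F j k z) / ν with ht
  have hνt : ν * t = -(P.F j k z) := by rw [ht]; field_simp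
  have ht1 : |t| ≤ 201 / 100000 := by
    rw [ht, abs_div, abs_neg, abs_of_pos hν0, div_le_iff₀ hν0]
    have : (1 : ℝ) / 500 ≤ 201 / 100000 * ν + 1 / 1000000 := by linarith
    have h3 : |P.F j k z| ≤ 1 / 500 := hz2
    linarith
  set s : ℝ := -(P.F j κ z + b * t) / a with hs
  have has : a * s = -(P.F j κ z + b * t) := by rw [hs]; field_simp
  have hs1 : |s| ≤ 2 / 1000 := ou_s ha has hz3 hz4 (by rw [abs_of_neg hb2]; linarith) ht1
  set c : ℂ := z + ((s : ℂ) * e + (t : ℂ) * (I * e)) with hc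
  have hee := ip_self_unit e he
  have hII := ip_Id_Id e he
  have heI := ip_I_self e
  have hIe : ip (I * e) e = 0 := by rw [ip_comm]; exact heI
  have hck : P.F j k c = 0 := by
    rw [hc, P.F_add, ip_add_right, ip_smul_right, ip_smul_right, hn, ip_smul_left,
      ip_smul_left, hIe, hII]
    linarith
  have hcκ : P.F j κ c = 0 := by
    rw [hc, P.F_add, ip_add_right, ip_smul_right, ip_smul_right, ← ha', ← hb']
    linarith
  have hcn : ‖c‖ ≤ R + 1 := by
    have h1 := norm_add_le z ((s : ℂ) * e + (t : ℂ) * (I * e))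
    have h2 := norm_add_le ((s : ℂ) * e) ((t : ℂ) * (I * e))
    rw [norm_mul, norm_mul, norm_mul, norm_I, he, norm_real, norm_real, Real.norm_eq_abs,
      Real.norm_eq_abs] at h2
    rw [hc]
    linarith
  have hcard := P.card_two hk hκ hne
  have hall : ∀ l ∈ P.C j, P.F j l c = 0 := by
    obtain ⟨κ', hκ', hne', hall⟩ := P.two hcard hk
    have hκκ : κ' = κ := by
      rcases hall κ hκ with h | h
      · exact absurd h hne
      · exact h.symm
    intro l hl
    rcases hall l hl with h | h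
    · rw [h]; exact hck
    · rw [h, hκκ]; exact hcκ
  rcases le_or_gt ‖c‖ R with h | h
  · exact hni ⟨hcard, c, h, hall⟩
  · exact hgap j hJ hcard c hall ⟨h, hcn⟩

/-- the boundary line of an outer member -/
structure OuterLine (P : PD ι) (R : ℝ) (j : ι) (k : Fin 4) (e : ℂ) (ν b : ℝ) : Prop where
  inJ : P.InJ j
  ni : ¬ Inner P R j
  mem : k ∈ P.C j
  en : ‖e‖ = 1
  νlo : 9997 / 10000 ≤ ν
  νhi : ν ≤ 1
  hn : P.n j k = (ν : ℂ) * (I * e)
  hβ : |P.β j k| ≤ b * ν
  clear : ∀ κ ∈ P.C j, κ ≠ k → ∀ y, ‖y‖ ≤ R + 91 / 100 → |P.F j k y| ≤ 1 / 500 →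
    P.F j κ y < 0

theorem ou_off {R ν F β x b D : ℝ} (hR4 : R ≤ 4) (hν : 9997 / 10000 ≤ ν)
    (hF : F = -(ν * x) + β) (hF' : |F| ≤ 33 / 20000) (hx : |x| ≤ b + 1 / 1000 + D)
    (hD : D ≤ (R + 9 / 10) * (106 / 10000)) : |β| ≤ (b + 11 / 200) * ν := by
  have e : β = F + ν * x := by linarith
  have hν0 : 0 ≤ ν := by linarith
  have h1 : |x| ≤ b + 5295 / 100000 := by
    have : (R + 9 / 10) * (106 / 10000) ≤ (4 + 9 / 10) * (106 / 10000) := by
      apply mul_le_mul_of_nonneg_right (by linarith) (by norm_num)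
    linarith
  rw [e]
  refine (abs_add_le _ _).trans ?_
  rw [abs_mul, abs_of_nonneg hν0]
  have h2 := mul_le_mul_of_nonneg_left h1 hν0
  nlinarith

/-- the outer case of the flush step -/
theorem next_outer (P : PD ι) {R : ℝ} (hR0 : 0 ≤ R) (hR4 : R ≤ 4) (hgap : Gap P R)
    {j j' : ι} {k k' : Fin 4} {d d' y : ℂ} {b ν' : ℝ} (hd : ‖d‖ = 1)
    (H : FlushTo P R j k d b j' k' d' ν' y) (hni : ¬ Inner P R j') :
    OuterLine P R j' k' (-d') ν' (b + 11 / 200) := by
  have hn : P.n j' k' = (ν' : ℂ) * (I * (-d')) := by rw [H.hn]; ring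
  refine ⟨H.inJ, hni, H.mem, by rw [norm_neg]; exact H.dn, H.νlo, H.νhi, hn, ?_, ?_⟩
  · have hD : |ip y (I * d') - ip y (I * d)| ≤ (R + 9 / 10) * (106 / 10000) := by
      rw [← ip_sub_right, ← mul_sub]
      refine (abs_ip_le _ _).trans ?_
      rw [norm_mul, norm_I, one_mul]
      exact mul_le_mul H.yhi H.dd (norm_nonneg _) (by linarith)
    have hx : |ip y (I * d')| ≤ b + 1 / 1000 + (R + 9 / 10) * (106 / 10000) := by
      have e : ip y (I * d') = ip y (I * d) + (ip y (I * d') - ip y (I * d)) := by ring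
      rw [e]
      refine (abs_add_le _ _).trans ?_
      have := H.off
      linarith
    refine ou_off (R := R) (F := P.F j' k' y) (x := ip y (I * d')) hR4 H.νlo ?_ H.F' hx le_rfl
    unfold PD.F
    rw [H.hn, ip_neg_left, ip_smul_left, ip_comm (I * d')]
  · intro κ hκ hne z hz1 hz2
    have hyhi := H.yhi
    have hνlo := H.νlo
    have hF' := H.F'
    exact outer_clear P hR0 hR4 H.inJ hni hgap H.mem hκ hne (by rw [norm_neg]; exact H.dn) hn
      (by linarith) (y0 := y) (by linarith) (by linarith) (H.Fle κ hκ) hz1 hz2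

end Pool.Agent.H771
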