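import Pool.Agent.H771.Outer

/-!
# Outer members do not contain the origin; there are no two consecutive outer members
-/

namespace Pool.Agent.H771

open Complex

variable {ι : Type*}

/-- the distinguished member is inner -/
theorem PD.inner_o (P : PD ι) {R : ℝ} (hR0 : 0 ≤ R) : Inner P R P.o := by
  refine ⟨P.oc, 0, by rw [norm_zero]; exact hR0, fun k hk => ?_⟩
  unfold PD.F
  rw [ip_zero_right, P.oβ k hk]; ring

theorem PD.inJ_o (P : PD ι) : P.InJ P.o := by
  refine ⟨0, by rw [norm_zero]; norm_num, fun k hk => ?_⟩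
  unfold PD.F
  rw [ip_zero_right, P.oβ k hk]; norm_num

/-- no interior point of the distinguished member is interior to an outer member -/
theorem PD.o_dis (P : PD ι) {R : ℝ} (hR0 : 0 ≤ R) {j : ι} (hni : ¬ Inner P R j) {y : ℂ}
    (hy : ‖y‖ < 60) (h1 : ∀ k ∈ P.C P.o, P.F P.o k y < 0) : ∃ k ∈ P.C j, 0 ≤ P.F j k y := by
  by_contra hc
  push Not at hc
  have hne : P.o ≠ j := by
    intro h
    exact hni (h ▸ P.inner_o hR0)
  exact P.dis P.o j hne y hy h1 hc

theorem oo_c {R h s N : ℝ} (hR0 : 0 ≤ R) (hR4 : R ≤ 4) (h0 : 0 ≤ h) (hh : h ≤ R + 12 / 100)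
    (hs : |s| ≤ 36 / 100 * h) (hN : N ^ 2 = s ^ 2 + h ^ 2) (hN0 : 0 ≤ N) : N ≤ R + 1 := by
  have h1 : s ^ 2 ≤ (36 / 100 * h) ^ 2 := by
    rw [← sq_abs s]; exact pow_le_pow_left₀ (abs_nonneg s) hs 2
  have h2 : N ^ 2 ≤ (107 / 100 * h) ^ 2 := by nlinarith
  have h3 : N ≤ 107 / 100 * h := (pow_le_pow_iff_left₀ hN0 (by linarith) two_ne_zero).1 h2
  linarith

theorem oo_s {a s b h x : ℝ} (ha : 93 / 100 ≤ |a|) (has : a * s = -(x + b * h))
    (hx0 : 0 ≤ x) (hF : x + b * h < 0) (hb : -(1 / 3 + 1 / 1000) ≤ b) (h0 : 0 ≤ h) :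
    |s| ≤ 36 / 100 * h := by
  have h1 : |a| * |s| ≤ (1 / 3 + 1 / 1000) * h := by
    rw [← abs_mul, has, abs_neg, abs_of_neg hF]
    nlinarith
  have := abs_nonneg s
  by_contra hc
  push Not at hc
  nlinarith

/-- small scalar with a negativity property -/
theorem small_scalar {ι : Type*} (s : Finset ι) (f : ι → ℝ) (hf : ∀ i ∈ s, f i < 0) :
    ∃ r : ℝ, 0 < r ∧ r ≤ 1 ∧ ∀ i ∈ s, f i + r < 0 := by
  induction s using Finset.cons_induction with
  | empty => exact ⟨1, one_pos, le_rfl, fun i hi => absurd hi (Finset.notMem_empty i)⟩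
  | cons a s ha ih =>
    obtain ⟨r, hr0, hr1, hr⟩ := ih (fun i hi => hf i (Finset.mem_cons_of_mem hi))
    have h1 := hf a (Finset.mem_cons_self a s)
    refine ⟨min r (-(f a) / 2), lt_min hr0 (by linarith), (min_le_left _ _).trans hr1, ?_⟩
    intro i hi
    rcases Finset.mem_cons.1 hi with h | h
    · rw [h]
      have := min_le_right r (-(f a) / 2)
      linarith
    · have := min_le_left r (-(f a) / 2)
      have := hr i h
      linarith

theorem outer_O (P : PD ι) {R : ℝ} (hR0 : 0 ≤ R) (hR4 : R ≤ 4) (hgap : Gap P R)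
    {j : ι} {k : Fin 4} {e : ℂ} {ν b : ℝ} (H : OuterLine P R j k e ν b)
    (hb : b ≤ R + 12 / 100) : 0 ≤ P.β j k := by
  by_contra hcon
  push Not at hcon
  have hνlo := H.νlo
  have hν0 : 0 < ν := by linarith
  have he := H.en
  have hee := ip_self_unit e he
  have hII := ip_Id_Id e he
  have heI := ip_I_self e
  have hIe : ip (I * e) e = 0 := by rw [ip_comm]; exact heI
  set h : ℝ := -(P.β j k) / ν with hh
  have hνh : ν * h = -(P.β j k) := by rw [hh]; field_simp
  have h0 : 0 < h := div_pos (by linarith) hν0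
  have hhb : h ≤ R + 12 / 100 := by
    have h1 := H.hβ
    rw [abs_of_neg hcon, ← hνh] at h1
    have h2 : h ≤ b := by
      by_contra hc
      push Not at hc
      nlinarith
    linarith
  have hβk : -5 ≤ P.β j k := by
    have : ν * h ≤ 1 * h := mul_le_mul_of_nonneg_right H.νhi h0.le
    linarith
  -- if all the constraints are negative at the origin we are done
  by_cases hall : ∀ κ ∈ P.C j, P.F j κ 0 < 0
  · obtain ⟨r, hr0, hr1, hr⟩ := small_scalar (P.C j) (fun κ => P.F j κ 0) hall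
    obtain ⟨u, hu1, hu2⟩ := P.exists_dir P.o
    have hyn : ‖((r / 2 : ℝ) : ℂ) * u‖ = r / 2 := by
      rw [norm_mul, norm_real, hu1, Real.norm_eq_abs, abs_of_pos (by linarith)]; ring
    obtain ⟨κ, hκ, hκ2⟩ := P.o_dis hR0 H.ni (y := ((r / 2 : ℝ) : ℂ) * u)
      (by rw [hyn]; linarith) (by
        intro l hl
        have h1 := hu2 l hl
        unfold PD.F
        rw [P.oβ l hl, ip_smul_right]
        nlinarith)
    have h1 := P.F_lip j κ hκ 0 (((r / 2 : ℝ) : ℂ) * u)
    rw [sub_zero, hyn] at h1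
    have h2 := hr κ hκ
    linarith
  · push Not at hall
    obtain ⟨κ, hκ, hκ2⟩ := hall
    have hF0 : ∀ l, P.F j l 0 = P.β j l := by
      intro l; unfold PD.F; rw [ip_zero_right]; ring
    rw [hF0] at hκ2
    have hne : κ ≠ k := by
      intro hc
      rw [hc] at hκ2
      linarith
    obtain ⟨ha, hb1, hb2⟩ := P.wedge H.mem hκ hne hβk (by linarith) he H.hn hν0
    set a := ip (P.n j κ) e with ha'
    set b' := ip (P.n j κ) (I * e) with hb'
    have ha0 : a ≠ 0 := by
      intro h
      rw [h, abs_zero] at ha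
      norm_num at ha
    -- the foot
    set p : ℂ := (h : ℂ) * (I * e) with hp
    have hpn : ‖p‖ = h := by
      rw [hp, norm_mul, norm_mul, norm_I, he, norm_real, Real.norm_eq_abs, abs_of_pos h0]; ring
    have hpk : P.F j k p = 0 := by
      unfold PD.F
      rw [hp, H.hn, ip_smul_left, ip_smul_right, hII]
      linarith
    have hpκ : P.F j κ p = P.β j κ + b' * h := by
      unfold PD.F
      rw [hp, ip_smul_right]
      ring
    have h1 := H.clear κ hκ hne p (by rw [hpn]; linarith) (by rw [hpk, abs_zero]; norm_num)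
    rw [hpκ] at h1
    set s : ℝ := -(P.β j κ + b' * h) / a with hs
    have has : a * s = -(P.β j κ + b' * h) := by rw [hs]; field_simp
    have hs1 := oo_s ha has hκ2 h1 hb1 h0.le
    set c : ℂ := (s : ℂ) * e + (h : ℂ) * (I * e) with hc
    have hcn : ‖c‖ ^ 2 = s ^ 2 + h ^ 2 := by
      rw [norm_sq_expand c e he, hc, ip_add_left, ip_add_left, ip_smul_left, ip_smul_left,
        ip_smul_left, ip_smul_left, hee, heI, hIe, hII]
      ring
    have hcn1 := oo_c hR0 hR4 h0.le hhb hs1 hcn (norm_nonneg _)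
    have hck : P.F j k c = 0 := by
      unfold PD.F
      rw [hc, ip_add_right, ip_smul_right, ip_smul_right, H.hn, ip_smul_left, ip_smul_left,
        hIe, hII]
      linarith
    have hcκ : P.F j κ c = 0 := by
      unfold PD.F
      rw [hc, ip_add_right, ip_smul_right, ip_smul_right, ← ha', ← hb']
      linarith
    have hcard := P.card_two H.mem hκ hne
    have hall : ∀ l ∈ P.C j, P.F j l c = 0 := by
      obtain ⟨κ', hκ', hne', hall⟩ := P.two hcard H.mem
      have hκκ : κ' = κ := by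
        rcases hall κ hκ with h | h
        · exact absurd h hne
        · exact h.symm
      intro l hl
      rcases hall l hl with h | h
      · rw [h]; exact hck
      · rw [h, hκκ]; exact hcκ
    rcases le_or_gt ‖c‖ R with h' | h'
    · exact H.ni ⟨hcard, c, h', hall⟩
    · exact hgap j H.inJ hcard c hall ⟨h', hcn1⟩

/-- the other constraint of an outer line near the origin is very negative near the origin -/
theorem OuterLine.deep {P : PD ι} {R : ℝ} (hR0 : 0 ≤ R) {j : ι} {k : Fin 4} {e : ℂ} {ν b : ℝ}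
    (H : OuterLine P R j k e ν b) (hβ0 : 0 ≤ P.β j k) (hβ1 : P.β j k ≤ 56 / 1000)
    {κ : Fin 4} (hκ : κ ∈ P.C j) (hne : κ ≠ k) {y : ℂ} (hy : ‖y‖ ≤ 92 / 1000) :
    P.F j κ y < 0 := by
  by_contra hcon
  push Not at hcon
  have hνlo := H.νlo
  have hν0 : 0 < ν := by linarith
  have he := H.en
  have hee := ip_self_unit e he
  have hII := ip_Id_Id e he
  have heI := ip_I_self e
  have hIe : ip (I * e) e = 0 := by rw [ip_comm]; exact heI
  have hyb := P.F_lip j κ hκ y y
  have hβκ : -5 ≤ P.β j κ := ou_beta (F := P.F j κ y) (by linarith) rfl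
    (ip_le _ _) (P.n1 j κ hκ) (norm_nonneg _) (by linarith)
  obtain ⟨ha, hb1, hb2⟩ := P.wedge H.mem hκ hne (by linarith) hβκ he H.hn hν0
  set a := ip (P.n j κ) e with ha'
  set b' := ip (P.n j κ) (I * e) with hb'
  set h : ℝ := P.β j k / ν with hh
  have hνh : ν * h = P.β j k := by rw [hh]; field_simp
  have h0 : 0 ≤ h := div_nonneg hβ0 hν0.le
  have hh1 : h ≤ 57 / 1000 := by
    rw [hh, div_le_iff₀ hν0]; linarith
  set p : ℂ := ((-h : ℝ) : ℂ) * (I * e) with hp
  have hpn : ‖p‖ = h := by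
    rw [hp, norm_mul, norm_mul, norm_I, he, norm_real, Real.norm_eq_abs, abs_neg,
      abs_of_nonneg h0]; ring
  have hpk : P.F j k p = 0 := by
    unfold PD.F
    rw [hp, H.hn, ip_smul_left, ip_smul_right, hII]
    linarith
  have key : ∀ σ : ℝ, |σ| ≤ 85 / 100 → P.F j κ p + σ * a < 0 := by
    intro σ hσ
    have e1 : P.F j κ (p + (σ : ℂ) * e) = P.F j κ p + σ * a := by
      rw [P.F_add, ip_smul_right]
    rw [← e1]
    apply H.clear κ hκ hne
    · refine (norm_add_le _ _).trans ?_
      rw [hpn, norm_mul, he, norm_real, Real.norm_eq_abs]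
      linarith
    · rw [P.F_add, hpk, ip_smul_right, H.hn, ip_smul_left, hIe]
      simp
  have hp2 : P.F j κ p ≤ -(79 / 100) := by
    rcases le_abs.1 ha with h1 | h1
    · have := key (85 / 100) (by rw [abs_of_pos (by norm_num)])
      linarith
    · have := key (-(85 / 100)) (by rw [abs_neg, abs_of_pos (by norm_num)])
      linarith
  have h3 := P.F_lip j κ hκ p y
  have h4 := norm_sub_le y p
  rw [hpn] at h4
  linarith

theorem ntwo_sum {R S β1 β2 x Y D : ℝ} (hR4 : R ≤ 4) (hS : S = x + (β1 + β2))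
    (hS1 : S ≤ 21 / 40000 + 33 / 20000) (hx : -x ≤ D * Y) (hD : D ≤ 109 / 10000)
    (hY : Y ≤ R + 9 / 10) (hY0 : 0 ≤ Y) : β1 + β2 ≤ 558 / 10000 := by
  have h1 : D * Y ≤ 109 / 10000 * Y := mul_le_mul_of_nonneg_right hD hY0
  nlinarith

/-- there are no two consecutive outer members -/
theorem no_two_outer (P : PD ι) {R : ℝ} (hR0 : 0 ≤ R) (hR4 : R ≤ 4) (hgap : Gap P R)
    {j j' : ι} {k k' : Fin 4} {e d' y : ℂ} {b ν ν' : ℝ} (H : OuterLine P R j k e ν b)
    (hb : b ≤ R + 6 / 100) (H' : FlushTo P R j k e b j' k' d' ν' y) : Inner P R j' := by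
  by_contra hni
  have O' := next_outer P hR0 hR4 hgap H.en H' hni
  have hβ1 := outer_O P hR0 hR4 hgap H (by linarith)
  have hβ2 := outer_O P hR0 hR4 hgap O' (by linarith)
  have hνlo := H.νlo
  have hνhi := H.νhi
  have hνlo' := H'.νlo
  have hνhi' := H'.νhi
  -- the sum of the two constraint functions
  have hsum : ‖P.n j k + P.n j' k'‖ ≤ 109 / 10000 := by
    have e1 : P.n j k + P.n j' k' =
        ((ν - ν' : ℝ) : ℂ) * (I * e) + ((-ν' : ℝ) : ℂ) * (I * (d' - e)) := by
      rw [H.hn, H'.hn]; push_cast; ring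
    rw [e1]
    refine (norm_add_le _ _).trans ?_
    rw [norm_mul, norm_mul, norm_mul, norm_mul, norm_I, norm_real, norm_real, H.en,
      Real.norm_eq_abs, Real.norm_eq_abs, abs_neg, abs_of_pos (by linarith : 0 < ν')]
    have h1 : |ν - ν'| ≤ 3 / 10000 := by rw [abs_le]; constructor <;> linarith
    have h2 := H'.dd
    have h3 := norm_nonneg (d' - e)
    nlinarith
  have hFsum : ∀ z, P.F j k z + P.F j' k' z =
      ip (P.n j k + P.n j' k') z + (P.β j k + P.β j' k') := by
    intro z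
    unfold PD.F
    rw [ip_add_left]; ring
  have hββ : P.β j k + P.β j' k' ≤ 558 / 10000 := by
    have h1 := abs_ip_le (P.n j k + P.n j' k') y
    refine ntwo_sum (R := R) (S := P.F j k y + P.F j' k' y)
      (x := ip (P.n j k + P.n j' k') y) (Y := ‖y‖) (D := ‖P.n j k + P.n j' k'‖)
      hR4 (hFsum y) ?_ ?_ hsum H'.yhi (norm_nonneg _)
    · rw [H'.Fj]
      have := (abs_le.1 H'.F').2
      linarith
    · have := (abs_le.1 h1).1
      linarith
  -- the point inside the distinguished member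
  obtain ⟨u, hu1, hu2⟩ := P.exists_dir P.o
  set z : ℂ := ((6 / 100 : ℝ) : ℂ) * u with hz
  have hzn : ‖z‖ = 6 / 100 := by
    rw [hz, norm_mul, norm_real, hu1, Real.norm_eq_abs, abs_of_pos (by norm_num)]; ring
  have hzo : ∀ l ∈ P.C P.o, P.F P.o l z ≤ -(33 / 1000) := by
    intro l hl
    have := hu2 l hl
    unfold PD.F
    rw [hz, P.oβ l hl, ip_smul_right]
    linarith
  have hzs : P.F j k z + P.F j' k' z ≤ 565 / 10000 := by
    rw [hFsum]
    have h1 := ip_le (P.n j k + P.n j' k') z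
    rw [hzn] at h1
    nlinarith
  -- general contradiction
  have main : ∀ (i : ι) (l : Fin 4) (f : ℂ) (νi bi : ℝ), OuterLine P R i l f νi bi →
      0 ≤ P.β i l → P.β i l ≤ 56 / 1000 → P.F i l z ≤ 2825 / 100000 → False := by
    intro i l f νi bi Hi h0 h1 h2
    have hνi := Hi.νlo
    have hII := ip_Id_Id f Hi.en
    set v : ℂ := ((-(31 / 1000) : ℝ) : ℂ) * (I * f) with hv
    have hvn : ‖v‖ = 31 / 1000 := by
      rw [hv, norm_mul, norm_mul, norm_I, Hi.en, norm_real, Real.norm_eq_abs, abs_neg,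
        abs_of_pos (by norm_num)]; ring
    have hzv : ‖z + v‖ ≤ 92 / 1000 := by
      refine (norm_add_le _ _).trans ?_
      rw [hzn, hvn]; norm_num
    obtain ⟨κ, hκ, hκ2⟩ := P.o_dis hR0 Hi.ni (y := z + v) (by linarith) (by
      intro m hm
      have h3 := P.F_lip P.o m hm z (z + v)
      rw [add_sub_cancel_left, hvn] at h3
      have := hzo m hm
      linarith)
    by_cases hκl : κ = l
    · rw [hκl, P.F_add, Hi.hn, hv, ip_smul_left, ip_smul_right, hII] at hκ2
      linarith
    · have := Hi.deep hR0 h0 h1 hκ hκl hzv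
      linarith
  rcases le_total (P.F j k z) (2825 / 100000) with h | h
  · exact main j k e ν b H hβ1 (by linarith) h
  · exact main j' k' (-d') ν' (b + 11 / 200) O' hβ2 (by linarith) (by linarith)

end Pool.Agent.H771
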