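import Pool.Agent.H771.Tet
import Pool.Agent.H771.Cycle

/-!
# The planar section of a packing near a good point of an edge
-/

namespace Pool.Agent.H771

open Complex
open scoped RealInnerProductSpace

/-- the point of the plane through `x` orthogonal to the first vector of the basis -/
noncomputable def hat (b : OrthonormalBasis (Fin 3) ℝ E3) (y : ℂ) : E3 :=
  y.re • b 1 + y.im • b 2

/-- the planar coordinates of the projection of a vector -/
noncomputable def pr (b : OrthonormalBasis (Fin 3) ℝ E3) (v : E3) : ℂ := ⟨⟪v, b 1⟫, ⟪v, b 2⟫⟩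

theorem inner_hat (b : OrthonormalBasis (Fin 3) ℝ E3) (v : E3) (y : ℂ) :
    ⟪v, hat b y⟫ = ip (pr b v) y := by
  unfold hat pr ip
  rw [inner_add_right, inner_smul_right, inner_smul_right]
  ring

theorem norm_hat (b : OrthonormalBasis (Fin 3) ℝ E3) (y : ℂ) : ‖hat b y‖ = ‖y‖ := by
  have h1 : ‖hat b y‖ ^ 2 = ‖y‖ ^ 2 := by
    rw [norm_sq_ip, ← real_inner_self_eq_norm_sq]
    unfold hat ip
    have h11 : ⟪b 1, b 1⟫ = (1 : ℝ) := by
      rw [real_inner_self_eq_norm_sq, b.orthonormal.1 1]; norm_num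
    have h22 : ⟪b 2, b 2⟫ = (1 : ℝ) := by
      rw [real_inner_self_eq_norm_sq, b.orthonormal.1 2]; norm_num
    have h12 : ⟪b 1, b 2⟫ = (0 : ℝ) := b.orthonormal.2 (by decide)
    have h21 : ⟪b 2, b 1⟫ = (0 : ℝ) := b.orthonormal.2 (by decide)
    simp only [inner_add_left, inner_add_right, inner_smul_left, inner_smul_right, h11, h22, h12,
      h21, conj_trivial]
    ring
  exact (sq_eq_sq₀ (norm_nonneg _) (norm_nonneg _)).1 h1

theorem ip_pr (b : OrthonormalBasis (Fin 3) ℝ E3) (u v : E3) :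
    ip (pr b u) (pr b v) = ⟪u, v⟫ - ⟪u, b 0⟫ * ⟪v, b 0⟫ := by
  have h := b.sum_inner_mul_inner u v
  rw [Fin.sum_univ_three] at h
  unfold ip pr
  rw [← h, real_inner_comm v (b 0), real_inner_comm v (b 1), real_inner_comm v (b 2)]
  ring

theorem norm_pr_sq (b : OrthonormalBasis (Fin 3) ℝ E3) (u : E3) :
    ‖pr b u‖ ^ 2 = ‖u‖ ^ 2 - ⟪u, b 0⟫ ^ 2 := by
  rw [norm_sq_ip, ip_pr, real_inner_self_eq_norm_sq]
  ring

theorem fourth_face (k1 k2 k3 : Fin 4) (h12 : k1 ≠ k2) (h13 : k1 ≠ k3) (h23 : k2 ≠ k3) :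
    ∃ k4 : Fin 4, k1 ≠ k4 ∧ k2 ≠ k4 ∧ k3 ≠ k4 ∧
      (Finset.univ : Finset (Fin 4)) = {k1, k2, k3, k4} := by
  have h : ∀ k1 k2 k3 : Fin 4, k1 ≠ k2 ∧ k1 ≠ k3 ∧ k2 ≠ k3 → ∃ k4 : Fin 4, k1 ≠ k4 ∧ k2 ≠ k4 ∧
      k3 ≠ k4 ∧ ∀ i, i = k1 ∨ i = k2 ∨ i = k3 ∨ i = k4 := by decide
  obtain ⟨k4, a, b, c, d⟩ := h k1 k2 k3 ⟨h12, h13, h23⟩
  refine ⟨k4, a, b, c, ?_⟩
  ext i
  simp [d i]

/-- local data near a good point `x` of an edge of the tetrahedron `o` -/
structure Loc (ι : Type*) where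
  /-- the family -/
  T : ι → Tet
  dis : ∀ i j, i ≠ j → ∀ y, (∀ k, (T i).f k y < 0) → (∀ k, (T j).f k y < 0) → False
  /-- the distinguished tetrahedron -/
  o : ι
  /-- the point of the edge -/
  x : E3
  /-- the unit of length -/
  w : ℝ
  w0 : 0 < w
  w1 : w ≤ 1
  /-- the frame -/
  b : OrthonormalBasis (Fin 3) ℝ E3
  /-- first face -/
  p : Fin 4
  /-- second face -/
  q : Fin 4
  pq : p ≠ q
  fp : (T o).f p x = 0
  fq : (T o).f q x = 0
  fr : ∀ r, r ≠ p → r ≠ q → (T o).f r x ≤ -(60 * w)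
  good : ∀ j, (∃ z ∈ (T j).S, ‖z - x‖ ≤ 6 * w) → ∀ k,
    (T j).f k x + 600 * w * |⟪(T j).ν k, b 0⟫| ≤ 6 * w

namespace Loc

variable {ι : Type*} (L : Loc ι)

/-- the relevant members -/
def Rel : Type _ := {j : ι // ∃ z ∈ (L.T j).S, ‖z - L.x‖ ≤ 6 * L.w}

theorem o_mem : L.x ∈ (L.T L.o).S := by
  intro k
  by_cases h1 : k = L.p
  · rw [h1, L.fp]
  · by_cases h2 : k = L.q
    · rw [h2, L.fq]
    · have := L.fr k h1 h2
      have := L.w0
      linarith

/-- the distinguished member as a relevant member -/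
def oR : L.Rel := ⟨L.o, L.x, L.o_mem, by rw [sub_self, norm_zero]; linarith [L.w0]⟩

/-- active faces -/
noncomputable def C (j : L.Rel) : Finset (Fin 4) :=
  Finset.univ.filter fun k => -(60 * L.w) < (L.T j.1).f k L.x

theorem mem_C {j : L.Rel} {k : Fin 4} : k ∈ L.C j ↔ -(60 * L.w) < (L.T j.1).f k L.x := by
  simp [C]

theorem tilt (j : L.Rel) (k : Fin 4) :
    |⟪(L.T j.1).ν k, L.b 0⟫| ≤ (6 - (L.T j.1).f k L.x / L.w) / 600 := by
  have h1 := L.good j.1 j.2 k
  have h2 := L.w0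
  have h3 : (L.T j.1).f k L.x / L.w * L.w = (L.T j.1).f k L.x := by field_simp
  rw [le_div_iff₀ (by norm_num)]
  by_contra hc
  push Not at hc
  nlinarith

theorem tilt0 (j : L.Rel) (k : Fin 4) (hk : k ∈ L.C j) :
    |⟪(L.T j.1).ν k, L.b 0⟫| ≤ 11 / 100 := by
  have h1 := L.good j.1 j.2 k
  have h2 := L.mem_C.1 hk
  have h3 := L.w0
  by_contra hc
  push Not at hc
  nlinarith

theorem C_nonempty (j : L.Rel) : (L.C j).Nonempty := by
  have hw := L.w0
  have hw1 := L.w1
  by_contra hcon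
  rw [Finset.not_nonempty_iff_eq_empty] at hcon
  have h : ∀ k, (L.T j.1).f k L.x ≤ -(60 * L.w) := by
    intro k
    by_contra hc
    push Not at hc
    have := L.mem_C.2 hc
    rw [hcon] at this
    exact Finset.notMem_empty _ this
  have hjo : L.o ≠ j.1 := by
    intro e
    have := h L.p
    rw [← e, L.fp] at this
    linarith
  set y := L.x + L.w • ((L.T L.o).g - L.x) with hy
  have hn : ‖y - L.x‖ ≤ 3 * L.w := by
    rw [hy, add_sub_cancel_left, norm_smul, Real.norm_eq_abs, abs_of_pos hw, ← norm_neg,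
      neg_sub]
    have := (L.T L.o).norm_sub_g L.o_mem
    nlinarith
  refine L.dis L.o j.1 hjo y ?_ ?_
  · intro k
    rw [hy, (L.T L.o).f_comb, (L.T L.o).f_g]
    have h1 := L.o_mem k
    nlinarith
  · intro k
    have h1 := (L.T j.1).f_le k y L.x
    have := h k
    linarith

theorem C_card (j : L.Rel) : (L.C j).card ≤ 2 := by
  by_contra hcon
  push Not at hcon
  obtain ⟨k1, h1, k2, h2, k3, h3, h12, h13, h23⟩ := Finset.two_lt_card.1 hcon
  have t1 := L.tilt0 j k1 h1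
  have t2 := L.tilt0 j k2 h2
  have t3 := L.tilt0 j k3 h3
  set u := L.T j.1 with hu
  have hs := u.sum_ν
  have hf := u.sq_frame (L.b 0)
  rw [L.b.orthonormal.1 0] at hf
  have hs2 : ∑ i, ⟪u.ν i, L.b 0⟫ = 0 := by
    rw [← sum_inner, hs, inner_zero_left]
  -- bound all the squares
  obtain ⟨k4, h14, h24, h34, hall⟩ := fourth_face k1 k2 k3 h12 h13 h23
  rw [hall, Finset.sum_insert (by simp [h12, h13, h14]), Finset.sum_insert (by simp [h23, h24]),
    Finset.sum_insert (by simp [h34]), Finset.sum_singleton] at hs2 hf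
  rw [abs_le] at t1 t2 t3
  nlinarith

/-- the planar data of a section -/
noncomputable def toPD : PD L.Rel where
  n j k := pr L.b ((L.T j.1).ν k)
  β j k := (L.T j.1).f k L.x / L.w
  C := L.C
  o := L.oR
  C1 := L.C_nonempty
  C2 := L.C_card
  βlo j k hk := by
    have h1 := L.mem_C.1 hk
    rw [lt_div_iff₀ L.w0]
    linarith
  βhi j k _ := by
    have h1 := L.good j.1 j.2 k
    have h2 := L.w0
    rw [div_le_iff₀ h2]
    have := mul_nonneg (mul_nonneg (by norm_num : (0 : ℝ) ≤ 600) h2.le)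
      (abs_nonneg ⟪(L.T j.1).ν k, L.b 0⟫)
    linarith
  n1 j k _ := by
    have h1 := norm_pr_sq L.b ((L.T j.1).ν k)
    rw [(L.T j.1).n1] at h1
    nlinarith [norm_nonneg (pr L.b ((L.T j.1).ν k)), sq_nonneg ⟪(L.T j.1).ν k, L.b 0⟫]
  n2 j k _ := by
    rw [norm_pr_sq, (L.T j.1).n1, one_pow]
    have h1 := L.tilt j k
    have h2 := pow_le_pow_left₀ (abs_nonneg _) h1 2
    rw [sq_abs] at h2
    linarith
  nn j k _ k' _ hkk := by
    rw [ip_pr, (L.T j.1).n3 k k' hkk, show -(1 / 3 : ℝ) -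
      ⟪(L.T j.1).ν k, L.b 0⟫ * ⟪(L.T j.1).ν k', L.b 0⟫ + 1 / 3 =
      -(⟪(L.T j.1).ν k, L.b 0⟫ * ⟪(L.T j.1).ν k', L.b 0⟫) by ring, abs_neg, abs_mul]
    exact mul_le_mul (L.tilt j k) (L.tilt j k') (abs_nonneg _)
      ((abs_nonneg _).trans (L.tilt j k))
  dis i j hij y hy h1 h2 := by
    have hw := L.w0
    have key : ∀ j : L.Rel, (∀ k ∈ L.C j, ip (pr L.b ((L.T j.1).ν k)) y +
        (L.T j.1).f k L.x / L.w < 0) → ∀ k, (L.T j.1).f k (L.x + L.w • hat L.b y) < 0 := by
      intro j h k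
      by_cases hk : k ∈ L.C j
      · have h1 := h k hk
        rw [(L.T j.1).f_add, inner_smul_right, inner_hat]
        have h3 : (L.T j.1).f k L.x / L.w * L.w = (L.T j.1).f k L.x := by field_simp
        nlinarith
      · rw [L.mem_C, not_lt] at hk
        have h1 := (L.T j.1).f_le k (L.x + L.w • hat L.b y) L.x
        rw [add_sub_cancel_left, norm_smul, norm_hat, Real.norm_eq_abs, abs_of_pos hw] at h1
        nlinarith
    exact L.dis i.1 j.1 (fun e => hij (Subtype.ext e)) _ (key i h1) (key j h2)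
  oc := by
    have : L.C L.oR = {L.p, L.q} := by
      ext k
      rw [L.mem_C, Finset.mem_insert, Finset.mem_singleton]
      have hw := L.w0
      constructor
      · intro h
        by_contra hc
        push Not at hc
        have := L.fr k hc.1 hc.2
        exact absurd h (not_lt.2 this)
      · rintro (h | h)
        · rw [h]
          change -(60 * L.w) < (L.T L.o).f L.p L.x
          rw [L.fp]; linarith
        · rw [h]
          change -(60 * L.w) < (L.T L.o).f L.q L.x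
          rw [L.fq]; linarith
    rw [this, Finset.card_pair L.pq]
  oβ k hk := by
    have hw := L.w0
    by_cases h1 : k = L.p
    · rw [h1]
      change (L.T L.o).f L.p L.x / L.w = 0
      rw [L.fp]; simp
    · by_cases h2 : k = L.q
      · rw [h2]
        change (L.T L.o).f L.q L.x / L.w = 0
        rw [L.fq]; simp
      · have := L.fr k h1 h2
        exact absurd (L.mem_C.1 hk) (not_lt.2 this)

theorem toPD_F (j : L.Rel) (k : Fin 4) (y : ℂ) :
    L.toPD.F j k y * L.w = (L.T j.1).f k (L.x + L.w • hat L.b y) := by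
  have hw := L.w0
  rw [(L.T j.1).f_add, inner_smul_right, inner_hat]
  change (ip (pr L.b ((L.T j.1).ν k)) y + (L.T j.1).f k L.x / L.w) * L.w = _
  field_simp
  ring

/-- a planar uncovered point gives an uncovered point of space -/
theorem uncovered {y : ℂ} (hy : ‖y‖ ≤ 6) (h : ∀ j, ∃ k ∈ L.toPD.C j, 0 < L.toPD.F j k y)
    (j : ι) : L.x + L.w • hat L.b y ∉ (L.T j).S := by
  have hw := L.w0
  intro hmem
  by_cases hj : ∃ z ∈ (L.T j).S, ‖z - L.x‖ ≤ 6 * L.w
  · obtain ⟨k, -, hk⟩ := h ⟨j, hj⟩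
    have h1 := L.toPD_F ⟨j, hj⟩ k y
    have h2 := hmem k
    change _ = (L.T j).f k _ at h1
    rw [← h1] at h2
    have := mul_pos hk hw
    linarith
  · refine hj ⟨_, hmem, ?_⟩
    rw [add_sub_cancel_left, norm_smul, norm_hat, Real.norm_eq_abs, abs_of_pos hw]
    nlinarith

end Loc

end Pool.Agent.H771
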