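import Pool.Agent.H771.Ip

/-!
# The area of a planar sector
-/

namespace Pool.Agent.H771

open MeasureTheory Complex
open scoped ENNReal

/-- a sector with direction `u` -/
def Sec (u : ℂ) (r : ℝ) : Set ℂ := {y | ‖y‖ ≤ r ∧ 0 ≤ ip y u ∧ 2 * ‖y‖ ^ 2 ≤ 3 * ip y u ^ 2}

theorem ip_cont_left (u : ℂ) : Continuous fun y : ℂ => ip y u := by
  unfold ip
  fun_prop

theorem Sec_meas (u : ℂ) (r : ℝ) : MeasurableSet (Sec u r) := by
  have h1 : IsClosed {y : ℂ | ‖y‖ ≤ r} := isClosed_le continuous_norm continuous_const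
  have h2 : IsClosed {y : ℂ | 0 ≤ ip y u} := isClosed_le continuous_const (ip_cont_left u)
  have h3 : IsClosed {y : ℂ | 2 * ‖y‖ ^ 2 ≤ 3 * ip y u ^ 2} :=
    isClosed_le ((continuous_norm.pow 2).const_mul 2) (((ip_cont_left u).pow 2).const_mul 3)
  exact (h1.inter (h2.inter h3)).measurableSet

theorem lint_id {r : ℝ} (hr : 0 ≤ r) :
    ∫⁻ ρ in Set.Ioc 0 r, ENNReal.ofReal ρ = ENNReal.ofReal (r ^ 2 / 2) := by
  have hi : IntegrableOn (fun s : ℝ => s) (Set.Ioc 0 r) :=
    (continuous_id.integrableOn_Icc).mono_set Set.Ioc_subset_Icc_self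
  rw [← ofReal_integral_eq_lintegral_ofReal hi]
  · rw [← intervalIntegral.integral_of_le hr, integral_id]
    congr 1
    ring
  · refine (ae_restrict_iff' measurableSet_Ioc).2 (Filter.Eventually.of_forall fun s hs => ?_)
    exact hs.1.le

theorem Sec_volume_one {r : ℝ} (hr : 0 ≤ r) :
    ENNReal.ofReal (6 / 10 * r ^ 2) ≤ volume (Sec 1 r) := by
  rw [← lintegral_indicator_one (Sec_meas 1 r), ← Complex.lintegral_comp_polarCoord_symm]
  have hpi := Real.pi_gt_three
  have hsub : Set.Ioc 0 r ×ˢ Set.Ioo (-(6 / 10) : ℝ) (6 / 10) ⊆ polarCoord.target := by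
    rintro ⟨ρ, θ⟩ ⟨h1, h2⟩
    refine ⟨h1.1, ?_, ?_⟩
    · linarith [h2.1]
    · linarith [h2.2]
  calc ENNReal.ofReal (6 / 10 * r ^ 2)
      = ENNReal.ofReal (r ^ 2 / 2) * ENNReal.ofReal (12 / 10) := by
        rw [← ENNReal.ofReal_mul (by positivity)]
        congr 1
        ring
    _ = (∫⁻ ρ in Set.Ioc 0 r, ENNReal.ofReal ρ) *
          ∫⁻ _ in Set.Ioo (-(6 / 10) : ℝ) (6 / 10), 1 := by
        rw [lint_id hr, setLIntegral_one, Real.volume_Ioo]
        norm_num
    _ = ∫⁻ p : ℝ × ℝ in Set.Ioc 0 r ×ˢ Set.Ioo (-(6 / 10) : ℝ) (6 / 10),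
          ENNReal.ofReal p.1 * 1 := by
        rw [Measure.volume_eq_prod, ← Measure.prod_restrict,
          ← lintegral_prod_mul (ENNReal.measurable_ofReal.aemeasurable) aemeasurable_const]
    _ ≤ ∫⁻ p : ℝ × ℝ in Set.Ioc 0 r ×ˢ Set.Ioo (-(6 / 10) : ℝ) (6 / 10),
          ENNReal.ofReal p.1 • (Sec 1 r).indicator 1 (Complex.polarCoord.symm p) := by
        refine setLIntegral_mono' (measurableSet_Ioc.prod measurableSet_Ioo) ?_
        rintro ⟨ρ, θ⟩ ⟨h1, h2⟩
        simp only at h1 h2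
        have hρ : 0 < ρ := h1.1
        have hmem : Complex.polarCoord.symm (ρ, θ) ∈ Sec 1 r := by
          have hn : ‖Complex.polarCoord.symm (ρ, θ)‖ = ρ := by
            rw [Complex.norm_polarCoord_symm, abs_of_pos hρ]
          have hip : ip (Complex.polarCoord.symm (ρ, θ)) 1 = ρ * Real.cos θ := by
            rw [Complex.polarCoord_symm_apply]
            simp [ip, Complex.cos_ofReal_re, Complex.sin_ofReal_re, Complex.cos_ofReal_im]
          have hc := Real.one_sub_sq_div_two_le_cos (x := θ)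
          have hθ : θ ^ 2 ≤ (6 / 10) ^ 2 := by
            apply sq_le_sq'
            · linarith [h2.1]
            · linarith [h2.2]
          have hc2 : 82 / 100 ≤ Real.cos θ := by linarith
          refine ⟨?_, ?_, ?_⟩
          · rw [hn]; exact h1.2
          · rw [hip]; positivity
          · rw [hip, hn, mul_pow]
            have h3 : 2 ≤ 3 * Real.cos θ ^ 2 := by nlinarith
            have := mul_le_mul_of_nonneg_left h3 (sq_nonneg ρ)
            linarith
        rw [Set.indicator_of_mem hmem]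
        simp
    _ ≤ _ := lintegral_mono_set hsub

theorem ip_rot (u a b : ℂ) (hu : ‖u‖ = 1) : ip (u * a) (u * b) = ip a b := by
  have h := norm_sq_ip u
  rw [hu] at h
  simp only [ip, mul_re, mul_im] at h ⊢
  linear_combination (-(a.re * b.re + a.im * b.im)) * h

theorem Sec_volume {u : ℂ} (hu : ‖u‖ = 1) {r : ℝ} (hr : 0 ≤ r) :
    ENNReal.ofReal (6 / 10 * r ^ 2) ≤ volume (Sec u r) := by
  refine (Sec_volume_one hr).trans (le_of_eq ?_)
  have hc : u ∈ Submonoid.unitSphere ℂ := mem_sphere_zero_iff_norm.2 hu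
  have hmp : MeasurePreserving (rotation ⟨u, hc⟩) volume volume :=
    (rotation ⟨u, hc⟩).measurePreserving
  rw [← hmp.measure_preimage (Sec_meas u r).nullMeasurableSet]
  congr 1
  ext y
  have e1 : rotation ⟨u, hc⟩ y = u * y := rotation_apply _ _
  rw [Set.mem_preimage, e1]
  have e2 : ip (u * y) u = ip y 1 := by
    have := ip_rot u y 1 hu
    rwa [mul_one] at this
  change (_ ∧ _ ∧ _) ↔ (_ ∧ _ ∧ _)
  rw [norm_mul, hu, one_mul, e2]

theorem Sec_frac {u : ℂ} (hu : ‖u‖ = 1) {r : ℝ} (hr : 0 ≤ r) :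
    ENNReal.ofReal (19 / 100) * volume (Metric.closedBall (0 : ℂ) r) ≤ volume (Sec u r) := by
  refine le_trans ?_ (Sec_volume hu hr)
  have hpi' : (NNReal.pi : ℝ≥0∞) = ENNReal.ofReal Real.pi := by
    rw [← NNReal.coe_real_pi, ENNReal.ofReal_coe_nnreal]
  rw [Complex.volume_closedBall, hpi', ← ENNReal.ofReal_pow hr, ← ENNReal.ofReal_mul (by positivity),
    ← ENNReal.ofReal_mul (by positivity)]
  apply ENNReal.ofReal_le_ofReal
  have hpi := Real.pi_lt_d4
  nlinarith [sq_nonneg r]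

end Pool.Agent.H771
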