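import Mathlib

/-!
# Regular tetrahedra of inradius one, by outward unit normals
-/

namespace Pool.Agent.H771

open scoped RealInnerProductSpace

/-- three dimensional Euclidean space -/
abbrev E3 : Type := EuclideanSpace ℝ (Fin 3)

/-- the regular tetrahedron of inradius one with centre `g` and outward unit normals `ν` -/
structure Tet where
  /-- the centre -/
  g : E3
  /-- the outward unit normals -/
  ν : Fin 4 → E3
  n1 : ∀ i, ‖ν i‖ = 1
  n3 : ∀ i j, i ≠ j → ⟪ν i, ν j⟫ = -(1 / 3)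

namespace Tet

variable (T : Tet)

/-- the signed distance to the face `i` -/
noncomputable def f (i : Fin 4) (y : E3) : ℝ := ⟪T.ν i, y - T.g⟫ - 1

/-- the solid tetrahedron -/
def S : Set E3 := {y | ∀ i, T.f i y ≤ 0}

theorem nn (i : Fin 4) : ⟪T.ν i, T.ν i⟫ = 1 := by
  rw [real_inner_self_eq_norm_sq, T.n1]; norm_num

theorem sum_ν : ∑ i, T.ν i = 0 := by
  have h : ‖∑ i, T.ν i‖ ^ 2 = 0 := by
    rw [← real_inner_self_eq_norm_sq]
    simp only [Fin.sum_univ_four, inner_add_left, inner_add_right, T.nn]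
    rw [T.n3 0 1 (by decide), T.n3 0 2 (by decide), T.n3 0 3 (by decide), T.n3 1 0 (by decide),
      T.n3 1 2 (by decide), T.n3 1 3 (by decide), T.n3 2 0 (by decide), T.n3 2 1 (by decide),
      T.n3 2 3 (by decide), T.n3 3 0 (by decide), T.n3 3 1 (by decide), T.n3 3 2 (by decide)]
    norm_num
  exact norm_eq_zero.1 (by simpa using h)

/-- the orthonormal frame of the circumscribed cube -/
noncomputable def e (i : Fin 3) : E3 := (Real.sqrt 3 / 2) • (T.ν 0 + T.ν i.succ)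

theorem e_orthonormal : Orthonormal ℝ T.e := by
  have hs : Real.sqrt 3 * Real.sqrt 3 = 3 := Real.mul_self_sqrt (by norm_num)
  have key : ∀ i j : Fin 3, ⟪T.e i, T.e j⟫ = if i = j then (1 : ℝ) else 0 := by
    intro i j
    unfold e
    rw [inner_smul_left, inner_smul_right, inner_add_left, inner_add_right, inner_add_right,
      T.nn, T.n3 0 j.succ (Fin.succ_ne_zero j).symm, T.n3 i.succ 0 (Fin.succ_ne_zero i)]
    by_cases h : i = j
    · rw [if_pos h, h, T.nn]
      simp only [conj_trivial]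
      linear_combination (1 / 3) * hs
    · rw [if_neg h, T.n3 i.succ j.succ (fun e => h (Fin.succ_injective _ e))]
      norm_num
  rw [orthonormal_iff_ite]
  exact key

/-- the orthonormal basis of the circumscribed cube -/
noncomputable def eb : OrthonormalBasis (Fin 3) ℝ E3 :=
  OrthonormalBasis.mk T.e_orthonormal (by
    have h1 : (basisOfOrthonormalOfCardEqFinrank T.e_orthonormal (by simp) : Fin 3 → E3) = T.e :=
      coe_basisOfOrthonormalOfCardEqFinrank T.e_orthonormal (by simp)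
    rw [← h1]
    exact (Module.Basis.span_eq _).ge)

theorem eb_apply (i : Fin 3) : T.eb i = T.e i := by
  simp [eb]

theorem ν_zero : T.ν 0 = (Real.sqrt 3 / 3) • (T.e 0 + T.e 1 + T.e 2) := by
  have hs : Real.sqrt 3 * Real.sqrt 3 = 3 := Real.mul_self_sqrt (by norm_num)
  have h := T.sum_ν
  rw [Fin.sum_univ_four] at h
  have h2 : T.e 0 + T.e 1 + T.e 2 = Real.sqrt 3 • T.ν 0 := by
    have e1 : T.e 0 = (Real.sqrt 3 / 2) • (T.ν 0 + T.ν 1) := rfl
    have e2 : T.e 1 = (Real.sqrt 3 / 2) • (T.ν 0 + T.ν 2) := rfl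
    have e3 : T.e 2 = (Real.sqrt 3 / 2) • (T.ν 0 + T.ν 3) := rfl
    rw [e1, e2, e3, ← smul_add, ← smul_add]
    have : T.ν 0 + T.ν 1 + (T.ν 0 + T.ν 2) + (T.ν 0 + T.ν 3) = (2 : ℝ) • T.ν 0 := by
      have : T.ν 0 + T.ν 1 + (T.ν 0 + T.ν 2) + (T.ν 0 + T.ν 3) =
          (T.ν 0 + T.ν 1 + T.ν 2 + T.ν 3) + (2 : ℝ) • T.ν 0 := by
        rw [two_smul]; abel
      rw [this, h, zero_add]
    rw [this, smul_smul]
    congr 1
    ring
  rw [h2, smul_smul, show Real.sqrt 3 / 3 * Real.sqrt 3 = 1 by linarith, one_smul]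

theorem ν_succ (i : Fin 3) :
    T.ν i.succ = (2 / Real.sqrt 3) • T.e i - T.ν 0 := by
  have hs0 : Real.sqrt 3 ≠ 0 := by
    rw [Real.sqrt_ne_zero']; norm_num
  unfold e
  rw [smul_smul, show 2 / Real.sqrt 3 * (Real.sqrt 3 / 2) = 1 by field_simp, one_smul]
  abel

theorem norm_sq_e (x : E3) : ‖x‖ ^ 2 = ⟪T.e 0, x⟫ ^ 2 + ⟪T.e 1, x⟫ ^ 2 + ⟪T.e 2, x⟫ ^ 2 := by
  have h := T.eb.sum_sq_norm_inner_right x
  rw [Fin.sum_univ_three] at h
  simp only [T.eb_apply, Real.norm_eq_abs, sq_abs] at h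
  linarith

/-- the frame identity -/
theorem inner_frame (x y : E3) : ∑ i, ⟪T.ν i, x⟫ * ⟪T.ν i, y⟫ = (4 / 3) * ⟪x, y⟫ := by
  have hs : Real.sqrt 3 * Real.sqrt 3 = 3 := Real.mul_self_sqrt (by norm_num)
  have hs0 : Real.sqrt 3 ≠ 0 := by
    rw [Real.sqrt_ne_zero']; norm_num
  have h := T.eb.sum_inner_mul_inner x y
  rw [Fin.sum_univ_three] at h
  simp only [T.eb_apply] at h
  rw [← h, Fin.sum_univ_four]
  have h0 := T.ν_zero
  have h1 := T.ν_succ 0
  have h2 := T.ν_succ 1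
  have h3 := T.ν_succ 2
  have e1 : T.ν 1 = (2 / Real.sqrt 3) • T.e 0 - T.ν 0 := h1
  have e2 : T.ν 2 = (2 / Real.sqrt 3) • T.e 1 - T.ν 0 := h2
  have e3 : T.ν 3 = (2 / Real.sqrt 3) • T.e 2 - T.ν 0 := h3
  have hq : 2 / Real.sqrt 3 = 2 * (Real.sqrt 3 / 3) := by
    field_simp
    linarith
  rw [e1, e2, e3, h0, hq]
  simp only [inner_sub_left, inner_smul_left, inner_add_left, conj_trivial]
  rw [real_inner_comm (T.e 0) x, real_inner_comm (T.e 1) x, real_inner_comm (T.e 2) x]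
  linear_combination (4 / 9 * (⟪T.e 0, x⟫ * ⟪T.e 0, y⟫ + ⟪T.e 1, x⟫ * ⟪T.e 1, y⟫ +
    ⟪T.e 2, x⟫ * ⟪T.e 2, y⟫)) * hs

theorem sq_frame (x : E3) : ∑ i, ⟪T.ν i, x⟫ ^ 2 = (4 / 3) * ‖x‖ ^ 2 := by
  rw [← real_inner_self_eq_norm_sq, ← T.inner_frame]
  exact Finset.sum_congr rfl fun i _ => by ring

theorem vec_frame (x : E3) : ∑ i, ⟪T.ν i, x⟫ • T.ν i = (4 / 3 : ℝ) • x := by
  refine ext_inner_right ℝ fun y => ?_
  rw [sum_inner, inner_smul_left, conj_trivial, ← T.inner_frame]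
  exact Finset.sum_congr rfl fun i _ => by rw [inner_smul_left, conj_trivial]

theorem f_sub (i : Fin 4) (x y : E3) : T.f i x - T.f i y = ⟪T.ν i, x - y⟫ := by
  have h : x - y = (x - T.g) - (y - T.g) := by abel
  rw [h, inner_sub_right (T.ν i) (x - T.g) (y - T.g)]
  unfold f
  ring

theorem f_add (i : Fin 4) (x v : E3) : T.f i (x + v) = T.f i x + ⟪T.ν i, v⟫ := by
  have := T.f_sub i (x + v) x
  rw [add_sub_cancel_left] at this
  linarith

theorem abs_inner_le (i : Fin 4) (v : E3) : |⟪T.ν i, v⟫| ≤ ‖v‖ := by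
  have := abs_real_inner_le_norm (T.ν i) v
  rwa [T.n1, one_mul] at this

theorem f_lip (i : Fin 4) (x y : E3) : |T.f i x - T.f i y| ≤ ‖x - y‖ := by
  rw [T.f_sub]; exact T.abs_inner_le i _

theorem f_le (i : Fin 4) (x y : E3) : T.f i x ≤ T.f i y + ‖x - y‖ := by
  have := (abs_le.1 (T.f_lip i x y)).2
  linarith

theorem f_g (i : Fin 4) : T.f i T.g = -1 := by
  unfold f; rw [sub_self, inner_zero_right]; ring

theorem f_cont (i : Fin 4) : Continuous (T.f i) := by
  unfold f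
  fun_prop

theorem f_comb (i : Fin 4) (x y : E3) (t : ℝ) :
    T.f i (x + t • (y - x)) = (1 - t) * T.f i x + t * T.f i y := by
  rw [T.f_add, inner_smul_right, ← T.f_sub]
  ring

theorem isClosed_S : IsClosed T.S := by
  have : T.S = ⋂ i, {y | T.f i y ≤ 0} := by ext y; simp [S]
  rw [this]
  exact isClosed_iInter fun i => isClosed_le (T.f_cont i) continuous_const

theorem sum_f (y : E3) : ∑ i, T.f i y = -4 := by
  unfold f
  rw [Finset.sum_sub_distrib, ← sum_inner, T.sum_ν, inner_zero_left]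
  simp

theorem norm_sub_g {y : E3} (hy : y ∈ T.S) : ‖y - T.g‖ ≤ 3 := by
  -- `a i = ⟪ν i, y - g⟫ ≤ 1`, `∑ a i = 0`, so `a i ≥ -3` and `∑ a i ^ 2 ≤ 12`
  have h1 : ∀ i, ⟪T.ν i, y - T.g⟫ ≤ 1 := fun i => by
    have := hy i
    unfold f at this
    linarith
  have h2 : ∑ i, ⟪T.ν i, y - T.g⟫ = 0 := by
    rw [← sum_inner, T.sum_ν, inner_zero_left]
  have h3 := T.sq_frame (y - T.g)
  rw [Fin.sum_univ_four] at h2 h3
  have a0 := h1 0
  have a1 := h1 1
  have a2 := h1 2
  have a3 := h1 3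
  have h4 : ‖y - T.g‖ ^ 2 ≤ 9 := by
    nlinarith
  nlinarith [norm_nonneg (y - T.g)]

theorem interior_sub {y : E3} (hy : ∀ i, T.f i y < 0) : y ∈ interior T.S := by
  have ho : IsOpen {y | ∀ i, T.f i y < 0} := by
    have : {y | ∀ i, T.f i y < 0} = ⋂ i, {y | T.f i y < 0} := by ext y; simp
    rw [this]
    exact isOpen_iInter_of_finite fun i => isOpen_lt (T.f_cont i) continuous_const
  exact interior_maximal (fun z hz i => (hz i).le) ho hy

theorem ball_sub_interior : Metric.ball T.g 1 ⊆ interior T.S := by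
  intro y hy
  apply T.interior_sub
  intro i
  have h1 := T.f_le i y T.g
  rw [T.f_g] at h1
  rw [Metric.mem_ball, dist_eq_norm] at hy
  linarith

theorem convex_S : Convex ℝ T.S := by
  have : T.S = ⋂ i, {y | T.f i y ≤ 0} := by ext y; simp [S]
  rw [this]
  refine convex_iInter fun i => ?_
  intro x hx y hy a b ha hb hab
  simp only [Set.mem_ofPred_eq] at hx hy ⊢
  have : T.f i (a • x + b • y) = a * T.f i x + b * T.f i y := by
    have h := T.f_comb i x y b
    have e : x + b • (y - x) = a • x + b • y := by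
      rw [smul_sub, show a = 1 - b by linarith, sub_smul, one_smul]; abel
    rw [e] at h
    rw [h, show 1 - b = a by linarith]
  rw [this]
  nlinarith

end Tet

end Pool.Agent.H771
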